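import Pool.Agent.MalEngel.Exch

/-!
ROW MAL-THIN.  The thin element lemma (uses `exch_vanish` from row MAL-EXCH as a black box).
-/

namespace Pool.Agent.MalEngel

/-- number of letters -/
def thinNl {A : Type*} : List (Option A) → ℕ
  | [] => 0
  | none :: s => thinNl s
  | some _ :: s => thinNl s + 1

/-- number of letters `P` -/
def thinNp {A : Type*} : List (Option A) → ℕ
  | [] => 0
  | none :: s => thinNp s + 1
  | some _ :: s => thinNp s

theorem thinNl_append {A : Type*} (s t : List (Option A)) :
    thinNl (s ++ t) = thinNl s + thinNl t := by
  induction s with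
  | nil => simp [thinNl]
  | cons o s ih =>
    rcases o with _ | a
    · simp [thinNl, ih]
    · simp [thinNl, ih]; omega

theorem thinNp_append {A : Type*} (s t : List (Option A)) :
    thinNp (s ++ t) = thinNp s + thinNp t := by
  induction s with
  | nil => simp [thinNp]
  | cons o s ih =>
    rcases o with _ | a
    · simp [thinNp, ih]; omega
    · simp [thinNp, ih]

/-- fill the letters in a shape -/
def thinFill {A : Type*} : List Bool → List A → List (Option A)
  | [], _ => []
  | true :: sh, as => none :: thinFill sh as
  | false :: sh, a :: as => some a :: thinFill sh as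
  | false :: _, [] => []

theorem thinFill_count {A : Type*} (sh : List Bool) (as : List A) (h : as.length = sh.count false) :
    thinNl (thinFill sh as) = sh.count false ∧ thinNp (thinFill sh as) = sh.count true := by
  induction sh generalizing as with
  | nil => simp [thinFill, thinNl, thinNp]
  | cons b sh ih =>
    rcases b with _ | _
    · rcases as with _ | ⟨a, as⟩
      · simp at h
      · simp only [List.length_cons, List.count_cons_self, Nat.add_right_cancel_iff] at h
        obtain ⟨h1, h2⟩ := ih as h
        simp [thinFill, thinNl, thinNp, h1, h2]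
    · have h' : as.length = sh.count false := by simpa using h
      obtain ⟨h1, h2⟩ := ih as h'
      simp [thinFill, thinNl, thinNp, h1, h2]

theorem thinFill_head {A : Type*} (sh : List Bool) (sfx : List A)
    (h : sfx.length + 1 = sh.count false) :
    ∃ (j : ℕ) (v : List (Option A)), thinNp v + j = sh.count true ∧ thinNl v = sfx.length ∧
      ∀ y : A, thinFill sh (y :: sfx) = List.replicate j none ++ some y :: v := by
  induction sh with
  | nil => simp at h
  | cons b sh ih =>
    rcases b with _ | _
    · simp only [List.count_cons_self, Nat.add_right_cancel_iff] at h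
      obtain ⟨h1, h2⟩ := thinFill_count sh sfx h
      refine ⟨0, thinFill sh sfx, ?_, ?_, ?_⟩
      · simp [h2]
      · rw [h1, h]
      · intro y
        simp [thinFill]
    · have h' : sfx.length + 1 = sh.count false := by simpa using h
      obtain ⟨j, v, h1, h2, h3⟩ := ih h'
      refine ⟨j + 1, v, ?_, h2, ?_⟩
      · simp; omega
      · intro y
        simp [thinFill, h3, List.replicate_succ]

theorem thinFill_split {A : Type*} (sh : List Bool) (pfx sfx : List A)
    (h : pfx.length + sfx.length + 2 = sh.count false) :
    ∃ (u : List (Option A)) (j : ℕ) (v : List (Option A)),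
      thinNp u + j + thinNp v = sh.count true ∧ thinNl u + thinNl v + 2 = sh.count false ∧
      ∀ x y : A, thinFill sh (pfx ++ x :: y :: sfx) =
        u ++ some x :: (List.replicate j none ++ some y :: v) := by
  induction sh generalizing pfx with
  | nil => simp at h
  | cons b sh ih =>
    rcases b with _ | _
    · rcases pfx with _ | ⟨a, pfx⟩
      · simp only [List.count_cons_self, List.length_nil] at h
        obtain ⟨j, v, h1, h2, h3⟩ := thinFill_head sh sfx (by omega)
        refine ⟨[], j, v, ?_, ?_, ?_⟩
        · simp [thinNp]; omega
        · simp [thinNl]; omega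
        · intro x y
          simp [thinFill, h3]
      · simp only [List.count_cons_self, List.length_cons] at h
        obtain ⟨u, j, v, h1, h2, h3⟩ := ih pfx (by omega)
        refine ⟨some a :: u, j, v, ?_, ?_, ?_⟩
        · simp [thinNp]; omega
        · simp [thinNl]; omega
        · intro x y
          simp [thinFill, h3]
    · have h' : pfx.length + sfx.length + 2 = sh.count false := by simpa using h
      obtain ⟨u, j, v, h1, h2, h3⟩ := ih pfx h'
      refine ⟨none :: u, j, v, ?_, ?_, ?_⟩
      · simp [thinNp]; omega
      · simp [thinNl]; omega
      · intro x y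
        simp [thinFill, h3]

/-- the letters -/
def thinLet {A : Type*} : List (Option A) → List A
  | [] => []
  | none :: s => thinLet s
  | some a :: s => a :: thinLet s

/-- the shape -/
def thinSh {A : Type*} : List (Option A) → List Bool
  | [] => []
  | none :: s => true :: thinSh s
  | some _ :: s => false :: thinSh s

theorem thinFill_thinSh {A : Type*} (s : List (Option A)) :
    thinFill (thinSh s) (thinLet s) = s ∧ (thinLet s).length = thinNl s ∧
      (thinSh s).count false = thinNl s ∧ (thinSh s).count true = thinNp s := by
  induction s with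
  | nil => simp [thinFill, thinSh, thinLet, thinNl, thinNp]
  | cons o s ih =>
    obtain ⟨h1, h2, h3, h4⟩ := ih
    rcases o with _ | a
    · simp [thinFill, thinSh, thinLet, thinNl, thinNp, h1, h2, h3, h4]
    · simp [thinFill, thinSh, thinLet, thinNl, thinNp, h1, h2, h3, h4]

section
variable {A U : Type*} [NonUnitalNonAssocRing A] [Ring U]

/-- value of a token -/
def thinTok (R : A →+ U) (p : A) : Option A → U
  | none => R p
  | some a => R a

/-- value of a token string -/
def thinVal (R : A →+ U) (p : A) (s : List (Option A)) : U := (s.map (thinTok R p)).prod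

variable {R : A →+ U}

theorem thinVal_nil (p : A) : thinVal R p [] = 1 := by simp [thinVal]

theorem thinVal_none (p : A) (s : List (Option A)) :
    thinVal R p (none :: s) = R p * thinVal R p s := by
  simp [thinVal, thinTok]

theorem thinVal_some (p a : A) (s : List (Option A)) :
    thinVal R p (some a :: s) = R a * thinVal R p s := by
  simp [thinVal, thinTok]

theorem thinVal_append (p : A) (s t : List (Option A)) :
    thinVal R p (s ++ t) = thinVal R p s * thinVal R p t := by
  simp [thinVal]

theorem thinVal_replicate (p : A) (j : ℕ) :
    thinVal R p (List.replicate j none) = R p ^ j := by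
  simp [thinVal, thinTok]

theorem thin_f1 (hc : ∀ x y : A, co R x y = 0) (p : A) (hp : R p * R p = 0) (z : A) :
    R p * R z * R p = 0 := by
  have h1 := hc p z
  simp only [co] at h1
  rw [hp, zero_mul, zero_add, mul_assoc (R z), hp, mul_zero, add_zero] at h1
  exact h1

theorem thin_f3 (hc : ∀ x y : A, co R x y = 0) (p : A) (hp : R p * R p = 0) (x : A) :
    R p * (R x * R x) * R p = 0 := by
  have h1 := hc x p
  have h3 := thin_f1 hc p hp x
  simp only [co] at h1
  have h4 : R p * (R x * R x * R p + R x * R p * R x + R p * R x * R x) =
      R p * (R x * R x) * R p + R p * R x * R p * R x + R p * R p * R x * R x := by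
    noncomm_ring
  rw [h1, h3, hp] at h4
  simpa using h4.symm

theorem thin_f2l (h : Std R) (hc : ∀ x y : A, co R x y = 0) (x y : A) :
    R x * R x * R y = R x * R (x * y) + R (x * (x * y)) := by
  have h1 := Q1 h x y
  have h2 := hc x y
  simp only [co] at h2
  have h3 : (y * x) * x = x * (x * y) := by rw [h.cm (y * x) x, h.cm y x]
  rw [h3] at h1
  linear_combination (norm := skip) h1 + h2
  noncomm_ring
  simp [h.two]

theorem thin_f2r (h : Std R) (hc : ∀ x y : A, co R x y = 0) (x y : A) :
    R y * (R x * R x) = R (x * y) * R x + R ((x * y) * x) := by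
  have h1 := Q1' h x y
  have h2 := hc x y
  simp only [co] at h2
  have h3 : (y * x) * x = (x * y) * x := by rw [h.cm y x]
  rw [h3] at h1
  linear_combination (norm := skip) h1 + h2
  noncomm_ring
  simp [h.two]

theorem thin_xx (h : Std R) (hc : ∀ x y : A, co R x y = 0) (p : A) (hp : R p * R p = 0)
    (K n : ℕ)
    (IH : ∀ s : List (Option A), thinNl s < n → thinNp s + 1 = K →
      R p * thinVal R p s * R p = 0)
    (x : A) (u v : List (Option A)) (h1 : thinNl u + thinNl v + 2 ≤ n)
    (h2 : thinNp u + thinNp v + 1 = K) :
    R p * (thinVal R p u * (R x * R x) * thinVal R p v) * R p = 0 := by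
  have hv : (∃ z v', v = some z :: v') ∨ ∃ t, thinVal R p v * R p = R p * t := by
    rcases v with _ | ⟨_ | z, v'⟩
    · exact Or.inr ⟨1, by rw [thinVal_nil]; simp⟩
    · exact Or.inr ⟨thinVal R p v' * R p, by rw [thinVal_none, mul_assoc]⟩
    · exact Or.inl ⟨z, v', rfl⟩
  have hu : (∃ z u', u = u' ++ [some z]) ∨ ∃ t, R p * thinVal R p u = t * R p := by
    rcases List.eq_nil_or_concat u with h0 | ⟨u', o, h0⟩
    · exact Or.inr ⟨1, by rw [h0, thinVal_nil]; simp⟩
    · rw [List.concat_eq_append] at h0
      rcases o with _ | z
      · refine Or.inr ⟨R p * thinVal R p u', ?_⟩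
        rw [h0, thinVal_append, thinVal_none, thinVal_nil]
        noncomm_ring
      · exact Or.inl ⟨z, u', h0⟩
  rcases hv with ⟨z, v', rfl⟩ | ⟨t, ht⟩
  · have e1 := IH (u ++ some x :: some (x * z) :: v') (by
      simp only [thinNl_append, thinNl] at h1 ⊢; omega) (by
      simp only [thinNp_append, thinNp] at h2 ⊢; omega)
    have e2 := IH (u ++ some (x * (x * z)) :: v') (by
      simp only [thinNl_append, thinNl] at h1 ⊢; omega) (by
      simp only [thinNp_append, thinNp] at h2 ⊢; omega)
    rw [thinVal_append, thinVal_some, thinVal_some] at e1
    rw [thinVal_append, thinVal_some] at e2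
    rw [thinVal_some]
    have e3 : R p * (thinVal R p u * (R x * R x) * (R z * thinVal R p v')) * R p =
        R p * (thinVal R p u * (R x * R x * R z) * thinVal R p v') * R p := by
      noncomm_ring
    rw [e3, thin_f2l h hc]
    have e4 : R p * (thinVal R p u * (R x * R (x * z) + R (x * (x * z))) * thinVal R p v') * R p =
        R p * (thinVal R p u * (R x * (R (x * z) * thinVal R p v'))) * R p +
          R p * (thinVal R p u * (R (x * (x * z)) * thinVal R p v')) * R p := by
      noncomm_ring
    rw [e4, e1, e2, add_zero]
  rcases hu with ⟨z, u', rfl⟩ | ⟨t', ht'⟩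
  · have e1 := IH (u' ++ some (x * z) :: some x :: v) (by
      simp only [thinNl_append, thinNl] at h1 ⊢; omega) (by
      simp only [thinNp_append, thinNp] at h2 ⊢; omega)
    have e2 := IH (u' ++ some ((x * z) * x) :: v) (by
      simp only [thinNl_append, thinNl] at h1 ⊢; omega) (by
      simp only [thinNp_append, thinNp] at h2 ⊢; omega)
    rw [thinVal_append, thinVal_some, thinVal_some] at e1
    rw [thinVal_append, thinVal_some] at e2
    rw [thinVal_append, thinVal_some, thinVal_nil]
    have e3 : R p * (thinVal R p u' * (R z * 1) * (R x * R x) * thinVal R p v) * R p =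
        R p * (thinVal R p u' * (R z * (R x * R x)) * thinVal R p v) * R p := by
      noncomm_ring
    rw [e3, thin_f2r h hc]
    have e4 : R p * (thinVal R p u' * (R (x * z) * R x + R ((x * z) * x)) * thinVal R p v) * R p =
        R p * (thinVal R p u' * (R (x * z) * (R x * thinVal R p v))) * R p +
          R p * (thinVal R p u' * (R ((x * z) * x) * thinVal R p v)) * R p := by
      noncomm_ring
    rw [e4, e1, e2, add_zero]
  · have e3 : R p * (thinVal R p u * (R x * R x) * thinVal R p v) * R p =
        (R p * thinVal R p u) * (R x * R x) * (thinVal R p v * R p) := by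
      noncomm_ring
    rw [e3, ht, ht']
    have e4 : t' * R p * (R x * R x) * (R p * t) = t' * (R p * (R x * R x) * R p) * t := by
      noncomm_ring
    rw [e4, thin_f3 hc p hp, mul_zero, zero_mul]

theorem thin_rep (h : Std R) (hc : ∀ x y : A, co R x y = 0) (p : A) (hp : R p * R p = 0)
    (K n : ℕ)
    (IH : ∀ s : List (Option A), thinNl s < n → thinNp s + 1 = K →
      R p * thinVal R p s * R p = 0)
    (x : A) (u v : List (Option A)) (j : ℕ) (h1 : thinNl u + thinNl v + 2 ≤ n)
    (h2 : thinNp u + j + thinNp v + 1 = K) :
    R p * thinVal R p (u ++ some x :: (List.replicate j none ++ some x :: v)) * R p = 0 := by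
  rw [thinVal_append, thinVal_some, thinVal_append, thinVal_some, thinVal_replicate]
  rcases j with _ | _ | j
  · have e := thin_xx h hc p hp K n IH x u v h1 (by omega)
    rw [pow_zero, one_mul]
    have e3 : R p * (thinVal R p u * (R x * (R x * thinVal R p v))) * R p =
        R p * (thinVal R p u * (R x * R x) * thinVal R p v) * R p := by noncomm_ring
    rw [e3, e]
  · have e1 := thin_xx h hc p hp K n IH x u (none :: v) (by simpa [thinNl] using h1)
      (by simp only [thinNp]; omega)
    have e2 := thin_xx h hc p hp K n IH x (u ++ [none]) v
      (by simp only [thinNl_append, thinNl]; omega)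
      (by simp only [thinNp_append, thinNp]; omega)
    rw [thinVal_none] at e1
    rw [thinVal_append, thinVal_none, thinVal_nil] at e2
    have h3 := hc x p
    simp only [co] at h3
    have e3 : R p * (thinVal R p u * (R x * (R p ^ (0 + 1) * (R x * thinVal R p v)))) * R p =
        R p * (thinVal R p u * (R x * R x * R p + R x * R p * R x + R p * R x * R x) *
          thinVal R p v) * R p
        - R p * (thinVal R p u * (R x * R x) * (R p * thinVal R p v)) * R p
        - R p * (thinVal R p u * (R p * 1) * (R x * R x) * thinVal R p v) * R p := by
      noncomm_ring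
    rw [e3, h3, e1, e2]
    simp
  · have e3 : R p ^ (j + 1 + 1) = 0 := by
      rw [pow_succ, pow_succ, mul_assoc, hp, mul_zero]
    rw [e3]
    simp

/-- short gaps -/
theorem thin_short (hc : ∀ x y : A, co R x y = 0) (p : A) (hp : R p * R p = 0) :
    ∀ (N : ℕ) (s : List (Option A)), s.length ≤ N →
      (thinNl s < 2 * (thinNp s + 1) → R p * thinVal R p s * R p = 0) ∧
      (thinNl s < 2 * thinNp s → thinVal R p s * R p = 0) := by
  intro N
  induction N with
  | zero =>
    intro s hs
    have : s = [] := List.length_eq_zero_iff.1 (by omega)
    subst this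
    refine ⟨fun _ => ?_, fun h0 => ?_⟩
    · rw [thinVal_nil, mul_one, hp]
    · simp [thinNl, thinNp] at h0
  | succ N ih =>
    intro s hs
    rcases s with _ | ⟨_ | a, s⟩
    · exact ih [] (by simp)
    · have hs' : s.length ≤ N := by simpa using hs
      refine ⟨fun _ => ?_, fun h0 => ?_⟩
      · rw [thinVal_none, ← mul_assoc, hp]
        simp
      · rw [thinVal_none]
        exact (ih s hs').1 (by simpa [thinNl, thinNp] using h0)
    · have hs' : s.length ≤ N := by simpa using hs
      refine ⟨fun h0 => ?_, fun h0 => ?_⟩
      · rcases s with _ | ⟨_ | b, s⟩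
        · rw [thinVal_some, thinVal_nil, mul_one]
          exact thin_f1 hc p hp a
        · rw [thinVal_some, thinVal_none]
          have e : R p * (R a * (R p * thinVal R p s)) * R p =
            (R p * R a * R p) * thinVal R p s * R p := by noncomm_ring
          rw [e, thin_f1 hc p hp a]
          simp
        · have hs2 : s.length ≤ N := by
            have : s.length + 1 ≤ N := by simpa using hs'
            omega
          have e0 := (ih s hs2).2 (by simp only [thinNl, thinNp] at h0; omega)
          rw [thinVal_some, thinVal_some]
          have e : R p * (R a * (R b * thinVal R p s)) * R p =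
            R p * R a * R b * (thinVal R p s * R p) := by noncomm_ring
          rw [e, e0, mul_zero]
      · have e0 := (ih s hs').2 (by simp only [thinNl, thinNp] at h0; omega)
        rw [thinVal_some, mul_assoc, e0, mul_zero]

theorem thin_tokens (p : A) : ∀ (ws : List (List A)), ws ≠ [] →
    ∃ s : List (Option A), thinNp s + 1 = ws.length ∧
      (ws.map (fun w => (w.map R).prod * R p)).prod = thinVal R p s * R p := by
  have hw : ∀ w : List A, thinNp (w.map some) = 0 ∧ thinVal R p (w.map some) = (w.map R).prod := by
    intro w
    induction w with
    | nil => simp [thinNp, thinVal_nil]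
    | cons a w ih => simp [thinNp, thinVal_some, ih.1, ih.2]
  intro ws
  induction ws with
  | nil => intro h; exact absurd rfl h
  | cons w ws ih =>
    intro _
    rcases ws with _ | ⟨w', ws⟩
    · exact ⟨w.map some, by simp [(hw w).1], by simp [(hw w).2]⟩
    · obtain ⟨s, h1, h2⟩ := ih (by simp)
      refine ⟨w.map some ++ none :: s, ?_, ?_⟩
      · rw [thinNp_append, (hw w).1]
        simp only [thinNp, List.length_cons] at h1 ⊢
        omega
      · rw [List.map_cons, List.prod_cons, h2, thinVal_append, thinVal_none, (hw w).2]
        noncomm_ring

end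

section
variable {F A U : Type*} [Field F] [NonUnitalNonAssocRing A] [Module F A]
  [IsScalarTower F A A] [SMulCommClass F A A] [Ring U] [Algebra F U] {R : A →+ U}

open Classical in
theorem thin_main {m : ℕ} (g : Fin m → A) (ctx : Ctx F R g) (hm : 2 ≤ m)
    (hc : ∀ x y : A, co R x y = 0) (p : A) (hp : R p * R p = 0) (K : ℕ) (hK : m < 2 * K) :
    ∀ (n : ℕ) (s : List (Option A)), thinNl s = n → thinNp s + 1 = K →
      R p * thinVal R p s * R p = 0 := by
  intro n
  induction n using Nat.strong_induction_on with
  | _ n ih =>
  intro s hs hK1
  have IH : ∀ s : List (Option A), thinNl s < n → thinNp s + 1 = K →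
      R p * thinVal R p s * R p = 0 := fun s h1 h2 => ih _ h1 s rfl h2
  have h : Std R := ctx.toStd
  by_cases hmn : m < n
  swap
  · exact (thin_short hc p hp s.length s le_rfl).1 (by omega)
  obtain ⟨hs1, hs2, hs3, hs4⟩ := thinFill_thinSh s
  set sh := thinSh s with hsh
  let G : List A → U := fun as =>
    if as.length = n then R p * thinVal R p (thinFill sh as) * R p else 0
  have hG1 : ∀ as, as.length = n → G as = R p * thinVal R p (thinFill sh as) * R p :=
    fun as ha => if_pos ha
  have hG0 : ∀ as, as.length ≠ n → G as = 0 := fun as ha => if_neg ha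
  have hhead : ∀ l : List A, l.length + 1 = n → ∃ a b : U, ∀ x, G (x :: l) = a * R x * b := by
    intro l hl
    obtain ⟨j, v, -, -, h3⟩ := thinFill_head sh l (by omega)
    refine ⟨R p * R p ^ j, thinVal R p v * R p, fun x => ?_⟩
    rw [hG1 _ (by simpa using hl), h3, thinVal_append, thinVal_some, thinVal_replicate]
    noncomm_ring
  have hG : Alt G := by
    refine ⟨?_, ?_, ?_⟩
    · apply perm_of_swap
      intro pfx x y sfx
      by_cases hl : pfx.length + sfx.length + 2 = n
      · obtain ⟨u, j, v, h1, h2, h3⟩ := thinFill_split sh pfx sfx (by omega)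
        have hB : ∀ x y, G (pfx ++ x :: y :: sfx) =
            (R p * thinVal R p u) * R x * R p ^ j * R y * (thinVal R p v * R p) := by
          intro x y
          rw [hG1 _ (by simp; omega), h3, thinVal_append, thinVal_some, thinVal_append,
            thinVal_some, thinVal_replicate]
          noncomm_ring
        have hB0 : ∀ x, (R p * thinVal R p u) * R x * R p ^ j * R x * (thinVal R p v * R p) = 0 := by
          intro x
          rw [← hB, hG1 _ (by simp; omega), h3]
          exact thin_rep h hc p hp K n IH x u v j (by omega) (by omega)
        rw [hB, hB]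
        have e1 := hB0 (x + y)
        have e2 := hB0 x
        have e3 := hB0 y
        rw [map_add] at e1
        have e4 : (R p * thinVal R p u) * (R x + R y) * R p ^ j * (R x + R y) *
            (thinVal R p v * R p) =
            (R p * thinVal R p u) * R x * R p ^ j * R x * (thinVal R p v * R p) +
            (R p * thinVal R p u) * R y * R p ^ j * R y * (thinVal R p v * R p) +
            ((R p * thinVal R p u) * R x * R p ^ j * R y * (thinVal R p v * R p) +
            (R p * thinVal R p u) * R y * R p ^ j * R x * (thinVal R p v * R p)) := by
          simp only [mul_add, add_mul]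
          abel
        rw [e1, e2, e3, add_zero, zero_add] at e4
        have e5 := h.uu ((R p * thinVal R p u) * R y * R p ^ j * R x * (thinVal R p v * R p))
        exact (eq_neg_of_add_eq_zero_left e4.symm).trans (eq_neg_of_add_eq_zero_left e5).symm
      · rw [hG0 _ (by simp; omega), hG0 _ (by simp; omega)]
    · intro x y l
      by_cases hl : l.length + 1 = n
      · obtain ⟨a, b, hab⟩ := hhead l hl
        rw [hab, hab, hab, map_add]
        noncomm_ring
      · rw [hG0 _ (by simpa using hl), hG0 _ (by simpa using hl), hG0 _ (by simpa using hl),
          add_zero]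
    · intro x l
      by_cases hl : l.length + 2 = n
      · obtain ⟨u, j, v, h1, h2, h3⟩ := thinFill_split sh [] l (by simp; omega)
        have h4 := h3 x x
        rw [List.nil_append] at h4
        rw [hG1 _ (by simp; omega), h4]
        exact thin_rep h hc p hp K n IH x u v j (by omega) (by omega)
      · exact hG0 _ (by simp; omega)
  have key := exch_vanish g hm h ctx.gen n hmn G hG ?_ ?_ (thinLet s) (by omega)
  · rw [hG1 _ (by omega), hs1] at key
    exact key
  · intro c x l
    by_cases hl : l.length + 1 = n
    · obtain ⟨a, b, hab⟩ := hhead l hl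
      rw [hab, hab, ctx.smul, mul_smul_comm, smul_mul_assoc]
    · rw [hG0 _ (by simpa using hl), hG0 _ (by simpa using hl), smul_zero]
  · intro x y l hl
    rw [hG1 _ (by simp; omega), hG1 _ (by simp; omega)]
    have hcf : sh.count false = l.length + 2 := by omega
    have hct : sh.count true + 1 = K := by omega
    clear_value sh
    rcases sh with _ | ⟨_ | _, sh⟩
    · simp at hcf
    · rcases sh with _ | ⟨_ | _, sh⟩
      · simp at hcf
      · -- letter, letter
        have hcf' : l.length = sh.count false := by
          simp only [List.count_cons_self] at hcf; omega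
        obtain ⟨n1, n2⟩ := thinFill_count sh l hcf'
        have hct' : sh.count true + 1 = K := by simpa using hct
        simp only [thinFill, thinVal_some]
        set v := thinFill sh l with hv
        have e1 := IH (some (x * (x * y)) :: v) (by simp only [thinNl]; omega)
          (by simp only [thinNp]; omega)
        have e2 := IH (some y :: v) (by simp only [thinNl]; omega)
          (by simp only [thinNp]; omega)
        rw [thinVal_some] at e1 e2
        have e3 := thin_f2l h hc x y
        have e4 := hc x p
        simp only [co] at e4
        have e5 : R p * (R x * (R (x * y) * thinVal R p v)) * R p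
            - R x * (R p * (R x * (R y * thinVal R p v)) * R p) =
            (R p * R x * R (x * y) + R p * R (x * (x * y)) - R p * (R x * R x * R y)) *
                (thinVal R p v * R p)
              - R p * (R (x * (x * y)) * thinVal R p v) * R p
              + (R x * R x * R p + R x * R p * R x + R p * R x * R x) * R y *
                (thinVal R p v * R p)
              - (R x * R x) * (R p * (R y * thinVal R p v) * R p)
              - 2 * (R x * R p * R x * R y * thinVal R p v * R p) := by
          noncomm_ring
        rw [e1, e2, e3, e4, h.two] at e5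
        have e6 : R p * R x * R (x * y) + R p * R (x * (x * y)) -
            R p * (R x * R (x * y) + R (x * (x * y))) = 0 := by noncomm_ring
        rw [e6] at e5
        simp only [zero_mul, mul_zero, sub_zero, add_zero] at e5
        exact sub_eq_zero.1 e5
      · -- letter, P
        simp only [thinFill, thinVal_some, thinVal_none]
        have e : ∀ t : U, R p * (R x * (R p * t)) * R p = (R p * R x * R p) * t * R p := by
          intro t; noncomm_ring
        rw [e, e, thin_f1 hc p hp x]
        simp
    · simp only [thinFill, thinVal_none]
      have e : ∀ t : U, R p * (R p * t) * R p = (R p * R p) * t * R p := by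
        intro t; noncomm_ring
      rw [e, e, hp]
      simp

theorem thin {m : ℕ} (g : Fin m → A) (ctx : Ctx F R g) (hm : 2 ≤ m)
    (hc : ∀ x y : A, co R x y = 0) (p : A) (hp : R p * R p = 0) (k : ℕ) (hk : m < 2 * k)
    (ws : List (List A)) (hws : ws.length = k) :
    R p * (ws.map (fun w => (w.map R).prod * R p)).prod = 0 := by
  obtain ⟨s, h1, h2⟩ := thin_tokens (R := R) p ws (by
    intro h0
    rw [h0] at hws
    simp at hws
    omega)
  rw [h2, ← mul_assoc]
  exact thin_main g ctx hm hc p hp k hk (thinNl s) s rfl (by rw [h1, hws])

end

end Pool.Agent.MalEngel
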