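import Pool.Agent.MalEngel.Nilp
import Pool.Agent.MalEngel.Thin

/-!
The algebra level theorem: if `c_x(Y) = 0` for all x, y then products of letters are nilpotent.
-/

namespace Pool.Agent.MalEngel

universe u

section
variable {F A : Type*} {U : Type u} [Field F] [NonUnitalNonAssocRing A] [Module F A]
  [IsScalarTower F A A] [SMulCommClass F A A] [Ring U] [Algebra F U] {R : A →+ U}

/-- With `c_x = 0`: `R x ^ 3 = 0`. -/
theorem cube_zero (h : Std R) (hc : ∀ x y : A, co R x y = 0) (x : A) : R x * R x * R x = 0 := by
  have h1 := hc x x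
  simp only [co] at h1
  linear_combination (norm := skip) h1
  noncomm_ring
  simp [h.two]

theorem hc_S (h : Std R) (hc : ∀ x y : A, co R x y = 0) (x y z : A) : So R x y z = 0 := by
  have h1 := hc (x + y) z
  have h2 := hc x z
  have h3 := hc y z
  simp only [co, So, map_add] at *
  linear_combination (norm := skip) h1 + h2 + h3
  noncomm_ring
  simp [h.two]

/-- `X X Y = X R(xy) + R(x(xy))`. -/
theorem xxy (h : Std R) (hc : ∀ x y : A, co R x y = 0) (x y : A) :
    R x * R x * R y = R x * R (x * y) + R (x * (x * y)) := by
  have h1 := hc x y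
  have h2 := Q1 h x y
  rw [h.cm (y * x) x, h.cm y x] at h2
  simp only [co] at h1
  linear_combination (norm := skip) h1 + h2
  noncomm_ring
  simp [h.two]

/-- `Y X X = R(xy) X + R(x(xy))`. -/
theorem yxx (h : Std R) (hc : ∀ x y : A, co R x y = 0) (x y : A) :
    R y * R x * R x = R (x * y) * R x + R (x * (x * y)) := by
  have h1 := hc x y
  have h2 := Q1' h x y
  rw [h.cm (y * x) x, h.cm y x] at h2
  simp only [co] at h1
  linear_combination (norm := skip) h1 + h2
  noncomm_ring
  simp [h.two]

/-- `X Y X = [X, R (x y)]`. -/
theorem xyx (h : Std R) (hc : ∀ x y : A, co R x y = 0) (x y : A) :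
    R x * R y * R x = R x * R (x * y) + R (x * y) * R x := by
  have h1 := hc x y
  have h2 := Q2 h x y
  simp only [co] at h1
  linear_combination (norm := skip) h1 + h2
  noncomm_ring
  simp [h.two]

/-- `R (x (x y))` has square zero. -/
theorem p_sq (h : Std R) (hc : ∀ x y : A, co R x y = 0) (x y : A) :
    R (x * (x * y)) * R (x * (x * y)) = 0 := by
  -- X = R x, Y = R y, r = R (x y), P = R (x (x y))
  have hX3 := cube_zero h hc x
  have hcr := hc x (x * y)
  have e1 := xxy h hc x y          -- XXY = X r + P
  have e2 := yxx h hc x y          -- YXX = r X + P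
  have e3 := xyx h hc x y          -- XYX = X r + r X
  have e4 := xxy h hc x (x * y)
  have e5 := yxx h hc x (x * y)
  have e6 := xyx h hc x (x * y)    -- X r X = X P + P X
  simp only [co] at hcr
  set X := R x
  set Y := R y
  set r := R (x * y)
  set P := R (x * (x * y))
  -- X (XYX) = (XYX) X  gives XX r = r XX
  have hsr : X * X * r = r * X * X := by
    have a1 : X * (X * Y * X) = (X * Y * X) * X := by
      have : X * X * Y * X = X * Y * X * X := by
        -- X X Y = X Y X + Y X X, so X X Y X = X Y X X + Y X X X
        have b1 := hc x y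
        simp only [co] at b1
        have b2 : (X * X * Y + X * Y * X + Y * X * X) * X = 0 := by rw [b1, zero_mul]
        have b3 : Y * X * X * X = 0 := by
          rw [mul_assoc, mul_assoc, ← mul_assoc X X X, hX3, mul_zero]
        linear_combination (norm := skip) b2 + b3
        noncomm_ring
        simp [h.two]
      linear_combination (norm := skip) this
      noncomm_ring
    rw [e3] at a1
    linear_combination (norm := skip) a1
    noncomm_ring
  have hxrx : X * r * X = 0 := by
    linear_combination (norm := skip) hcr + hsr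
    noncomm_ring
    simp [h.two]
  have hPP : P * P = X * X * r * r := by
    -- P = r X + Y X X, P = X X Y + X r
    have p1 : P = r * X + Y * X * X := by
      linear_combination (norm := skip) e2
      noncomm_ring
      simp [h.two]
    have p2 : P = X * X * Y + X * r := by
      linear_combination (norm := skip) e1
      noncomm_ring
      simp [h.two]
    have q : P * P = (r * X + Y * X * X) * (X * X * Y + X * r) := by
      rw [← p1, ← p2]
    have z1 : r * X * X * X = 0 := by
      rw [mul_assoc, mul_assoc, ← mul_assoc X X X, hX3, mul_zero]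
    have z2 : Y * X * X * X = 0 := by
      rw [mul_assoc, mul_assoc, ← mul_assoc X X X, hX3, mul_zero]
    rw [q]
    linear_combination (norm := skip) z1 * Y + z2 * X * Y + z2 * r + (-hsr) * r
    noncomm_ring
    try simp [h.two]
  have hrXr : r * X * r = r * P + P * r := by
    have e7 := xyx h hc (x * y) x
    rw [h.cm (x * y) x] at e7
    exact e7
  have hXrr : X * r * r = X * X * (r * Y + Y * r) := by
    linear_combination (norm := skip) (-hrXr) + r * e1 + e1 * r + hsr * Y
    noncomm_ring
    try simp [h.two]
  have : X * X * r * r = 0 := by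
    have : X * X * r * r = X * (X * r * r) := by noncomm_ring
    rw [this, hXrr]
    have : X * (X * X * (r * Y + Y * r)) = (X * X * X) * (r * Y + Y * r) := by noncomm_ring
    rw [this, hX3, zero_mul]
  rw [hPP, this]

/-- For `c` killed by all further products: `C w C = 0` for nonempty words `w`. -/
theorem top_gap (h : Std R) (hc : ∀ x y : A, co R x y = 0) (c : A)
    (h1 : ∀ x : A, R (c * x) = 0) (h2 : ∀ x z : A, R (x * (c * z)) = 0) :
    ∀ (n : ℕ) (w : List A), w.length = n + 1 → R c * (w.map R).prod * R c = 0 := by
  intro n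
  induction n with
  | zero =>
    intro w hw
    obtain ⟨x, rfl⟩ := List.length_eq_one_iff.mp hw
    have := xyx h hc c x
    rw [h1 x] at this
    simpa using this
  | succ n ih =>
    intro w hw
    -- decompose the list from the right
    obtain ⟨w1, y, rfl⟩ : ∃ w1 y, w = w1 ++ [y] := by
      have : w ≠ [] := by
        intro h0
        rw [h0] at hw
        simp at hw
      exact ⟨w.dropLast, w.getLast this, (List.dropLast_append_getLast this).symm⟩
    have hw1 : w1.length = n + 1 := by simpa using hw
    obtain ⟨w2, x, rfl⟩ : ∃ w2 x, w1 = w2 ++ [x] := by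
      have : w1 ≠ [] := by
        intro h0
        rw [h0] at hw1
        simp at hw1
      exact ⟨w1.dropLast, w1.getLast this, (List.dropLast_append_getLast this).symm⟩
    have hw2 : w2.length = n := by simpa using hw1
    have e := h.rep c y x
    rw [h1 x, h2 y x, h.cm y c, h1 y, h.cm (y * x) c, h1 (y * x)] at e
    have a1 := ih (w2 ++ [y]) (by simp [hw2])
    have a2 := ih (w2 ++ [y * x]) (by simp [hw2])
    simp only [List.map_append, List.map_cons, List.map_nil, List.prod_append, List.prod_cons,
      List.prod_nil, mul_one, mul_zero, add_zero] at a1 a2 e ⊢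
    set V := (w2.map R).prod
    -- goal : C * (V * X * Y) * C = 0 ; e : X * (Y * C) + Y * C * X = R(y*x) * C
    linear_combination (norm := skip) R c * V * e + a1 * R x + a2
    noncomm_ring
    try simp [h.two]

/-- The two-sided ideal generated by `R c` is nilpotent for `c` as above. -/
theorem top_nilp {m : ℕ} (g : Fin m → A) (ctx : Ctx F R g) (hc : ∀ x y : A, co R x y = 0) (c : A)
    (h1 : ∀ x : A, R (c * x) = 0) (h2 : ∀ x z : A, R (x * (c * z)) = 0) :
    ∃ n : ℕ, (tsp {R c}) ^ n = ⊥ := by
  have h := ctx.toStd
  refine nilp_tsp g ctx (R c) 2 ?_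
  intro ws hws
  obtain ⟨w1, w2, rfl⟩ := List.length_eq_two.mp hws
  have gap := top_gap h hc c h1 h2
  simp only [List.map_cons, List.map_nil, List.prod_cons, List.prod_nil, mul_one]
  by_cases e1 : w1 = []
  · by_cases e2 : w2 = []
    · subst e1 e2
      simp only [List.map_nil, List.prod_nil, one_mul]
      rw [← mul_assoc]
      exact cube_zero h hc c
    · have l2 : w2.length = (w2.length - 1) + 1 := by
        have := List.length_pos_iff.mpr e2
        omega
      have := gap _ w2 l2
      subst e1
      simp only [List.map_nil, List.prod_nil, one_mul]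
      calc R c * (R c * ((w2.map R).prod * R c)) = R c * (R c * (w2.map R).prod * R c) := by
            simp only [mul_assoc]
        _ = 0 := by rw [this, mul_zero]
  · have l1 : w1.length = (w1.length - 1) + 1 := by
      have := List.length_pos_iff.mpr e1
      omega
    have := gap _ w1 l1
    calc R c * ((w1.map R).prod * R c * ((w2.map R).prod * R c))
        = (R c * (w1.map R).prod * R c) * ((w2.map R).prod * R c) := by simp only [mul_assoc]
      _ = 0 := by rw [this, zero_mul]

/-- Products of letters modulo an ideal. -/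
theorem prod_mk (I : Ideal U) [I.IsTwoSided] (l : List A) :
    (l.map ((Ideal.Quotient.mk I).toAddMonoidHom.comp R)).prod
      = Ideal.Quotient.mk I (l.map R).prod := by
  rw [map_list_prod, List.map_map]
  rfl

theorem tsp_le_iSup (S : Set U) : tsp S ≤ ⨆ s : S, tsp {(s : U)} := by
  unfold tsp
  refine Ideal.span_le.mpr ?_
  rintro u ⟨s, hs, v, rfl⟩
  have : s * v ∈ Ideal.span {u : U | ∃ s' ∈ ({s} : Set U), ∃ v : U, u = s' * v} :=
    Ideal.subset_span ⟨s, rfl, v, rfl⟩
  exact (le_iSup (fun s : S => Ideal.span {u : U | ∃ s' ∈ ({(s : U)} : Set U), ∃ v : U, u = s' * v})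
    ⟨s, hs⟩) this

/-- Nilpotency modulo `tsp S` lifts when each element of `S` generates a nilpotent ideal. -/
theorem nil_lift {m : ℕ} (g : Fin m → A) (ctx : Ctx F R g) (S : Set U)
    (hS : ∀ s ∈ S, ∃ n : ℕ, (tsp {s}) ^ n = ⊥) (K : ℕ)
    (hK : ∀ l : List A, l.length = K →
      (l.map ((Ideal.Quotient.mk (tsp S)).toAddMonoidHom.comp R)).prod = 0) :
    ∃ K' : ℕ, ∀ l : List A, l.length = K' → (l.map R).prod = 0 := by
  obtain ⟨B, hB⟩ := fg g ctx
  refine nil_of_iSup B hB (fun s : S => tsp {(s : U)}) (fun s => hS s s.2) K ?_
  intro l hl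
  have := hK l hl
  rw [prod_mk, Ideal.Quotient.eq_zero_iff_mem] at this
  exact tsp_le_iSup S this

/-- A linear condition on `A` may be checked on monomials. -/
theorem lin_ext {m : ℕ} (g : Fin m → A) (ctx : Ctx F R g) (φ : A →+ A)
    (hφ : ∀ (c : F) (a : A), φ (c • a) = c • φ a)
    (h0 : ∀ t : Tr m, R (φ (t.ev g)) = 0) (a : A) : R (φ a) = 0 := by
  have ha : a ∈ Submodule.span F (Set.range (Tr.ev g)) := by rw [ctx.gen]; trivial
  induction ha using Submodule.span_induction with
  | mem x hx => obtain ⟨t, rfl⟩ := hx; exact h0 t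
  | zero => simp
  | add x y _ _ hx hy => rw [map_add, map_add, hx, hy, add_zero]
  | smul c x _ hx => rw [hφ, ctx.smul, hx, smul_zero]

/-- Step 6, downward induction on the degree. -/
theorem nil_deg {m : ℕ} (g : Fin m → A) (d : ℕ) : ∀ (U : Type u) [Ring U] [Algebra F U]
    (R : A →+ U), Ctx F R g → (∀ x y : A, co R x y = 0) → (∀ x y : A, R ((y * x) * x) = 0) →
    (∀ t : Tr m, d < t.deg → R (t.ev g) = 0) →
    ∃ K : ℕ, ∀ l : List A, l.length = K → (l.map R).prod = 0 := by
  induction d with
  | zero =>
    intro U _ _ R ctx hc hq ht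
    refine ⟨1, ?_⟩
    intro l hl
    obtain ⟨a, rfl⟩ := List.length_eq_one_iff.mp hl
    have := lin_ext g ctx (AddMonoidHom.id A) (fun c a => rfl) (fun t => ht t t.deg_pos) a
    simpa using this
  | succ d ih =>
    intro U _ _ R ctx hc hq ht
    have h := ctx.toStd
    let S : Set U := {u | ∃ t : Tr m, t.deg = d + 1 ∧ u = R (t.ev g)}
    have hS : ∀ s ∈ S, ∃ n : ℕ, (tsp {s}) ^ n = ⊥ := by
      rintro s ⟨t, htd, rfl⟩
      have h1 : ∀ x : A, R (t.ev g * x) = 0 := by
        intro x
        refine lin_ext g ctx (AddMonoidHom.mulLeft (t.ev g)) ?_ ?_ x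
        · intro c a
          simp [mul_smul_comm]
        · intro s
          have := ht (Tr.node t s) (by
            have := s.deg_pos
            simp only [Tr.deg]
            omega)
          simpa [Tr.ev] using this
      have h2 : ∀ x z : A, R (x * (t.ev g * z)) = 0 := by
        intro x z
        refine lin_ext g ctx (AddMonoidHom.mulRight (t.ev g * z)) ?_ ?_ x
        · intro c a
          simp [smul_mul_assoc]
        · intro s
          refine lin_ext g ctx ((AddMonoidHom.mulLeft (s.ev g)).comp (AddMonoidHom.mulLeft (t.ev g)))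
            ?_ ?_ z
          · intro c a
            simp [mul_smul_comm]
          · intro u
            have := ht (Tr.node s (Tr.node t u)) (by
              have := s.deg_pos
              simp only [Tr.deg]
              omega)
            simpa [Tr.ev] using this
      exact top_nilp g ctx hc (t.ev g) h1 h2
    -- the quotient
    have ctx' := Ctx.quot g ctx (tsp S)
    obtain ⟨K, hK⟩ := ih (U ⧸ tsp S) ((Ideal.Quotient.mk (tsp S)).toAddMonoidHom.comp R) ctx'
      (by
        intro x y
        have := congrArg (Ideal.Quotient.mk (tsp S)) (hc x y)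
        simpa [co] using this)
      (by
        intro x y
        have := congrArg (Ideal.Quotient.mk (tsp S)) (hq x y)
        simpa using this)
      (by
        intro t htd
        by_cases h1 : t.deg = d + 1
        · have : R (t.ev g) ∈ tsp S := Ideal.subset_span ⟨R (t.ev g), ⟨t, h1, rfl⟩, 1, by simp⟩
          exact Ideal.Quotient.eq_zero_iff_mem.mpr this
        · have := ht t (by omega)
          have := congrArg (Ideal.Quotient.mk (tsp S)) this
          simpa using this)
    exact nil_lift g ctx S hS K hK

/-- The algebra level theorem. -/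
theorem nil_of_co {m : ℕ} (g : Fin m → A) (hm : 2 ≤ m) (ctx : Ctx F R g)
    (hc : ∀ x y : A, co R x y = 0) :
    ∃ K : ℕ, ∀ l : List A, l.length = K → (l.map R).prod = 0 := by
  have h := ctx.toStd
  let S : Set U := {u | ∃ x y : A, u = R (x * (x * y))}
  have hS : ∀ s ∈ S, ∃ n : ℕ, (tsp {s}) ^ n = ⊥ := by
    rintro s ⟨x, y, rfl⟩
    exact nilp_tsp g ctx _ m (fun ws hws =>
      thin g ctx hm hc (x * (x * y)) (p_sq h hc x y) m (by omega) ws hws)
  have ctx' := Ctx.quot g ctx (tsp S)
  have h' := ctx'.toStd
  have hc' : ∀ x y : A, co ((Ideal.Quotient.mk (tsp S)).toAddMonoidHom.comp R) x y = 0 := by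
    intro x y
    have := congrArg (Ideal.Quotient.mk (tsp S)) (hc x y)
    simpa [co] using this
  have hq' : ∀ x y : A, ((Ideal.Quotient.mk (tsp S)).toAddMonoidHom.comp R) ((y * x) * x) = 0 := by
    intro x y
    have : R (x * (x * y)) ∈ tsp S := Ideal.subset_span ⟨R (x * (x * y)), ⟨x, y, rfl⟩, 1, by simp⟩
    rw [h.cm (y * x) x, h.cm y x]
    exact Ideal.Quotient.eq_zero_iff_mem.mpr this
  obtain ⟨K, hK⟩ := nil_deg g m (U ⧸ tsp S) ((Ideal.Quotient.mk (tsp S)).toAddMonoidHom.comp R) ctx'
    hc' hq' (by
      intro t ht
      set R' := (Ideal.Quotient.mk (tsp S)).toAddMonoidHom.comp R with hR'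
      have good : Good g R' t.deg (⊥ : AddSubgroup (U ⧸ tsp S)) := by
        constructor
        · intro s t u _
          rw [AddSubgroup.mem_bot]
          have e1 := hq' (t.ev g + u.ev g) (s.ev g)
          have e2 := hq' (t.ev g) (s.ev g)
          have e3 := hq' (u.ev g) (s.ev g)
          simp only [mul_add, add_mul, map_add] at e1
          rw [e2, e3] at e1
          simpa [add_comm] using e1
        · intro s t _
          rw [AddSubgroup.mem_bot]
          exact hq' (t.ev g) (s.ev g)
      have hnd : ¬ t.leaves.Nodup := by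
        intro hnd
        have := hnd.length_le_card
        rw [t.leaves_length, Fintype.card_fin] at this
        omega
      have := repeat_core g h' t.deg ⊥ good t rfl hnd
      simpa [AddSubgroup.mem_bot] using this)
  exact nil_lift g ctx S hS K hK

end

end Pool.Agent.MalEngel
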