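import Mathlib

/-!
Malcev algebras in characteristic two: basic definitions and operator identities.
Convention: `R : A →+ U` is a representation, `X = R x`, operators act on the LEFT of modules.
In characteristic two the axiom (B) below is invariant under reversal of products, so for the
operators of multiplication by `x` on `A` itself (`w ↦ x * w = w * x`) it is the same on both sides.
-/

namespace Pool.Agent.MalEngel

/-- The Jacobian of three elements. -/
def J {A : Type*} [NonUnitalNonAssocRing A] (x y z : A) : A :=
  (x * y) * z + (y * z) * x + (z * x) * y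

/-- The Malcev axioms. -/
structure IsMalcev (A : Type*) [NonUnitalNonAssocRing A] : Prop where
  sq : ∀ x : A, x * x = 0
  mal : ∀ x y z : A, J x y (x * z) = J x y z * x

/-- (B): `[R z, N(y,x)] = N(y z, x) + N(y, x z)` with `N(y,x) = R y R x + R (y x)`. -/
def IsRep {A U : Type*} [NonUnitalNonAssocRing A] [Ring U] (R : A →+ U) : Prop :=
  ∀ x y z : A, R z * (R y * R x + R (y * x)) + (R y * R x + R (y * x)) * R z
    = (R (y * z) * R x + R ((y * z) * x)) + (R y * R (x * z) + R (y * (x * z)))

/-- Standing assumptions on the algebra and the representation in characteristic two. -/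
structure Std {A U : Type*} [NonUnitalNonAssocRing A] [Ring U] (R : A →+ U) : Prop where
  mal : IsMalcev A
  cm : ∀ x y : A, x * y = y * x
  two : (2 : U) = 0
  two' : ∀ a : A, a + a = 0
  rep : IsRep R

section
variable {A U : Type*} [NonUnitalNonAssocRing A] [Ring U] {R : A →+ U}

/-- `J(x,y) = R (x y) + [R x, R y]`. -/
def Jo (R : A →+ U) (x y : A) : U := R (x * y) + R x * R y + R y * R x

/-- `S(x,y,z)`: the sum of the six products of `R x, R y, R z`. -/
def So (R : A →+ U) (x y z : A) : U :=
  R x * R y * R z + R x * R z * R y + R y * R x * R z + R y * R z * R x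
    + R z * R x * R y + R z * R y * R x

/-- `c_x(Y) = X X Y + X Y X + Y X X`. -/
def co (R : A →+ U) (x y : A) : U := R x * R x * R y + R x * R y * R x + R y * R x * R x

/-- The commutator (in characteristic two) `[R x, R y]`. -/
def br (R : A →+ U) (x y : A) : U := R x * R y + R y * R x

theorem Std.four (h : Std R) : (4 : U) = 0 := by
  have : (4 : U) = 2 * 2 := by norm_num
  rw [this, h.two, zero_mul]
theorem Std.six (h : Std R) : (6 : U) = 0 := by
  have : (6 : U) = 2 * 3 := by norm_num
  rw [this, h.two, zero_mul]
theorem Std.eight (h : Std R) : (8 : U) = 0 := by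
  have : (8 : U) = 2 * 4 := by norm_num
  rw [this, h.two, zero_mul]
theorem Std.ten (h : Std R) : (10 : U) = 0 := by
  have : (10 : U) = 2 * 5 := by norm_num
  rw [this, h.two, zero_mul]
theorem Std.twelve (h : Std R) : (12 : U) = 0 := by
  have : (12 : U) = 2 * 6 := by norm_num
  rw [this, h.two, zero_mul]

theorem Std.uu (h : Std R) (u : U) : u + u = 0 := by
  rw [← two_mul, h.two, zero_mul]

theorem Std.ww {W : Type*} [AddCommGroup W] [Module U W] (h : Std R) (w : W) : w + w = 0 := by
  have : (2 : U) • w = 0 := by rw [h.two, zero_smul]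
  rwa [two_smul] at this

theorem Q1 (h : Std R) (x y : A) :
    R ((y * x) * x) = R x * R y * R x + R x * R (x * y) + R y * R x * R x := by
  have h1 := h.rep x y x
  rw [h.mal.sq x, mul_zero, map_zero, mul_zero, add_zero, add_zero] at h1
  rw [h.cm x y]
  linear_combination (norm := skip) h1
  noncomm_ring
  simp [h.two]

theorem Q1' (h : Std R) (x y : A) :
    R ((y * x) * x) = R x * R x * R y + R x * R y * R x + R (x * y) * R x := by
  have h1 := h.rep y x x
  rw [h.mal.sq x, zero_mul, map_zero, zero_mul, zero_add] at h1
  rw [h.cm (y * x) x]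
  rw [h.cm x y] at h1 ⊢
  linear_combination (norm := skip) h1
  noncomm_ring
  simp [h.two]

theorem Q2 (h : Std R) (x y : A) :
    R x * R x * R y + R y * R x * R x = R x * R (x * y) + R (x * y) * R x := by
  have h1 := Q1 h x y
  have h2 := Q1' h x y
  linear_combination (norm := skip) h1 + h2
  noncomm_ring
  simp [h.two]

theorem Q2p (h : Std R) (x z y : A) :
    (R x * R z + R z * R x) * R y + R y * (R x * R z + R z * R x)
      = R x * R (z * y) + R (z * y) * R x + R z * R (x * y) + R (x * y) * R z := by
  have h1 := Q2 h (x + z) y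
  have h2 := Q2 h x y
  have h3 := Q2 h z y
  simp only [map_add, add_mul, mul_add] at h1
  linear_combination (norm := skip) h1 + h2 + h3
  noncomm_ring
  simp [h.two]

/-- (B') `J(y, x z) = Z J(x,y) + J(y,z) X + R (J x y z)` -/
theorem Bp (h : Std R) (x y z : A) :
    Jo R y (x * z) = R z * Jo R x y + Jo R y z * R x + R (J x y z) := by
  have h1 := h.rep x y z
  have h2 := Q2p h x y z
  have h3 := h.rep z y x
  simp only [Jo, J, map_add]
  rw [h.cm y x] at h1 h3
  rw [h.cm z x] at h3 ⊢
  rw [h.cm y (x*z)] at h1 h3 ⊢
  linear_combination (norm := skip) h1 + h2 + h3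
  noncomm_ring
  simp [h.two, h.four]

theorem Jo_comm (h : Std R) (x y : A) : Jo R x y = Jo R y x := by
  simp only [Jo]; rw [h.cm x y]; abel

theorem So_swap12 (x y z : A) : So R x y z = So R y x z := by
  simp only [So]; abel

theorem So_swap23 (x y z : A) : So R x y z = So R x z y := by
  simp only [So]; abel

/-- `[J(x,y), Z]` is symmetric in `x, z`. -/
theorem Ksym (h : Std R) (x y z : A) :
    Jo R x y * R z + R z * Jo R x y = Jo R z y * R x + R x * Jo R z y := by
  have h2 := Q2p h x z y
  simp only [Jo]
  rw [h.cm z y] at h2 ⊢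
  linear_combination (norm := skip) h2
  noncomm_ring
  simp [h.two, h.four]

end

end Pool.Agent.MalEngel
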