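import Pool.Agent.MalEngel.Basic

/-!
ROW MAL-OPID.  Operator identities (E-level) and the two closure formulas (R), (Rc).
-/

namespace Pool.Agent.MalEngel

section
variable {A U W : Type*} [NonUnitalNonAssocRing A] [Ring U] [AddCommGroup W] [Module U W]
  {R : A →+ U}

/-- `K(x,y,z) = [J(x,y), Z]`, `Q(x,y,z) = K(x,y,z) + R (J x y z)`; totally symmetric. -/
def Qo (R : A →+ U) (x y z : A) : U := Jo R x y * R z + R z * Jo R x y + R (J x y z)

theorem Qo_swap12 (h : Std R) (x y z : A) : Qo R x y z = Qo R y x z := by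
  have hJ : J x y z = J y x z := by
    unfold J
    rw [h.cm x y, h.cm y z, h.cm z x]
    abel
  unfold Qo
  rw [Jo_comm h x y, hJ]

/-- From `Ksym`; `J x y z` is symmetric in characteristic two. -/
theorem Qo_swap13 (h : Std R) (x y z : A) : Qo R x y z = Qo R z y x := by
  have hJ : J x y z = J z y x := by
    unfold J
    rw [h.cm x y, h.cm y z, h.cm z x]
    abel
  unfold Qo
  rw [Ksym h x y z, hJ]

/-- From `Bp`: `J(y, x z) = Z J(x,y) + X J(y,z) + Q(x,y,z)`. -/
theorem Jo_mulL (h : Std R) (x y z : A) :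
    Jo R y (x * z) = R z * Jo R x y + R x * Jo R y z + Qo R x y z := by
  have h1 := Bp h x y z
  have h2 := Ksym h x y z
  rw [Jo_comm h z y] at h2
  unfold Qo
  linear_combination (norm := skip) h1 + h2
  noncomm_ring
  simp [h.two]

/-- From `Bp`: `J(y, x z) = J(x,y) Z + J(y,z) X + Q(x,y,z)`. -/
theorem Jo_mulR (h : Std R) (x y z : A) :
    Jo R y (x * z) = Jo R x y * R z + Jo R y z * R x + Qo R x y z := by
  have h1 := Bp h x y z
  unfold Qo
  linear_combination (norm := skip) h1
  noncomm_ring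
  simp [h.two]

/-- (D) `[S(x,z,u), Y] = S(xy,z,u) + S(x,zy,u) + S(x,z,uy) + J(u,y)[X,Z] + J(x,y)[Z,U] + J(z,y)[U,X]`.
Write `S(x,z,u) = Σ_cyc [X,Z] U = Σ_cyc U [X,Z]`, use `Q2p` for `[[X,Z],Y]`. -/
theorem Dcomm (h : Std R) (x z u y : A) :
    So R x z u * R y + R y * So R x z u =
      So R (x * y) z u + So R x (z * y) u + So R x z (u * y)
        + (Jo R u y * br R x z + Jo R x y * br R z u + Jo R z y * br R u x) := by
  have h1 := Q2p h x z y
  have h2 := Q2p h z u y
  have h3 := Q2p h u x y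
  unfold So Jo br
  linear_combination (norm := skip) R u * h1 + R x * h2 + R z * h3
  noncomm_ring
  simp [h.two]

/-- (Dc) `[c_x(Y), V] = S(x, xv, y) + c_x(yv) + J(y,v) X X + J(x,v) [X,Y]`. -/
theorem Dccomm (h : Std R) (x y v : A) :
    co R x y * R v + R v * co R x y =
      So R x (x * v) y + co R x (y * v) + (Jo R y v * (R x * R x) + Jo R x v * br R x y) := by
  have h1 := Q2 h x v
  have h2 := Q2p h x y v
  unfold So Jo br co
  linear_combination (norm := skip) R y * h1 + R x * h2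
  noncomm_ring
  simp [h.two]

/-- `L(xy|zv) = J(z,v)[X,Y] + J(x,y)[Z,V]`. -/
def Lo (R : A →+ U) (x y z v : A) : U := Jo R z v * br R x y + Jo R x y * br R z v

/-
`L` is totally symmetric: `Lo x y z v = Lo x z y v`.
Expand `J(uz, vt)` in two ways with `Jo_mulL` (mirror of what is written here is also fine):
 first in the second argument, then the first:
 `J(uz,vt) = J(uz,v)T + J(uz,t)V + Q(v,uz,t)` with `J(uz,v) = J(v,u)Z + J(v,z)U + Q(u,v,z)` etc.,
 or first in the first argument.  Equating: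
 `J(u,v)[Z,T] + J(v,z)[U,T] + J(t,u)[Z,V] + J(t,z)[U,V]
    + Q(u,v,z)T + Q(u,t,z)V + Q(u,v,t)Z + Q(z,v,t)U + Q(uz,v,t) + Q(u,z,vt) = 0`.   (QQ)
 The first four terms are `L(zt|uv) + L(ut|vz)` in this notation: L(a)+L(b), where a = {uv|zt},
 b = {vz|ut}, c = {uz|vt} are the three pairings.  `s = Σ_4 Q(..).` is symmetric, and
 `Q(uz,v,t) + Q(vt,u,z) = [J(v,t),R(uz)] + [J(u,z),R(vt)] + R(j_c)`, with
 `j_c = J(uz,v,t) + J(vt,u,z)` and `[J(v,t),R(uz)] + [J(u,z),R(vt)] = L(c) + L*(c)`, where `L*` is `L` with the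
 products reversed (because `[J(v,t),[U,Z]] = [J(v,t), J(u,z) + R(uz)]`).
 So `L(a) + L(b) + L(c) = s + L*(c) + R(j_c)`, hence `L*(c) + R(j_c)` is totally symmetric, and `j_c` is
 totally symmetric by the Malcev identity (it vanishes for z = t: `J(z,v,zu) = J(z,v,u)z` and
 `J(z,u,zv) = J(z,u,v) z`; polarise).  So `L*` is symmetric; by reversing all products
 (using `Jo_mulL` instead of `Jo_mulR`) so is `L`.
 ALTERNATIVE (pure linear algebra, found by computer): for all v,x,y,z the element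
 `L(xy|zv) + L(xz|yv)` is the sum of the 20 instances of (B), where B(a,b,c) stands for
 `h.rep a b c` (lhs + rhs = 0), a prefix/suffix letter means left/right multiplication:
   B(z,x,y)V B(z,v,y)X B(y,x,z)V B(y,v,z)X B(x,v,z)Y B(x,v,y)Z B(x,zv,y) B(x,yv,z) B(zx,v,y)
   B(yx,v,z) B(v,x,z)Y B(v,x,y)Z B(v,zx,y) B(v,yx,z) B(zv,x,y) B(yv,x,z)
   X B(z,v,y) X B(y,v,z) V B(z,x,y) V B(y,x,z)
 for `L` written with the commutator on the left: `L' = [X,Y]J(z,v) + [Z,V]J(x,y)`; for `Lo` (as
 defined here) take the mirror image: B(a,b,c) becomes B(b,a,c) [(B) is self-mirror up to exchanging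
 x and y] and prefixes become suffixes.
-/
theorem Lo_sym (h : Std R) (x y z v : A) : Lo R x y z v = Lo R x z y v := by
  have e1 := congrArg (fun t => R v * t) (h.rep x z y)
  have e2 := congrArg (fun t => R x * t) (h.rep v z y)
  have e3 := congrArg (fun t => R v * t) (h.rep x y z)
  have e4 := congrArg (fun t => R x * t) (h.rep v y z)
  have e5 := congrArg (fun t => R y * t) (h.rep v x z)
  have e6 := congrArg (fun t => R z * t) (h.rep v x y)
  have e7 := h.rep (z * v) x y
  have e8 := h.rep (y * v) x z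
  have e9 := h.rep v (z * x) y
  have e10 := h.rep v (y * x) z
  have e11 := congrArg (fun t => R y * t) (h.rep x v z)
  have e12 := congrArg (fun t => R z * t) (h.rep x v y)
  have e13 := h.rep (z * x) v y
  have e14 := h.rep (y * x) v z
  have e15 := h.rep x (z * v) y
  have e16 := h.rep x (y * v) z
  have e17 := congrArg (fun t => t * R x) (h.rep v z y)
  have e18 := congrArg (fun t => t * R x) (h.rep v y z)
  have e19 := congrArg (fun t => t * R v) (h.rep x z y)
  have e20 := congrArg (fun t => t * R v) (h.rep x y z)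
  unfold Lo Jo br
  linear_combination (norm := skip) e1 + e2 + e3 + e4 + e5 + e6 + e7 + e8 + e9 + e10 + e11 + e12 +
    e13 + e14 + e15 + e16 + e17 + e18 + e19 + e20
  simp only [h.cm y x, h.cm z x, h.cm v x, h.cm z y, h.cm v y, h.cm v z,
    h.cm x (y * v), h.cm x (z * v), h.cm y (x * z), h.cm y (z * v),
    h.cm z (x * y), h.cm z (y * v), h.cm v (x * y), h.cm v (x * z),
    h.cm x (z * v * y), h.cm x (y * v * z), h.cm v (x * z * y),
    h.cm v (x * y * z), h.cm (z * v) (x * y), h.cm (y * v) (x * z)]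
  noncomm_ring
  simp [h.two, h.four]

/-- `M(x,y,z;v) = J(z,v)[X,Y] + J(x,v)[Y,Z] + J(y,v)[Z,X]`. -/
def opidM (R : A →+ U) (x y z v : A) : U :=
  Jo R z v * br R x y + Jo R x v * br R y z + Jo R y v * br R z x

/-- `N(x,y;v) = J(y,v) X X + J(x,v) [X,Y]`. -/
def opidN (R : A →+ U) (x y v : A) : U := Jo R y v * (R x * R x) + Jo R x v * br R x y

theorem opid_P1 (h : Std R) (w : W) (hw : ∀ a b c : A, So R a b c • w = 0) (x y z v : A) :
    So R x y z • R v • w = opidM R x y z v • w := by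
  have h1 := congrArg (fun t : U => t • w) (Dcomm h x y z v)
  simp only [add_smul, mul_smul, hw, smul_zero, add_zero, zero_add] at h1
  simp only [opidM, add_smul, mul_smul]
  exact h1

theorem opid_C1 (h : Std R) (x : A) (w : W) (hw : ∀ a b c : A, So R a b c • w = 0)
    (hc : ∀ y : A, co R x y • w = 0) (y v : A) :
    co R x y • R v • w = opidN R x y v • w := by
  have h1 := congrArg (fun t : U => t • w) (Dccomm h x y v)
  simp only [add_smul, mul_smul, hw, hc, smul_zero, add_zero, zero_add] at h1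
  simp only [opidN, add_smul, mul_smul]
  exact h1

theorem opid_brace (h : Std R) (z u v : A) :
    R v * Jo R z u + Jo R z v * R u + R u * Jo R z v + Jo R z (u * v) + Jo R (z * u) v
      = Jo R u v * R z := by
  have h1 := Jo_mulL h u z v
  have h2 := Jo_mulL h u v z
  have h3 : Qo R u z v = Qo R u v z := by
    rw [Qo_swap12 h u z v, Qo_swap13 h z u v, Qo_swap12 h v u z]
  have h4 := Ksym h z v u
  rw [h3] at h1
  rw [Jo_comm h v (u * z), h.cm u z, Jo_comm h v z] at h2
  rw [Jo_comm h u z] at h1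
  generalize Qo R u v z = q at h1 h2
  generalize Jo R z (u * v) = a at h1 ⊢
  generalize Jo R (z * u) v = b at h2 ⊢
  linear_combination (norm := skip) h1 + h2 + h4
  noncomm_ring
  simp [h.two, h.four]

theorem opid_br_comm (x y : A) : br R x y = br R y x := add_comm _ _

/-- one third of `opid_star` -/
theorem opid_part (h : Std R) (x y z u v : A) :
    R v * (Jo R z u * br R x y) + Jo R z v * br R x y * R u + R u * (Jo R z v * br R x y)
      + Jo R z (u * v) * br R x y + Jo R (z * u) v * br R x y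
      + (Jo R z v * br R (x * u) y + Jo R z v * br R x (y * u))
      = Jo R u v * (R z * br R x y) := by
  have h1 := congrArg (fun t : U => t * br R x y) (opid_brace h z u v)
  have h2 := congrArg (fun t : U => Jo R z v * t) (Q2p h x y u)
  simp only [br] at h1 h2 ⊢
  generalize Jo R z u = a at *
  generalize Jo R z v = b at *
  generalize Jo R z (u * v) = c at *
  generalize Jo R (z * u) v = d at *
  generalize Jo R u v = e at *
  linear_combination (norm := skip) h1 + h2
  noncomm_ring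
  simp [h.two, h.four]

theorem opid_star (h : Std R) (x y z u v : A) :
    R v * opidM R x y z u + opidM R x y z v * R u + R u * opidM R x y z v + opidM R x y z (u * v)
      + (opidM R (x * u) y z v + opidM R x (y * u) z v + opidM R x y (z * u) v)
      = Jo R u v * So R x y z := by
  have h1 := opid_part h x y z u v
  have h2 := opid_part h y z x u v
  have h3 := opid_part h z x y u v
  have hS : So R x y z = R z * br R x y + R x * br R y z + R y * br R z x := by
    simp only [So, br]; noncomm_ring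
  rw [hS]
  simp only [opidM]
  simp only [mul_add, add_mul] at *
  linear_combination (norm := skip) h1 + h2 + h3
  abel_nf

theorem opid_starc (h : Std R) (x y u v : A) :
    R v * opidN R x y u + opidN R x y v * R u + R u * opidN R x y v + opidN R x (y * u) v
      + opidN R x y (u * v) = Jo R u v * co R x y + opidM R x (x * u) y v := by
  have h1 := congrArg (fun t : U => t * (R x * R x)) (opid_brace h y u v)
  have h2 := congrArg (fun t : U => t * br R x y) (opid_brace h x u v)
  have h3 := congrArg (fun t : U => Jo R y v * t) (Q2 h x u)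
  have h4 := congrArg (fun t : U => Jo R x v * t) (Q2p h x y u)
  simp only [opidM, opidN, co, br] at *
  generalize Jo R y u = a1 at *
  generalize Jo R y v = a2 at *
  generalize Jo R y (u * v) = a3 at *
  generalize Jo R (y * u) v = a4 at *
  generalize Jo R x u = b1 at *
  generalize Jo R x v = b2 at *
  generalize Jo R x (u * v) = b3 at *
  generalize Jo R (x * u) v = b4 at *
  generalize Jo R u v = e at *
  linear_combination (norm := skip) h1 + h2 + h3 + h4
  noncomm_ring
  simp [h.two, h.four]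

/-
For `w : W` with `S(a,b,c) w = 0` for all a,b,c put `P(v;x,y,z) = S(x,y,z) V w`.
(P1) `P(v;x,y,z) = (J(z,v)[X,Y] + J(x,v)[Y,Z] + J(y,v)[Z,X]) w`   by (D).
(P2) `P(v;x,y,z) = P(x;v,y,z)` by (P1) and `Lo_sym`.
-/
theorem P2 (h : Std R) (w : W) (hw : ∀ a b c : A, So R a b c • w = 0) (v x y z : A) :
    So R x y z • R v • w = So R v y z • R x • w := by
  rw [opid_P1 h w hw, opid_P1 h w hw]
  congr 1
  have h1 := Lo_sym h x y z v
  simp only [opidM, Lo] at h1 ⊢
  rw [Jo_comm h v x, Jo_comm h y x, Jo_comm h z x, opid_br_comm v y, opid_br_comm z x]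
  linear_combination (norm := skip) h1
  noncomm_ring
  simp [h.two, h.four]

/-
(R) for `w` as above:
 `S(x,y,z) V U w = U S(x,y,z) V w + S(x,y,z) R(uv) w + (S(xu,y,z)+S(x,yu,z)+S(x,y,zu)) V w
        + (S(xv,y,z)+S(x,yv,z)+S(x,y,zv)) U w`.
Proof (operators on the left; Σ is the cyclic sum over x,y,z; m(xy|zv) := J(z,v)[X,Y] w):
 1. (D) on U w: `S(xyz)VUw + V S(xyz) U w = (S(xv,y,z)+..)Uw + Σ J(z,v)[X,Y] U w`.
 2. `[X,Y]U = U[X,Y] + [X,R(yu)] + [Y,R(xu)]` (Q2p), `J(z,v)U = U J(z,v) + K(z,v,u)`: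
    `Σ J(z,v)[X,Y]Uw = U P(v;xyz) + Σ K(z,v,u)[X,Y]w + Σ (m(x,uy|zv) + m(y,ux|zv))`.
 3. the last sum: (P1) at (v; p, uq, r): `m(p,uq|rv) + m(uq,r|pv) + m(rp|uq,v) = P(v;p,uq,r)`; so it
    equals `S(xu..)-terms V w [i.e. Σ_q P(v;..uq..)] + Σ m(xy|uz,v)`.
 4. `K(z,v,u) + J(uz,v) = U J(z,v)-type + Z J(u,v) + R(J u v z)`: precisely by `Bp`/`Jo_mulL`,
    `J(v,uz) = Z J(u,v) + U J(v,z) + Q(u,v,z)` and `K(z,v,u) = Q(u,v,z) + R(J u v z)`...
    giving `Σ (K(z,v,u)+J(uz,v))[X,Y]w = U P(v;..) + Σ Q(u,v,z)[X,Y] w` (using `Σ Z[X,Y] w = S w = 0`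
    after commuting `J(u,v)` to the left of Z), and with `J(z,uv) = V J(z,u) + U J(z,v) + Q(u,z,v)`:
    `Σ Q(u,v,z)[X,Y]w = P(uv;xyz) + V P(u;xyz) + U P(v;xyz)`.
 5. Collect: `V S(xyz) U w` cancels with `V P(u;..)`.
-/
theorem Rformula (h : Std R) (w : W) (hw : ∀ a b c : A, So R a b c • w = 0) (u v x y z : A) :
    So R x y z • R v • R u • w =
      R u • So R x y z • R v • w + So R x y z • R (u * v) • w
        + (So R (x * u) y z + So R x (y * u) z + So R x y (z * u)) • R v • w
        + (So R (x * v) y z + So R x (y * v) z + So R x y (z * v)) • R u • w := by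
  have h1 := congrArg (fun t : U => t • (R u • w)) (Dcomm h x y z v)
  have h2 := congrArg (fun t : U => t • w) (opid_star h x y z u v)
  have h3 := opid_P1 h w hw x y z u
  have e1 : (Jo R z v * br R x y + Jo R x v * br R y z + Jo R y v * br R z x)
      = opidM R x y z v := rfl
  rw [e1] at h1
  simp only [add_smul, mul_smul, hw, smul_zero, ← opid_P1 h w hw] at h1 h2 ⊢
  generalize opidM R x y z v • R u • w = m at *
  linear_combination (norm := skip) h1 + h2
  abel_nf
  have h2w : ∀ t : W, (2 : ℤ) • t = 0 := fun t => by rw [two_smul]; exact h.ww t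
  simp [h2w]

/-
`c_x(Y) V w = c_x(V) Y w` if `S w = 0`, `c_x w = 0`: by (Dc) both sides are
`(J(y,v) XX + J(x,v)[X,Y]) w` resp. with y,v exchanged, and `Lo x y x v = Lo x x y v = 0 + J(x,x)..= 0`.
-/
theorem Pc_sym (h : Std R) (x : A) (w : W) (hw : ∀ a b c : A, So R a b c • w = 0)
    (hc : ∀ y : A, co R x y • w = 0) (y v : A) :
    co R x y • R v • w = co R x v • R y • w := by
  rw [opid_C1 h x w hw hc, opid_C1 h x w hw hc]
  congr 1
  have h1 := Lo_sym h x y x v
  have hb : br R x x = 0 := h.uu _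
  have hJ : Jo R x x = 0 := by
    simp only [Jo]; rw [h.mal.sq x, map_zero, zero_add]; exact h.uu _
  simp only [opidN, Lo] at h1 ⊢
  rw [hb, hJ, mul_zero, zero_mul, add_zero] at h1
  rw [Jo_comm h v y]
  linear_combination (norm := skip) h1
  noncomm_ring
  simp [h.two, h.four]

/-
(Rc) Assume `S w = 0`, `S U w = 0` for all letters U, and `c_x(Y) w = 0`.  Then
 `c_x(Y) V U w = U c_x(Y) V w + c_x(yv) U w + c_x(yu) V w + c_x(Y) R(uv) w`.
Proof: same pattern as (R).  (Dc) on U w:
 `c_x(Y)VUw + V c_x(Y) U w = c_x(yv) U w + (J(y,v)XX + J(x,v)[X,Y]) U w`.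
 `XXU = UXX + [X,R(xu)]`, `[X,Y]U = U[X,Y] + [X,R(yu)] + [Y,R(xu)]`, `J U = U J + K`:
 `(J(y,v)XX + J(x,v)[X,Y]) U w = U c_x(Y) V w + (K(y,v,u)XX + K(x,v,u)[X,Y]) w + {...}`,
 {...} = (J(y,v)[X,R(xu)] + J(x,v)[X,R(yu)] + J(x,v)[Y,R(xu)]) w.
 (Dc) at (yu; v): `c_x(yu)Vw = (J(yu,v)XX + J(x,v)[X,R(yu)])w`; (P1) at (v; x, xu, y):
 `0 = (J(y,v)[X,R(xu)] + J(x,v)[R(xu),Y] + J(xu,v)[Y,X]) w`.
 So {...} = c_x(yu)Vw + (J(yu,v)XX + J(xu,v)[X,Y])w, and as in (R)
 `((K(y,v,u)+J(yu,v))XX + (K(x,v,u)+J(xu,v))[X,Y])w = c_x(Y)R(uv)w + V c_x(Y)U w`.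
-/
theorem Rcformula (h : Std R) (x : A) (w : W) (hw : ∀ a b c : A, So R a b c • w = 0)
    (hw1 : ∀ a b c u : A, So R a b c • R u • w = 0)
    (hc : ∀ y : A, co R x y • w = 0) (u v y : A) :
    co R x y • R v • R u • w =
      R u • co R x y • R v • w + co R x (y * v) • R u • w + co R x (y * u) • R v • w
        + co R x y • R (u * v) • w := by
  have h1 := congrArg (fun t : U => t • (R u • w)) (Dccomm h x y v)
  have h2 := congrArg (fun t : U => t • w) (opid_starc h x y u v)
  have e1 : (Jo R y v * (R x * R x) + Jo R x v * br R x y) = opidN R x y v := rfl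
  rw [e1] at h1
  have h3 : opidM R x (x * u) y v • w = 0 := by
    rw [← opid_P1 h w hw, hw1]
  simp only [add_smul, mul_smul, hw, hw1, hc, h3, smul_zero, ← opid_C1 h x w hw hc] at h1 h2 ⊢
  generalize opidN R x y v • R u • w = m at *
  linear_combination (norm := skip) h1 + h2
  abel_nf
  have h2w : ∀ t : W, (2 : ℤ) • t = 0 := fun t => by rw [two_smul]; exact h.ww t
  simp [h2w]

end

end Pool.Agent.MalEngel
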