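import Pool.Agent.MalEngel.GForm
import Pool.Agent.MalEngel.OpId

/-!
ROW MAL-CLOS.  The forms `σ_f` and `t_x`, and the closure of the relations.
Uses as black boxes the statements of `OpId.lean`, `GForm.lean`.
-/

namespace Pool.Agent.MalEngel

section
variable {F A U W : Type*} [Field F] [NonUnitalNonAssocRing A] [Module F A]
  [IsScalarTower F A A] [SMulCommClass F A A] [Ring U] [Algebra F U] [AddCommGroup W] [Module U W]
  {R : A →+ U}

/-- `σ_f(x,y,z,v,l) = S(x,y,z) V f(l)`. -/
def sig (R : A →+ U) (f : List A → W) : List A → W
  | x :: y :: z :: v :: l => So R x y z • R v • f l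
  | _ => 0

theorem sig_perm (h : Std R) (f : List A → W) {r : ℕ} (hf : AltDer F R r f)
    (hS : ∀ (a b c : A) (l : List A), So R a b c • f l = 0) :
    ∀ l l' : List A, l.Perm l' → sig R f l = sig R f l' := by
  apply perm_of_swap
  intro p x y s
  match p with
  | [] =>
    match s with
    | [] => rfl
    | [_] => rfl
    | z :: v :: l =>
      change So R x y z • R v • f l = So R y x z • R v • f l
      rw [So_swap12]
  | [a] =>
    match s with
    | [] => rfl
    | v :: l =>
      change So R a x y • R v • f l = So R a y x • R v • f l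
      rw [So_swap23]
  | [a, b] =>
    change So R a b x • R y • f s = So R a b y • R x • f s
    have h1 := P2 h (f s) (fun a b c => hS a b c s) y x a b
    rw [So_swap12 x a b, So_swap23 a x b, So_swap12 y a b, So_swap23 a y b] at h1
    exact h1
  | [a, b, c] =>
    change So R a b c • R x • f (y :: s) = So R a b c • R y • f (x :: s)
    have h1 := hS a b c ((x * y) :: s)
    rw [hf.der, smul_add] at h1
    exact (ufm_eq h h1).symm
  | a :: b :: c :: d :: p' =>
    change So R a b c • R d • f (p' ++ x :: y :: s) = So R a b c • R d • f (p' ++ y :: x :: s)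
    rw [hf.perm _ _ (List.Perm.append_left p' (List.Perm.swap y x s))]

theorem sig_len (f : List A → W) {r : ℕ} (hf : AltDer F R r f) (l : List A)
    (hl : l.length ≠ r + 4) : sig R f l = 0 := by
  match l with
  | [] => rfl
  | [_] => rfl
  | [_, _] => rfl
  | [_, _, _] => rfl
  | x :: y :: z :: v :: l =>
    change So R x y z • R v • f l = 0
    rw [hf.len l (by intro h0; apply hl; simp only [List.length_cons]; omega), smul_zero, smul_zero]

/-- (coc) -/
theorem sig_coc (h : Std R) (f : List A → W) {r : ℕ} (hr : 2 ≤ r) (hf : AltDer F R r f)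
    (hS : ∀ (a b c : A) (l : List A), So R a b c • f l = 0) (a b u : A) (t : List A) :
    sig R f ((a * u) :: b :: t) + sig R f ((a * b) :: u :: t) + sig R f ((u * b) :: a :: t) = 0 := by
  by_cases ht : t.length = r + 2
  · match t with
    | [] => exfalso; simp only [List.length_cons, List.length_nil] at ht; omega
    | [_] => exfalso; simp only [List.length_cons, List.length_nil] at ht; omega
    | [_, _] => exfalso; simp only [List.length_cons, List.length_nil] at ht; omega
    | [_, _, _] => exfalso; simp only [List.length_cons, List.length_nil] at ht; omega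
    | x :: y :: z :: v :: l =>
      have e1 : ∀ p q : A, sig R f (p :: q :: x :: y :: z :: v :: l) =
          So R x y z • R v • f (p :: q :: l) := by
        intro p q
        have hp : (p :: q :: x :: y :: z :: v :: l).Perm (x :: y :: z :: v :: p :: q :: l) := by
          have h1 : (p :: q :: ([x, y, z, v] ++ l)).Perm (p :: ([x, y, z, v] ++ q :: l)) :=
            (List.perm_middle.symm).cons p
          exact h1.trans List.perm_middle.symm
        rw [sig_perm h f hf hS _ _ hp]
        rfl
      have sw : ∀ p q : A, f (p :: q :: l) = f (q :: p :: l) :=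
        fun p q => hf.perm _ _ (List.Perm.swap _ _ _)
      rw [e1, e1, e1, hf.der, hf.der, hf.der, sw u b, sw u a, sw b a]
      simp only [smul_add]
      abel_nf
      simp only [ufm_two h, add_zero]
  · have h1 : ∀ p q : A, sig R f (p :: q :: t) = 0 := by
      intro p q
      apply sig_len f hf
      simp only [List.length_cons]
      omega
    rw [h1, h1, h1, add_zero, add_zero]

/-- `S(x,y,z) V U f = U S(x,y,z) V f` -/
theorem sig_psi (h : Std R) (f : List A → W) {r : ℕ} (hr : 2 ≤ r) (hf : AltDer F R r f)
    (hS : ∀ (a b c : A) (l : List A), So R a b c • f l = 0) (x y z v u : A) (l : List A) :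
    So R x y z • R v • R u • f l = R u • So R x y z • R v • f l := by
  rw [Rformula h (f l) (fun a b c => hS a b c l) u v x y z]
  have hperm := sig_perm h f hf hS
  have c1 := sig_coc h f hr hf hS x v u (y :: z :: l)
  have c2 := sig_coc h f hr hf hS y v u (x :: z :: l)
  have c3 := sig_coc h f hr hf hS z v u (x :: y :: l)
  have p1 : ∀ q b : A, sig R f (q :: b :: y :: z :: l) = So R q y z • R b • f l := by
    intro q b
    have hp : (q :: b :: y :: z :: l).Perm (q :: y :: z :: b :: l) :=
      ((List.perm_middle (l₁ := [y, z])).symm).cons q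
    rw [hperm _ _ hp]
    rfl
  have p2 : ∀ q b : A, sig R f (q :: b :: x :: z :: l) = So R x q z • R b • f l := by
    intro q b
    have hp : (q :: b :: x :: z :: l).Perm (x :: q :: z :: b :: l) :=
      (((List.perm_middle (l₁ := [x, z])).symm).cons q).trans (List.Perm.swap _ _ _)
    rw [hperm _ _ hp]
    rfl
  have p3 : ∀ q b : A, sig R f (q :: b :: x :: y :: l) = So R x y q • R b • f l := by
    intro q b
    have hp : (q :: b :: x :: y :: l).Perm (x :: y :: q :: b :: l) :=
      (((List.perm_middle (l₁ := [x, y])).symm).cons q).trans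
        (List.perm_middle (l₁ := [x, y])).symm
    rw [hperm _ _ hp]
    rfl
  have q1 : So R (u * v) y z • R x • f l = So R x y z • R (u * v) • f l := by
    rw [← p1, ← p1]
    exact hperm _ _ (List.Perm.swap _ _ _)
  have q2 : So R x (u * v) z • R y • f l = So R x y z • R (u * v) • f l := by
    rw [← p2, ← p2]
    exact hperm _ _ (List.Perm.swap _ _ _)
  have q3 : So R x y (u * v) • R z • f l = So R x y z • R (u * v) • f l := by
    rw [← p3, ← p3]
    exact hperm _ _ (List.Perm.swap _ _ _)
  rw [p1, p1, p1, q1] at c1
  rw [p2, p2, p2, q2] at c2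
  rw [p3, p3, p3, q3] at c3
  simp only [add_smul]
  linear_combination (norm := skip) c1 + c2 + c3
  abel_nf
  simp only [ufm_mtwo h]

/-
`σ_f` is an alternating multiderivation of arity r+4 (we assume `S(a,b,c) f = 0`, which is `Sf`).
Swaps inside x,y,z: `So_swap12/23`.  Swap z,v: `P2` with w = f l (and So_swap's).  Swap v with the head a
of l: `V f(a,l) + A f(v,l) = f(av,l)` and `S f = 0`.  Zero for x = y: `S(x,x,z) = 2(..) = 0`.
Then `perm_of_swap`.
Derivation.  Let ψ(l;u,v;x,y,z) = S(x,y,z) V U f(l).  For a,b,u and l' (length r-2, so l = a::b::l'):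
  ψ(a b l'; u,v) + ψ(u b l'; a,v) = σ(x,y,z,v, au, b, l')         [f(au,b,l') = U f(a,..)+A f(u,..)]
  ψ(u b l'; a,v) + ψ(u a l'; b,v) = σ(x,y,z,v, ab, u, l')
  ψ(a u l'; b,v) + ψ(a b l'; u,v) = σ(x,y,z,v, ub, a, l').
 Sum: (coc) σ(au,b,..) + σ(ab,u,..) + σ(ub,a,..) = 0 for any a,b,u and any remaining arguments (σ symmetric).
 `Rformula` with w = f(l): ψ(l;u,v) = U σ(x,y,z,v,l) + σ(x,y,z,uv,l) + Σ_q [σ(.. qu ..; v) + σ(.. qv ..; u)]
 and by (coc) each bracket equals σ(uv, x,y,z, l), so (1+3 = 4 even) ψ(l;u,v) = U σ(x,y,z,v,l).
 Hence with head product in the `l` part: σ(x,y,z,v, pq, l') = S V (Q f(p,l') + P f(q,l'))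
   = ψ(p l'; q, v) + ψ(q l'; p, v) = Q σ(x,y,z,v,p,l') + P σ(x,y,z,v,q,l').
-/
theorem sig_altDer (h : Std R) (hs : ∀ (c : F) (a : A), R (c • a) = c • R a) (f : List A → W)
    {r : ℕ} (hr : 2 ≤ r) (hf : AltDer F R r f) (hS : ∀ (a b c : A) (l : List A), So R a b c • f l = 0) :
    AltDer F R (r + 4) (sig R f) := by
  have hperm := sig_perm h f hf hS
  refine ⟨⟨hperm, ?_, ?_⟩, sig_len f hf, ?_, ?_⟩
  · intro x y l
    match l with
    | [] => exact (add_zero _).symm
    | [_] => exact (add_zero _).symm
    | [_, _] => exact (add_zero _).symm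
    | b :: c :: v :: l =>
      change So R (x + y) b c • R v • f l = So R x b c • R v • f l + So R y b c • R v • f l
      rw [← add_smul]
      congr 1
      simp only [So, map_add, add_mul, mul_add]
      abel
  · intro x l
    match l with
    | [] => rfl
    | [_] => rfl
    | z :: v :: l =>
      change So R x x z • R v • f l = 0
      have h0 : So R x x z = 0 := by
        simp only [So]
        abel_nf
        simp only [two_zsmul, h.uu]
      rw [h0, zero_smul]
  · intro c x l
    match l with
    | [] => exact (smul_zero _).symm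
    | [_] => exact (smul_zero _).symm
    | [_, _] => exact (smul_zero _).symm
    | b :: d :: v :: l =>
      change So R (c • x) b d • R v • f l = algebraMap F U c • So R x b d • R v • f l
      have h1 : So R (c • x) b d = algebraMap F U c * So R x b d := by
        rw [← Algebra.smul_def]
        simp only [So, hs, smul_add, smul_mul_assoc, mul_smul_comm]
      rw [h1, mul_smul]
  · intro p q l
    by_cases hl : l.length = r + 3
    · match l with
      | [] => exfalso; simp only [List.length_cons, List.length_nil] at hl; omega
      | [_] => exfalso; simp only [List.length_cons, List.length_nil] at hl; omega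
      | [_, _] => exfalso; simp only [List.length_cons, List.length_nil] at hl; omega
      | [_, _, _] => exfalso; simp only [List.length_cons, List.length_nil] at hl; omega
      | x :: y :: z :: v :: l =>
        have e1 : ∀ w : A, sig R f (w :: x :: y :: z :: v :: l) = So R x y z • R v • f (w :: l) := by
          intro w
          exact (hperm _ _ (List.perm_middle (l₁ := [x, y, z, v])).symm)
        rw [e1, e1, e1, hf.der, smul_add, smul_add, sig_psi h f hr hf hS, sig_psi h f hr hf hS]
    · have h1 : ∀ w : A, sig R f (w :: l) = 0 := by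
        intro w
        apply sig_len f hf
        simp only [List.length_cons]
        omega
      rw [h1, h1, h1, smul_zero, smul_zero, add_zero]

/-- `t_x(y,v,l) = c_x(Y) V f(l)`. -/
def tx (R : A →+ U) (x : A) (f : List A → W) : List A → W
  | y :: v :: l => co R x y • R v • f l
  | _ => 0

omit [Module F A] [IsScalarTower F A A] [SMulCommClass F A A] [Algebra F U] [Field F] in
theorem tx_cons (x : A) (f : List A → W) (y v : A) (l : List A) :
    tx R x f (y :: v :: l) = co R x y • R v • f l := rfl

omit [Module F A] [IsScalarTower F A A] [SMulCommClass F A A] [Algebra F U] [Field F] in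
theorem tx_eq_of_add (h : Std R) {a b : W} (hab : a + b = 0) : a = b := by
  have h1 := h.ww b
  have h2 : a + b = b + b := by rw [hab, h1]
  exact add_right_cancel h2

omit [IsScalarTower F A A] [SMulCommClass F A A] in
theorem tx_perm (h : Std R) (f : List A → W)
    {r : ℕ} (hf : AltDer F R r f) (x : A)
    (hS : ∀ (a b c : A) (l : List A), So R a b c • f l = 0)
    (hc : ∀ (y : A) (l : List A), co R x y • f l = 0) :
    ∀ l l' : List A, l.Perm l' → tx R x f l = tx R x f l' := by
  apply perm_of_swap
  intro p a b s
  match p with
  | [] =>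
    show co R x a • R b • f s = co R x b • R a • f s
    exact Pc_sym h x (f s) (fun a b c => hS a b c s) (fun y => hc y s) a b
  | [y] =>
    show co R x y • R a • f (b :: s) = co R x y • R b • f (a :: s)
    apply tx_eq_of_add h
    rw [← smul_add, add_comm, ← hf.der, hc]
  | y :: v :: p' =>
    show co R x y • R v • f (p' ++ a :: b :: s) = co R x y • R v • f (p' ++ b :: a :: s)
    rw [hf.perm (p' ++ a :: b :: s) (p' ++ b :: a :: s)
      (List.Perm.append_left p' (List.Perm.swap b a s))]

/-
`t_x` is an alternating multiderivation of arity r+2, assuming `S f = 0`, `S V f = 0`, `c_x f = 0`.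
Swap y,v: `Pc_sym`.  Swap v with the head a of l: `V f(a,l)+A f(v,l) = f(av,l)`, `c_x f = 0`.
Zero on equal arguments: for v = a: `A f(a,b,l') = f(a,ab,l')` (alternation; r ≥ 2) so `c_x(Y) A f(a,b,l') = 0`;
other pairs by permutation invariance (r ≥ 2).
Derivation: as for σ: with ψ(l;u,v,y) = c_x(Y) V U f(l), (coc) holds for t_x, and `Rcformula` gives
 ψ(l;u,v,y) = U t(y,v,l) + t(yv,u,l) + t(yu,v,l) + t(y,uv,l) = U t(y,v,l) by (coc).
-/
theorem tx_altDer (h : Std R) (hs : ∀ (c : F) (a : A), R (c • a) = c • R a) (f : List A → W)
    {r : ℕ} (hr : 2 ≤ r) (hf : AltDer F R r f) (x : A)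
    (hS : ∀ (a b c : A) (l : List A), So R a b c • f l = 0)
    (hS1 : ∀ (a b c u : A) (l : List A), So R a b c • R u • f l = 0)
    (hc : ∀ (y : A) (l : List A), co R x y • f l = 0) :
    AltDer F R (r + 2) (tx R x f) := by
  have hperm := tx_perm h f hf x hS hc
  -- rotation of the head
  have hrot : ∀ (P y a : A) (l : List A), tx R x f (P :: y :: a :: l) = tx R x f (y :: a :: P :: l) := by
    intro P y a l
    exact hperm _ _ ((List.Perm.swap y P _).trans ((List.Perm.swap a P _).cons y))
  have hswap : ∀ (P y : A) (l : List A), tx R x f (P :: y :: l) = tx R x f (y :: P :: l) := by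
    intro P y l
    exact hperm _ _ (List.Perm.swap y P _)
  -- a list which is not of length `r` gives zero
  have hlen0 : ∀ (y v : A) (l : List A), l.length ≠ r → tx R x f (y :: v :: l) = 0 := by
    intro y v l hl
    rw [tx_cons, hf.len l hl, smul_zero, smul_zero]
  -- shape of lists of length `r`
  have hshape : ∀ l : List A, l.length = r → ∃ (a b : A) (l' : List A), l = a :: b :: l' := by
    intro l hl
    match l with
    | [] => simp at hl; omega
    | [a] => simp at hl; omega
    | a :: b :: l' => exact ⟨a, b, l', rfl⟩
  -- the cocycle identity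
  have coc0 : ∀ (y v a b u : A) (l : List A),
      tx R x f (y :: v :: (a * u) :: b :: l) + tx R x f (y :: v :: (a * b) :: u :: l) +
        tx R x f (y :: v :: (u * b) :: a :: l) = 0 := by
    intro y v a b u l
    simp only [tx_cons, hf.der, smul_add]
    rw [hf.perm (u :: b :: l) (b :: u :: l) (List.Perm.swap b u l),
      hf.perm (a :: u :: l) (u :: a :: l) (List.Perm.swap u a l),
      hf.perm (b :: a :: l) (a :: b :: l) (List.Perm.swap a b l)]
    have e1 := h.ww (co R x y • R v • R u • f (a :: b :: l))
    have e2 := h.ww (co R x y • R v • R a • f (b :: u :: l))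
    have e3 := h.ww (co R x y • R v • R b • f (u :: a :: l))
    calc _ = (co R x y • R v • R u • f (a :: b :: l) + co R x y • R v • R u • f (a :: b :: l)) +
          (co R x y • R v • R a • f (b :: u :: l) + co R x y • R v • R a • f (b :: u :: l)) +
          (co R x y • R v • R b • f (u :: a :: l) + co R x y • R v • R b • f (u :: a :: l)) := by
            abel
      _ = 0 := by rw [e1, e2, e3]; simp
  have hmove : ∀ (P b y v : A) (l : List A),
      tx R x f (P :: b :: y :: v :: l) = tx R x f (y :: v :: P :: b :: l) := by
    intro P b y v l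
    rw [hrot P b y, hrot b y P]
    have e : tx R x f (y :: P :: b :: v :: l) = tx R x f (y :: v :: P :: b :: l) := by
      apply hperm
      refine List.Perm.cons y ?_
      exact ((List.Perm.swap v b l).cons P).trans (List.Perm.swap v P _)
    exact e
  have coc : ∀ (a b u : A) (l : List A), tx R x f ((a * u) :: b :: l) + tx R x f ((a * b) :: u :: l) +
        tx R x f ((u * b) :: a :: l) = 0 := by
    intro a b u l
    by_cases hl : l.length = r
    · obtain ⟨y, v, l', rfl⟩ := hshape l hl
      have e1 := hmove (a * u) b y v l'
      have e2 := hmove (a * b) u y v l'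
      have e3 := hmove (u * b) a y v l'
      have e4 := coc0 y v a b u l'
      rw [← e1, ← e2, ← e3] at e4
      exact e4
    · rw [hlen0 _ _ _ hl, hlen0 _ _ _ hl, hlen0 _ _ _ hl]
      simp
  have psi : ∀ (y v u : A) (l : List A),
      co R x y • R v • R u • f l = R u • tx R x f (y :: v :: l) := by
    intro y v u l
    rw [Rcformula h x (f l) (fun a b c => hS a b c l) (fun a b c u => hS1 a b c u l)
      (fun y => hc y l) u v y]
    have e := coc y v u l
    rw [hswap (u * v) y l] at e
    simp only [tx_cons] at e ⊢
    have e' : co R x (y * v) • R u • f l + co R x (y * u) • R v • f l + co R x y • R (u * v) • f l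
        = 0 := by
      rw [← e]
      abel
    calc _ = R u • co R x y • R v • f l + (co R x (y * v) • R u • f l +
          co R x (y * u) • R v • f l + co R x y • R (u * v) • f l) := by abel
      _ = _ := by rw [e', add_zero]
  refine { perm := hperm, add := ?_, alt := ?_, len := ?_, smul := ?_, der := ?_ }
  · intro y y' l
    match l with
    | [] => simp [tx]
    | v :: l' =>
      simp only [tx_cons, co, map_add, mul_add, add_mul, add_smul]
      abel
  · intro a l
    by_cases hl : l.length = r
    · obtain ⟨b, c, l', rfl⟩ := hshape l hl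
      have e1 : tx R x f (a :: a :: b :: c :: l') = tx R x f (b :: a :: a :: c :: l') := by
        rw [hrot a a b, hswap a b]
      rw [e1, tx_cons]
      have e2 : R a • f (a :: c :: l') = f ((a * c) :: a :: l') := by
        rw [hf.der, hf.alt, smul_zero, zero_add, hf.perm (a :: c :: l') (c :: a :: l')
          (List.Perm.swap c a l')]
      rw [e2, hc]
    · exact hlen0 _ _ _ hl
  · intro l hl
    match l with
    | [] => rfl
    | [a] => rfl
    | a :: b :: l' =>
      apply hlen0
      intro h'
      apply hl
      simp [h']
  · intro c y l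
    match l with
    | [] => simp [tx]
    | v :: l' =>
      simp only [tx_cons]
      have e : co R x (c • y) = algebraMap F U c * co R x y := by
        simp only [co, hs, ← Algebra.smul_def, smul_add, mul_smul_comm, smul_mul_assoc]
      rw [e, mul_smul]
  · intro p q l
    match l with
    | [] => simp [tx]
    | y :: l' =>
      by_cases hl : l'.length = r
      · obtain ⟨a, b, l'', rfl⟩ := hshape l' hl
        rw [hrot (p * q) y a, hrot p y a, hrot q y a]
        rw [tx_cons x f y a ((p * q) :: b :: l''), hf.der, smul_add, smul_add, psi, psi]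
      · rw [hlen0 _ _ _ hl, hlen0 _ _ _ hl, hlen0 _ _ _ hl]
        simp

/-- the predicate used in `closure_co` -/
private structure TxGood (R : A →+ U) (x : A) (w : W) : Prop where
  s : ∀ a b c : A, So R a b c • w = 0
  s1 : ∀ a b c u : A, So R a b c • R u • w = 0
  c : ∀ y : A, co R x y • w = 0
  c1 : ∀ y u : A, co R x y • R u • w = 0

omit [Module F A] [IsScalarTower F A A] [SMulCommClass F A A] [Algebra F U] [Field F] in
private theorem TxGood.letter (h : Std R) {x : A} {w : W} (g : TxGood R x w) (v : A) :
    TxGood R x (R v • w) := by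
  refine ⟨fun a b c => g.s1 a b c v, ?_, fun y => g.c1 y v, ?_⟩
  · intro a b c u
    rw [Rformula h w g.s v u a b c, g.s1, g.s1, smul_zero]
    simp only [add_smul, g.s1, add_zero]
  · intro y u
    rw [Rcformula h x w g.s g.s1 g.c v u y, g.c1, g.c1, g.c1, g.c1, smul_zero]
    simp

/-
Closure.  Call `w` good if `S w = 0`, `S V w = 0`, `c_x(Y) w = 0`, `c_x(Y) V w = 0` for all letters.  If `w` is
good then `V w` is good: `S U V w = 0` by `Rformula`, `c_x(Y) U V w = 0` by `Rcformula`.  Hence all
`(word) w` are good, and `U` is the span of words (`adj`).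
-/
theorem closure_co (h : Std R) (hadj : Algebra.adjoin F (Set.range R) = ⊤) (x : A) (w : W)
    (hS : ∀ a b c : A, So R a b c • w = 0)
    (hS1 : ∀ a b c u : A, So R a b c • R u • w = 0)
    (hc : ∀ y : A, co R x y • w = 0)
    (hc1 : ∀ y u : A, co R x y • R u • w = 0) (u : U) (y : A) :
    co R x y • u • w = 0 := by
  have hu : u ∈ Algebra.adjoin F (Set.range R) := by rw [hadj]; trivial
  have key : ∀ u ∈ Algebra.adjoin F (Set.range R), ∀ w : W, TxGood R x w → TxGood R x (u • w) := by
    intro u hu
    induction hu using Algebra.adjoin_induction with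
    | mem u hu =>
      obtain ⟨v, rfl⟩ := hu
      intro w g
      exact g.letter h v
    | algebraMap c =>
      intro w g
      have e : ∀ (a : U) (w : W), a • algebraMap F U c • w = algebraMap F U c • a • w := by
        intro a w
        rw [smul_smul, smul_smul, Algebra.commutes]
      refine ⟨?_, ?_, ?_, ?_⟩
      · intro a b d
        rw [e, g.s, smul_zero]
      · intro a b d v
        rw [e, e, g.s1, smul_zero]
      · intro y
        rw [e, g.c, smul_zero]
      · intro y v
        rw [e, e, g.c1, smul_zero]
    | add u u' _ _ ih ih' =>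
      intro w g
      have g1 := ih w g
      have g2 := ih' w g
      refine ⟨?_, ?_, ?_, ?_⟩
      · intro a b d
        rw [add_smul, smul_add, g1.s, g2.s, add_zero]
      · intro a b d v
        rw [add_smul, smul_add, smul_add, g1.s1, g2.s1, add_zero]
      · intro y
        rw [add_smul, smul_add, g1.c, g2.c, add_zero]
      · intro y v
        rw [add_smul, smul_add, smul_add, g1.c1, g2.c1, add_zero]
    | mul u u' _ _ ih ih' =>
      intro w g
      rw [mul_smul]
      exact ih _ (ih' w g)
  exact (key u hu w ⟨hS, hS1, hc, hc1⟩).c y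

end

end Pool.Agent.MalEngel
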