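import Pool.Agent.MalEngel.Defs

/-!
ROW MAL-CLSDL.  The class of alternating forms is stable under `δ`.
-/

namespace Pool.Agent.MalEngel

section
variable {F A U W : Type*} [Field F] [NonUnitalNonAssocRing A] [Module F A]
  [IsScalarTower F A A] [SMulCommClass F A A] [Ring U] [Algebra F U] [AddCommGroup W] [Module U W]
  {R : A →+ U}

/-- `δ f (x,y,l) = f(xy,l) + Y f(x,l) + X f(y,l)`. -/
def dl (R : A →+ U) (f : List A → W) : List A → W
  | x :: y :: l => f ((x * y) :: l) + R y • f (x :: l) + R x • f (y :: l)
  | _ => 0

/-- The class of alternating forms stable under `δ`. -/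
structure Cls (F : Type*) {A U W : Type*} [Field F] [NonUnitalNonAssocRing A] [Module F A]
    [Ring U] [Algebra F U] [AddCommGroup W] [Module U W] (R : A →+ U) (f : List A → W) : Prop
    extends Alt f where
  smul : ∀ (c : F) (x : A) (l : List A), f ((c • x) :: l) = algebraMap F U c • f (x :: l)
  M : ∀ (x z : A) (l : List A), f ((x * z) :: z :: l) = R z • f (x :: z :: l)
  L2 : ∀ (c x : A) (l : List A), f (((c * x) * x) :: l) =
    (R x * R x) • f (c :: l) + (R x * R c + R (c * x)) • f (x :: l)

omit [IsScalarTower F A A] [SMulCommClass F A A] in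
/-- the Malcev identity in characteristic two -/
theorem forms_mal (h : Std R) (c x y : A) :
    ((c * x) * x) * y = (c * x) * (x * y) + (c * (x * y)) * x + ((c * y) * x) * x := by
  have h1 := h.mal.mal x y c
  unfold J at h1
  rw [h.cm x c, h.cm y (c * x), h.cm (x * y) (c * x), h.cm (x * y) c, h.cm y c, add_mul,
    add_mul] at h1
  have hneg : ∀ a : A, -a = a := fun a => neg_eq_of_add_eq_zero_left (h.two' a)
  have h2 : ((c * x) * x) * y = ((c * x) * (x * y) + ((c * x) * y) * x + ((c * x) * x) * y) -
      (c * x) * (x * y) - ((c * x) * y) * x := by abel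
  rw [h1] at h2
  rw [h2]
  have h3 : c * (x * y) * x + c * y * x * x + c * x * y * x - c * x * (x * y) - c * x * y * x =
      -(c * x * (x * y)) + c * (x * y) * x + c * y * x * x := by abel
  rw [h3, hneg]

omit [IsScalarTower F A A] [SMulCommClass F A A] in
theorem forms_zero {f : List A → W} (hf : Cls F R f) (l : List A) : f (0 :: l) = 0 := by
  have h1 := hf.add 0 0 l
  rw [add_zero] at h1
  exact left_eq_add.1 h1

omit [IsScalarTower F A A] [SMulCommClass F A A] in
/-- additivity in the second argument -/
theorem forms_add2 {f : List A → W} (hf : Cls F R f) (a x y : A) (l : List A) :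
    f (a :: (x + y) :: l) = f (a :: x :: l) + f (a :: y :: l) := by
  rw [hf.perm _ _ (List.Perm.swap (x + y) a l), hf.add, hf.perm _ _ (List.Perm.swap a x l),
    hf.perm _ _ (List.Perm.swap a y l)]

omit [IsScalarTower F A A] [SMulCommClass F A A] in
theorem forms_swap12 (h : Std R) (f : List A → W) (x y : A) (l : List A) :
    dl R f (x :: y :: l) = dl R f (y :: x :: l) := by
  simp only [dl]
  rw [h.cm x y]
  abel

omit [IsScalarTower F A A] [SMulCommClass F A A] in
theorem forms_xyx (h : Std R) {f : List A → W} (hf : Cls F R f) (x y : A) (l : List A) :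
    dl R f (x :: y :: x :: l) = 0 := by
  simp only [dl]
  rw [h.cm x y, hf.M y x l, hf.alt x l, smul_zero, add_zero, h.ww]

omit [IsScalarTower F A A] [SMulCommClass F A A] in
theorem forms_add1 {f : List A → W} (hf : Cls F R f) (x y z : A) (l : List A) :
    dl R f ((x + y) :: z :: l) = dl R f (x :: z :: l) + dl R f (y :: z :: l) := by
  simp only [dl]
  rw [add_mul, hf.add, hf.add, map_add, smul_add, add_smul]
  abel

omit [IsScalarTower F A A] [SMulCommClass F A A] in
theorem forms_add3 {f : List A → W} (hf : Cls F R f) (a b x y : A) (l : List A) :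
    dl R f (a :: b :: (x + y) :: l) = dl R f (a :: b :: x :: l) + dl R f (a :: b :: y :: l) := by
  simp only [dl]
  rw [forms_add2 hf, forms_add2 hf, forms_add2 hf, smul_add, smul_add]
  abel

omit [IsScalarTower F A A] [SMulCommClass F A A] in
theorem forms_swap13 (h : Std R) {f : List A → W} (hf : Cls F R f) (x y z : A) (l : List A) :
    dl R f (x :: y :: z :: l) = dl R f (z :: y :: x :: l) := by
  have h1 := forms_xyx h hf (x + z) y l
  rw [forms_add1 hf, forms_add3 hf, forms_add3 hf, forms_xyx h hf, forms_xyx h hf, zero_add,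
    add_zero] at h1
  have h2 := h.ww (dl R f (z :: y :: x :: l))
  have h3 : dl R f (x :: y :: z :: l) + dl R f (z :: y :: x :: l) =
      dl R f (z :: y :: x :: l) + dl R f (z :: y :: x :: l) := by rw [h1, h2]
  exact add_right_cancel h3

omit [IsScalarTower F A A] [SMulCommClass F A A] in
theorem forms_swap23 (h : Std R) {f : List A → W} (hf : Cls F R f) (x y z : A) (l : List A) :
    dl R f (x :: y :: z :: l) = dl R f (x :: z :: y :: l) := by
  rw [forms_swap13 h hf x y z, forms_swap12 h f z y, forms_swap13 h hf y z x]

omit [IsScalarTower F A A] [SMulCommClass F A A] in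
theorem forms_perm (h : Std R) {f : List A → W} (hf : Cls F R f) (l l' : List A)
    (hl : l.Perm l') : dl R f l = dl R f l' := by
  apply perm_of_swap _ _ l l' hl
  intro p x y s
  rcases p with _ | ⟨a, p⟩
  · exact forms_swap12 h f x y s
  · rcases p with _ | ⟨b, p⟩
    · exact forms_swap23 h hf a x y s
    · have hp : (p ++ x :: y :: s).Perm (p ++ y :: x :: s) :=
        List.Perm.append_left p (List.Perm.swap y x s)
      simp only [List.cons_append, dl]
      rw [hf.perm _ _ (hp.cons (a * b)), hf.perm _ _ (hp.cons a), hf.perm _ _ (hp.cons b)]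

omit [IsScalarTower F A A] [SMulCommClass F A A] in
/-- polarised (L2) -/
theorem forms_L2p {f : List A → W} (hf : Cls F R f) (c x z : A) (l : List A) :
    f (((c * x) * z) :: l) + f (((c * z) * x) :: l) =
      (R x * R z + R z * R x) • f (c :: l) + (R x * R c + R (c * x)) • f (z :: l) +
        (R z * R c + R (c * z)) • f (x :: l) := by
  have h1 := hf.L2 c (x + z) l
  have h2 := hf.L2 c x l
  have h3 := hf.L2 c z l
  have e1 : c * (x + z) * (x + z) = (c * x) * x + (c * x) * z + ((c * z) * x + (c * z) * z) := by
    simp only [mul_add, add_mul]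
    abel
  have e2 : R (c * (x + z)) = R (c * x) + R (c * z) := by rw [mul_add, map_add]
  rw [e1, hf.add, hf.add, hf.add, h2, h3, hf.add, e2, map_add] at h1
  simp only [add_mul, mul_add, add_smul, smul_add] at h1 ⊢
  have h4 : f (c * x * z :: l) + f (c * z * x :: l) =
      ((R x * R x) • f (c :: l) + ((R x * R c) • f (x :: l) + R (c * x) • f (x :: l)) +
        f (c * x * z :: l) + (f (c * z * x :: l) +
        ((R z * R z) • f (c :: l) + ((R z * R c) • f (z :: l) + R (c * z) • f (z :: l))))) -
      ((R x * R x) • f (c :: l) + ((R x * R c) • f (x :: l) + R (c * x) • f (x :: l))) -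
      ((R z * R z) • f (c :: l) + ((R z * R c) • f (z :: l) + R (c * z) • f (z :: l))) := by abel
  rw [h4, h1]
  abel

omit [IsScalarTower F A A] [SMulCommClass F A A] in
theorem forms_key (h : Std R) {f : List A → W} (hf : Cls F R f) (c x y : A) (l : List A) :
    f ((((c * x) * x) * y) :: l) =
      (R x * R x) • f ((c * y) :: l) + (R x * R c + R (c * x)) • f ((x * y) :: l) +
      (R x * R x * R y + R y * R x * R x) • f (c :: l) +
      (R y * (R x * R c + R (c * x)) + (R x * R c + R (c * x)) * R y) • f (x :: l) := by
  have hB : R y * (R x * R c + R (c * x)) + (R x * R c + R (c * x)) * R y =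
      (R (x * y) * R c + R (c * (x * y))) + (R x * R (c * y) + R ((c * y) * x)) := by
    have h1 := h.rep c x y
    rw [h.cm x c, h.cm (x * y) c, h.cm x (c * y)] at h1
    exact h1
  rw [forms_mal h, hf.add, hf.add, forms_L2p hf c x (x * y) l, hf.L2 (c * y) x l, Q2 h x y, hB]
  simp only [add_smul]
  abel

theorem Cls.dl (h : Std R) (f : List A → W) (hf : Cls F R f)
    (hs : ∀ (c : F) (a : A), R (c • a) = c • R a) : Cls F R (dl R f) where
  perm := forms_perm h hf
  add := by
    intro x y l
    rcases l with _ | ⟨z, l⟩
    · simp only [Pool.Agent.MalEngel.dl, add_zero]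
    · exact forms_add1 hf x y z l
  alt := by
    intro x l
    simp only [Pool.Agent.MalEngel.dl]
    rw [h.mal.sq x, forms_zero hf, zero_add, h.ww]
  smul := by
    intro c x l
    rcases l with _ | ⟨y, l⟩
    · simp only [Pool.Agent.MalEngel.dl, smul_zero]
    · simp only [Pool.Agent.MalEngel.dl]
      rw [smul_mul_assoc, hf.smul, hf.smul, hs, Algebra.smul_def, smul_add, smul_add, smul_smul,
        smul_smul, smul_smul, Algebra.commutes c (R y)]
  M := by
    intro x z l
    simp only [Pool.Agent.MalEngel.dl]
    rw [hf.L2 x z l]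
    simp only [smul_add, add_smul, smul_smul]
    have h1 := h.ww (R (x * z) • f (z :: l))
    calc (R z * R z) • f (x :: l) + ((R z * R x) • f (z :: l) + R (x * z) • f (z :: l)) +
          R z • f (x * z :: l) + R (x * z) • f (z :: l)
        = R z • f (x * z :: l) + (R z * R z) • f (x :: l) + (R z * R x) • f (z :: l) +
          (R (x * z) • f (z :: l) + R (x * z) • f (z :: l)) := by abel
      _ = _ := by rw [h1, add_zero]
  L2 := by
    intro c x l
    rcases l with _ | ⟨y, l⟩
    · simp only [Pool.Agent.MalEngel.dl, smul_zero, add_zero]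
    · simp only [Pool.Agent.MalEngel.dl]
      rw [forms_key h hf c x y l, hf.L2 c x l]
      have hQ : R ((c * x) * x) = R x * R x * R c + R x * R c * R x + R (c * x) * R x := by
        rw [Q1' h x c, h.cm x c]
      rw [hQ]
      simp only [smul_add, add_smul, smul_smul, mul_add, add_mul, ← mul_assoc]
      have k1 := h.ww ((R y * R x * R x) • f (c :: l))
      have k2 := h.ww ((R y * R x * R c) • f (x :: l))
      have k3 := h.ww ((R y * R (c * x)) • f (x :: l))
      generalize (R y * R x * R x) • f (c :: l) = a1 at *
      generalize (R y * R x * R c) • f (x :: l) = a2 at *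
      generalize (R y * R (c * x)) • f (x :: l) = a3 at *
      generalize (R x * R x) • f (c * y :: l) = a4 at *
      generalize (R x * R c) • f (x * y :: l) = a5 at *
      generalize R (c * x) • f (x * y :: l) = a6 at *
      generalize (R x * R x * R y) • f (c :: l) = a7 at *
      generalize (R x * R c * R y) • f (x :: l) = a8 at *
      generalize (R (c * x) * R y) • f (x :: l) = a9 at *
      generalize (R x * R x * R c) • f (y :: l) = a10 at *
      generalize (R x * R c * R x) • f (y :: l) = a11 at *
      generalize (R (c * x) * R x) • f (y :: l) = a12 at *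
      have key : ∀ u v w t : W, u + u = 0 → v + v = 0 → w + w = 0 → t + (u + u) + (v + v) + (w + w) = t := by
        intro u v w t hu hv hw
        rw [hu, hv, hw]
        simp
      calc _ = a4 + a7 + a10 + (a5 + a6 + (a8 + a9) + (a11 + a12)) + (a1 + a1) + (a2 + a2) +
            (a3 + a3) := by abel
        _ = _ := key a1 a2 a3 _ k1 k2 k3

end

end Pool.Agent.MalEngel
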