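import Pool.Agent.MalEngel.Basic

/-!
Trees (nonassociative monomials), alternating forms on lists, and the standing context.
-/

namespace Pool.Agent.MalEngel

/-- Nonassociative monomials in `m` generators. -/
inductive Tr (m : ℕ) : Type
  | leaf : Fin m → Tr m
  | node : Tr m → Tr m → Tr m

namespace Tr
variable {m : ℕ}

/-- Evaluation of a monomial at the generators `g`. -/
def ev {A : Type*} [Mul A] (g : Fin m → A) : Tr m → A
  | leaf i => g i
  | node s t => ev g s * ev g t

/-- The degree (number of leaves). -/
def deg : Tr m → ℕ
  | leaf _ => 1
  | node s t => deg s + deg t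

/-- The list of leaves. -/
def leaves : Tr m → List (Fin m)
  | leaf i => [i]
  | node s t => leaves s ++ leaves t

theorem deg_pos : ∀ t : Tr m, 0 < t.deg
  | leaf _ => Nat.one_pos
  | node s t => Nat.add_pos_left (deg_pos s) _

theorem leaves_length : ∀ t : Tr m, t.leaves.length = t.deg
  | leaf _ => rfl
  | node s t => by simp [leaves, deg, leaves_length s, leaves_length t]

end Tr

/-- Alternating forms with arguments given as a list: invariant under permutations, additive in
the head, zero when the first two arguments agree. -/
structure Alt {A W : Type*} [NonUnitalNonAssocRing A] [AddCommGroup W] (f : List A → W) : Prop where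
  perm : ∀ l l' : List A, l.Perm l' → f l = f l'
  add : ∀ (x y : A) (l : List A), f ((x + y) :: l) = f (x :: l) + f (y :: l)
  alt : ∀ (x : A) (l : List A), f (x :: x :: l) = 0

/-- Alternating multiderivations of arity `r` with values in a left `U`-module. -/
structure AltDer (F : Type*) {A U W : Type*} [Field F] [NonUnitalNonAssocRing A] [Module F A]
    [Ring U] [Algebra F U] [AddCommGroup W] [Module U W] (R : A →+ U) (r : ℕ) (f : List A → W) : Prop
    extends Alt f where
  len : ∀ l : List A, l.length ≠ r → f l = 0
  smul : ∀ (c : F) (x : A) (l : List A), f ((c • x) :: l) = algebraMap F U c • f (x :: l)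
  der : ∀ (x y : A) (l : List A), f ((x * y) :: l) = R y • f (x :: l) + R x • f (y :: l)

/-- The standing context: `A` is a Malcev algebra over a field of characteristic two, generated
(as an algebra) by `g 0, ..., g (m-1)`; `R : A → U` is an `F`-linear representation whose image
generates `U`. -/
structure Ctx (F : Type*) {A U : Type*} [Field F] [NonUnitalNonAssocRing A] [Module F A]
    [Ring U] [Algebra F U] (R : A →+ U) {m : ℕ} (g : Fin m → A) : Prop extends Std R where
  smul : ∀ (c : F) (a : A), R (c • a) = c • R a
  gen : Submodule.span F (Set.range (Tr.ev g)) = ⊤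
  adj : Algebra.adjoin F (Set.range R) = ⊤

/-- A function on lists invariant under all adjacent transpositions is permutation invariant. -/
theorem perm_of_swap {α β : Type*} (g : List α → β)
    (h : ∀ (p : List α) (x y : α) (s : List α), g (p ++ x :: y :: s) = g (p ++ y :: x :: s)) :
    ∀ l l' : List α, l.Perm l' → g l = g l' := by
  have key : ∀ l l' : List α, l.Perm l' → ∀ p : List α, g (p ++ l) = g (p ++ l') := by
    intro l l' hl
    induction hl with
    | nil => intro p; rfl
    | cons x _ ih =>
      intro p
      have := ih (p ++ [x])
      simpa using this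
    | swap x y l => intro p; exact h p y x l
    | trans _ _ ih1 ih2 => intro p; rw [ih1 p, ih2 p]
  intro l l' hl
  simpa using key l l' hl []

end Pool.Agent.MalEngel
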