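import Pool.Agent.MalEngel.Defs

/-!
ROW MAL-EXCH.  Alternating functions with the exchange property vanish in large arity.
-/

namespace Pool.Agent.MalEngel

section
variable {F A U : Type*} [Field F] [NonUnitalNonAssocRing A] [Module F A]
  [IsScalarTower F A A] [SMulCommClass F A A] [Ring U] [Algebra F U] {R : A →+ U}

omit [Field F] [Module F A] [IsScalarTower F A A] [SMulCommClass F A A] [Algebra F U] in
theorem exch_swap {G : List A → U} (hG : Alt G) (a x : A) (l : List A) :
    G (a :: x :: l) = G (x :: a :: l) := hG.perm _ _ (List.Perm.swap x a l)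

omit [Field F] [Module F A] [IsScalarTower F A A] [SMulCommClass F A A] [Algebra F U] in
theorem exch_add2 {G : List A → U} (hG : Alt G) (a x y : A) (l : List A) :
    G (a :: (x + y) :: l) = G (a :: x :: l) + G (a :: y :: l) := by
  rw [exch_swap hG a (x + y), hG.add, exch_swap hG x a, exch_swap hG y a]

omit [Field F] [Module F A] [IsScalarTower F A A] [SMulCommClass F A A] [Algebra F U] in
theorem exch_zero {G : List A → U} (hG : Alt G) (l : List A) : G (0 :: l) = 0 := by
  have h := hG.add 0 0 l
  rw [add_zero] at h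
  exact left_eq_add.1 h

omit [Field F] [Module F A] [IsScalarTower F A A] [SMulCommClass F A A] [Algebra F U] in
/-- the exchange identity -/
theorem exch_ex (h : Std R) {n : ℕ} {G : List A → U} (hG : Alt G)
    (hex : ∀ (x y : A) (l : List A), l.length + 2 = n →
      G (x :: (x * y) :: l) = R x * G (x :: y :: l))
    (x w y : A) (l : List A) (hl : l.length + 2 = n)
    (h1 : G (w :: y :: l) = 0) (h2 : G (x :: y :: l) = 0) :
    G (x :: (w * y) :: l) = G (w :: (x * y) :: l) := by
  have h3 := hex (x + w) y l hl
  have h4 := hex x y l hl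
  have h5 := hex w y l hl
  rw [add_mul, hG.add, hG.add, exch_add2 hG, exch_add2 hG, map_add, h1, h2, add_zero, mul_zero,
    h4, h5, h1, h2, mul_zero, mul_zero, zero_add, add_zero] at h3
  have h6 := h.uu (G (w :: (x * y) :: l))
  rw [← h6] at h3
  exact add_right_cancel h3

/-- the total degree -/
def exchDeg {m : ℕ} (ts : List (Tr m)) : ℕ := (ts.map Tr.deg).sum

theorem exchDeg_cons {m : ℕ} (t : Tr m) (ts : List (Tr m)) :
    exchDeg (t :: ts) = t.deg + exchDeg ts := by
  simp [exchDeg]

theorem exchDeg_perm {m : ℕ} {ts ts' : List (Tr m)} (h : ts.Perm ts') :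
    exchDeg ts = exchDeg ts' := (h.map Tr.deg).sum_eq

/-- the step -/
structure ExchCtx {m : ℕ} (g : Fin m → A) (n D : ℕ) (G : List A → U) : Prop where
  alt : Alt G
  ih : ∀ ts : List (Tr m), ts.length = n → exchDeg ts < D → G (ts.map (Tr.ev g)) = 0
  cm : ∀ x y : A, x * y = y * x
  ex : ∀ (x w y : A) (l : List A), l.length + 2 = n → G (w :: y :: l) = 0 → G (x :: y :: l) = 0 →
    G (x :: (w * y) :: l) = G (w :: (x * y) :: l)

omit [Field F] [Module F A] [IsScalarTower F A A] [SMulCommClass F A A] [Algebra F U] in
theorem ExchCtx.step {m : ℕ} {g : Fin m → A} {n D : ℕ} {G : List A → U} (C : ExchCtx g n D G)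
    (s u v : Tr m) (l : List (Tr m)) (hl : l.length + 2 = n)
    (hD : exchDeg (s :: Tr.node u v :: l) = D) :
    G ((s :: Tr.node u v :: l).map (Tr.ev g)) = G ((Tr.node s v :: u :: l).map (Tr.ev g)) := by
  have hs := s.deg_pos
  have hu := u.deg_pos
  have hv := v.deg_pos
  simp only [exchDeg_cons, Tr.deg] at hD
  have h1 := C.ih (u :: v :: l) (by simp; omega) (by simp only [exchDeg_cons]; omega)
  have h2 := C.ih (s :: v :: l) (by simp; omega) (by simp only [exchDeg_cons]; omega)
  simp only [List.map_cons, Tr.ev] at h1 h2 ⊢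
  rw [C.ex _ _ _ _ (by simpa using hl) h1 h2]
  exact exch_swap C.alt _ _ _

omit [Field F] [Module F A] [IsScalarTower F A A] [SMulCommClass F A A] [Algebra F U] in
theorem ExchCtx.extract {m : ℕ} {g : Fin m → A} {n D : ℕ} {G : List A → U} (C : ExchCtx g n D G)
    (i : Fin m) (l : List (Tr m)) (hl : l.length + 2 = n) : ∀ t s : Tr m, i ∈ t.leaves →
    exchDeg (s :: t :: l) = D → ∃ t' : Tr m, t'.deg + 1 = s.deg + t.deg ∧
      G ((s :: t :: l).map (Tr.ev g)) = G ((Tr.leaf i :: t' :: l).map (Tr.ev g)) := by
  intro t
  induction t with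
  | leaf j =>
    intro s hi hD
    simp only [Tr.leaves, List.mem_singleton] at hi
    subst hi
    refine ⟨s, rfl, ?_⟩
    simp only [List.map_cons]
    exact exch_swap C.alt _ _ _
  | node u v ihu ihv =>
    intro s hi hD
    simp only [Tr.leaves, List.mem_append] at hi
    rcases hi with hi | hi
    · obtain ⟨t', h1, h2⟩ := ihu (Tr.node s v) hi (by
        simp only [exchDeg_cons, Tr.deg] at hD ⊢
        omega)
      refine ⟨t', ?_, ?_⟩
      · simp only [Tr.deg] at h1 ⊢
        omega
      · rw [← h2]
        exact C.step s u v l hl hD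
    · obtain ⟨t', h1, h2⟩ := ihv (Tr.node s u) hi (by
        simp only [exchDeg_cons, Tr.deg] at hD ⊢
        omega)
      refine ⟨t', ?_, ?_⟩
      · simp only [Tr.deg] at h1 ⊢
        omega
      · rw [← h2, ← C.step s v u l hl (by
          simp only [exchDeg_cons, Tr.deg] at hD ⊢
          omega)]
        simp only [List.map_cons, Tr.ev]
        rw [C.cm]

theorem exch_leaf {m : ℕ} (t : Tr m) : ∃ i, i ∈ t.leaves := by
  have h := t.leaves_length
  have h1 := t.deg_pos
  exact List.exists_mem_of_length_pos (by omega)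

omit [Field F] [Module F A] [IsScalarTower F A A] [SMulCommClass F A A] [Algebra F U] in
/-- all arguments but one can be made leaves -/
theorem ExchCtx.toLeaves {m : ℕ} {g : Fin m → A} {n D : ℕ} {G : List A → U} (C : ExchCtx g n D G) :
    ∀ (r : List (Tr m)) (t : Tr m) (gs : List (Fin m)), r.length + gs.length + 1 = n →
      exchDeg (t :: (r ++ gs.map Tr.leaf)) = D → ∃ (t' : Tr m) (gs' : List (Fin m)),
        gs'.length + 1 = n ∧ exchDeg (t' :: gs'.map Tr.leaf) = D ∧
        G ((t :: (r ++ gs.map Tr.leaf)).map (Tr.ev g)) =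
          G ((t' :: gs'.map Tr.leaf).map (Tr.ev g)) := by
  intro r
  induction r with
  | nil =>
    intro t gs h1 h2
    exact ⟨t, gs, by simpa using h1, by simpa using h2, rfl⟩
  | cons s r ih =>
    intro t gs h1 h2
    obtain ⟨i, hi⟩ := exch_leaf s
    obtain ⟨t₁, h3, h4⟩ := C.extract i (r ++ gs.map Tr.leaf) (by simp at h1 ⊢; omega) s t hi
      (by simpa using h2)
    have hp : (Tr.leaf i :: t₁ :: (r ++ gs.map Tr.leaf)).Perm
        (t₁ :: (r ++ (i :: gs).map Tr.leaf)) := by
      refine (List.Perm.swap t₁ (Tr.leaf i) _).trans ?_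
      refine List.Perm.cons _ ?_
      rw [List.map_cons]
      exact List.perm_middle.symm
    have hd : exchDeg (t₁ :: (r ++ (i :: gs).map Tr.leaf)) = D := by
      rw [← exchDeg_perm hp, ← h2]
      simp only [exchDeg_cons, Tr.deg, List.cons_append]
      omega
    obtain ⟨t', gs', h5, h6, h7⟩ := ih t₁ (i :: gs) (by simp at h1 ⊢; omega) hd
    refine ⟨t', gs', h5, h6, ?_⟩
    rw [← h7, ← C.alt.perm _ _ (hp.map (Tr.ev g)), ← h4]
    rfl

omit [Field F] [Module F A] [IsScalarTower F A A] [SMulCommClass F A A] [Algebra F U] in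
theorem ExchCtx.leaf_zero {m : ℕ} {g : Fin m → A} {n D : ℕ} {G : List A → U} (C : ExchCtx g n D G)
    (hm : 2 ≤ m) (hn : m < n) (t : Tr m) (gs : List (Fin m)) (h1 : gs.length + 1 = n)
    (h2 : exchDeg (t :: gs.map Tr.leaf) = D) :
    G ((t :: gs.map Tr.leaf).map (Tr.ev g)) = 0 := by
  by_cases hnd : gs.Nodup
  · have hall : ∀ i : Fin m, i ∈ gs := by
      have hc := List.toFinset_card_of_nodup hnd
      have hle := Finset.card_le_univ gs.toFinset
      rw [Fintype.card_fin] at hle
      have huniv : gs.toFinset = Finset.univ := by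
        apply Finset.eq_univ_of_card
        rw [Fintype.card_fin]
        omega
      intro i
      have := Finset.mem_univ i
      rw [← huniv, List.mem_toFinset] at this
      exact this
    obtain ⟨i, hi⟩ := exch_leaf t
    have hj : ∃ j : Fin m, j ≠ i := by
      have : Nontrivial (Fin m) := Fin.nontrivial_iff_two_le.2 hm
      exact exists_ne i
    obtain ⟨j, hj⟩ := hj
    have hp1 := List.perm_cons_erase (hall j)
    have hi' : i ∈ gs.erase j := (List.mem_erase_of_ne hj.symm).2 (hall i)
    have hp2 := List.perm_cons_erase hi'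
    have hp3 : gs.Perm (j :: i :: (gs.erase j).erase i) := hp1.trans (hp2.cons j)
    have hlen := hp3.length_eq
    set q := (gs.erase j).erase i with hq
    have hp4 : (t :: gs.map Tr.leaf).Perm
        (Tr.leaf j :: t :: (Tr.leaf i :: q.map Tr.leaf)) := by
      refine ((hp3.map Tr.leaf).cons t).trans ?_
      exact List.Perm.swap _ _ _
    obtain ⟨t', h3, h4⟩ := C.extract i (Tr.leaf i :: q.map Tr.leaf) (by
        simp at hlen ⊢; omega) t (Tr.leaf j) hi (by rw [← exchDeg_perm hp4]; exact h2)
    rw [C.alt.perm _ _ (hp4.map (Tr.ev g)), h4]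
    simp only [List.map_cons]
    have hp5 : (Tr.ev g (Tr.leaf i) :: Tr.ev g t' :: Tr.ev g (Tr.leaf i) ::
        (q.map Tr.leaf).map (Tr.ev g)).Perm
        (Tr.ev g (Tr.leaf i) :: Tr.ev g (Tr.leaf i) :: Tr.ev g t' ::
          (q.map Tr.leaf).map (Tr.ev g)) := List.Perm.cons _ (List.Perm.swap _ _ _)
    rw [C.alt.perm _ _ hp5]
    exact C.alt.alt _ _
  · obtain ⟨i, hi⟩ : ∃ i, List.Duplicate i gs := by
      by_contra hcon
      push Not at hcon
      exact hnd (List.nodup_iff_forall_not_duplicate.2 hcon)
    have hsub : [i, i].Sublist gs := List.duplicate_iff_sublist.1 hi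
    obtain ⟨q, hq⟩ := hsub.exists_perm_append
    have hp : (t :: gs.map Tr.leaf).Perm (Tr.leaf i :: Tr.leaf i :: t :: q.map Tr.leaf) := by
      refine ((hq.map Tr.leaf).cons t).trans ?_
      simp only [List.cons_append, List.nil_append, List.map_cons]
      refine (List.Perm.swap _ _ _).trans ?_
      exact List.Perm.cons _ (List.Perm.swap _ _ _)
    rw [C.alt.perm _ _ (hp.map (Tr.ev g))]
    simp only [List.map_cons]
    exact C.alt.alt _ _

/-
PROOF.  Since `G` is multilinear (`Alt.perm`, `Alt.add`, `hsm`, `hgen`) it suffices to treat lists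
`ts.map (Tr.ev g)` with `ts : List (Tr m)`, `ts.length = n`.  Strong induction on the total degree
`D` of `ts`.  Polarising `hex` (replace x by x + w, use `Alt.add`, `Alt.perm`):
  `G(x, wy, l) + G(w, xy, l) = X G(w,y,l) + W G(x,y,l) = 0` by induction on `D`, so (char. 2)
  (ex) `G(x, w y, l) = G(w, x y, l)`.
(e1) extraction: for a tree `t` with leaf `i` and any tree `s` there is a tree `t'` with
     `deg t' = deg s + deg t - 1` and `G(s, t, l) = G(leaf i, t', l)`  (total degree `D`).
     Induction on t: leaf: swap.  t = u*v, i in u: `G(s,u v) = G(u, s v) = G(s v, u)`, recurse on u.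
     i in v: use `uv = vu`.
(e2) So all but one of the arguments can be made leaves: `G(ts) = G(t' :: gs)`, gs leaves,
     `gs.length = n - 1 ≥ m`.
(e3) `G(t :: gs) = 0`: if gs has a duplicate, alternation.  Otherwise gs contains every generator
     (length ≥ m); pick a leaf i of t, and j ≠ i in `Fin m` (m ≥ 2): extract i from t against
     the entry j of gs: `G(t, j, i, ...) = G(j, t, i, ..) = G(i, t', i, ...) = 0`.
-/
theorem exch_vanish {m : ℕ} (g : Fin m → A) (hm : 2 ≤ m) (h : Std R)
    (hgen : Submodule.span F (Set.range (Tr.ev g)) = ⊤)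
    (n : ℕ) (hn : m < n) (G : List A → U) (hG : Alt G)
    (hsm : ∀ (c : F) (x : A) (l : List A), G ((c • x) :: l) = c • G (x :: l))
    (hex : ∀ (x y : A) (l : List A), l.length + 2 = n →
      G (x :: (x * y) :: l) = R x * G (x :: y :: l))
    (l : List A) (hl : l.length = n) : G l = 0 := by
  have htree : ∀ (D : ℕ) (ts : List (Tr m)), ts.length = n → exchDeg ts = D →
      G (ts.map (Tr.ev g)) = 0 := by
    intro D
    induction D using Nat.strong_induction_on with
    | _ D ih =>
      intro ts hts hD
      have C : ExchCtx g n D G :=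
        { alt := hG
          ih := fun ts' h1 h2 => ih (exchDeg ts') h2 ts' h1 rfl
          cm := h.cm
          ex := fun x w y l h1 h2 h3 => exch_ex h hG hex x w y l h1 h2 h3 }
      cases ts with
      | nil =>
        simp only [List.length_nil] at hts
        omega
      | cons t r =>
        obtain ⟨t', gs', h1, h2, h3⟩ := C.toLeaves r t [] (by simpa using hts) (by simpa using hD)
        simp only [List.map_nil, List.append_nil] at h3
        rw [h3]
        exact C.leaf_zero hm hn t' gs' h1 h2
  have key : ∀ (a : List A) (ts : List (Tr m)), a.length + ts.length = n →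
      G (a ++ ts.map (Tr.ev g)) = 0 := by
    intro a
    induction a with
    | nil =>
      intro ts hts
      exact htree _ ts (by simpa using hts) rfl
    | cons x a ih =>
      intro ts hts
      rw [List.cons_append]
      have hx : x ∈ Submodule.span F (Set.range (Tr.ev g)) := by
        rw [hgen]
        exact Submodule.mem_top
      induction hx using Submodule.span_induction with
      | mem y hy =>
        obtain ⟨t, rfl⟩ := hy
        rw [hG.perm _ (a ++ (t :: ts).map (Tr.ev g)) (by
          rw [List.map_cons]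
          exact List.perm_middle.symm)]
        exact ih (t :: ts) (by simp at hts ⊢; omega)
      | zero => exact exch_zero hG _
      | add y z _ _ hy hz => rw [hG.add, hy (by simpa using hts), hz (by simpa using hts), add_zero]
      | smul c y _ hy => rw [hsm, hy (by simpa using hts), smul_zero]
  have := key l [] (by simpa using hl)
  simpa using this

end

end Pool.Agent.MalEngel
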