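import Pool.Agent.MalEngel.Defs

/-!
ROW MAL-FG.  Letters of high degree are decomposable.
-/

namespace Pool.Agent.MalEngel

section
variable {F A U : Type*} [Field F] [NonUnitalNonAssocRing A] [Module F A]
  [IsScalarTower F A A] [SMulCommClass F A A] [Ring U] [Algebra F U] {R : A →+ U}

/-- `N` contains the relations of degree `d`: see `repeat_core`. -/
structure Good {m : ℕ} (g : Fin m → A) (R : A →+ U) (d : ℕ) (N : AddSubgroup U) : Prop where
  sw : ∀ s t u : Tr m, s.deg + t.deg + u.deg = d →
    R ((s.ev g * t.ev g) * u.ev g) + R ((s.ev g * u.ev g) * t.ev g) ∈ N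
  sq : ∀ s t : Tr m, s.deg + 2 * t.deg = d → R ((s.ev g * t.ev g) * t.ev g) ∈ N

/-- the linearised Malcev identity -/
theorem FG_lin {A : Type*} [NonUnitalNonAssocRing A] (h : IsMalcev A) (x y z w : A) :
    J x y (w * z) + J w y (x * z) = J x y z * w + J w y z * x := by
  have h1 := h.mal (x + w) y z
  have h2 := h.mal x y z
  have h3 := h.mal w y z
  have e1 : J (x + w) y ((x + w) * z) =
      J x y (x * z) + J x y (w * z) + J w y (x * z) + J w y (w * z) := by
    unfold J
    simp only [add_mul, mul_add]
    abel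
  have e2 : J (x + w) y z * (x + w) = J x y z * x + J x y z * w + J w y z * x + J w y z * w := by
    unfold J
    simp only [add_mul, mul_add]
    abel
  rw [e1, e2, h2, h3] at h1
  have e3 : J x y z * x + J x y (w * z) + J w y (x * z) + J w y z * w =
      (J x y (w * z) + J w y (x * z)) + (J x y z * x + J w y z * w) := by abel
  have e4 : J x y z * x + J x y z * w + J w y z * x + J w y z * w =
      (J x y z * w + J w y z * x) + (J x y z * x + J w y z * w) := by abel
  rw [e3, e4] at h1
  exact add_right_cancel h1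

section rep
variable {m : ℕ} (g : Fin m → A) (h : Std R) (d : ℕ) (N : AddSubgroup U)

/-- the class of `R a` modulo `N` -/
def FG_P (R : A →+ U) (N : AddSubgroup U) : A →+ U ⧸ N := (QuotientAddGroup.mk' N).comp R

theorem FG_P_mem (a : A) : FG_P R N a = 0 ↔ R a ∈ N := by
  unfold FG_P
  rw [AddMonoidHom.comp_apply, QuotientAddGroup.mk'_apply, QuotientAddGroup.eq_zero_iff]

include h in
theorem FG_two (v : U ⧸ N) : v + v = 0 := by
  obtain ⟨u, rfl⟩ := QuotientAddGroup.mk_surjective v
  rw [← QuotientAddGroup.mk_add, h.uu]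
  rfl

include h in
theorem FG_eq (a b : A) (hab : R a + R b ∈ N) : FG_P R N a = FG_P R N b := by
  have h1 : FG_P R N a + FG_P R N b = 0 := by
    rw [← map_add, FG_P_mem, map_add]
    exact hab
  have h2 := FG_two h N (FG_P R N b)
  calc FG_P R N a = FG_P R N a + (FG_P R N b + FG_P R N b) := by rw [h2, add_zero]
    _ = (FG_P R N a + FG_P R N b) + FG_P R N b := by abel
    _ = FG_P R N b := by rw [h1, zero_add]

variable {g d N}

include h in
theorem FG_sw (hN : Good g R d N) (s t u : Tr m) (hd : s.deg + t.deg + u.deg = d) :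
    FG_P R N ((s.ev g * t.ev g) * u.ev g) = FG_P R N ((s.ev g * u.ev g) * t.ev g) :=
  FG_eq h N _ _ (hN.sw s t u hd)

/-- `T(s,t,u) = T(t,u,s)` -/
theorem FG_rot (h : Std R) (hN : Good g R d N) (s t u : Tr m) (hd : s.deg + t.deg + u.deg = d) :
    FG_P R N ((s.ev g * t.ev g) * u.ev g) = FG_P R N ((t.ev g * u.ev g) * s.ev g) := by
  rw [h.cm (s.ev g) (t.ev g)]
  exact FG_sw h hN t s u (by omega)

/-- the four-variable exchange -/
theorem FG_tau (h : Std R) (hN : Good g R d N) (x y z w : Tr m)
    (hd : x.deg + y.deg + z.deg + w.deg = d) :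
    FG_P R N ((x.ev g * y.ev g) * (w.ev g * z.ev g)) =
      FG_P R N ((w.ev g * y.ev g) * (x.ev g * z.ev g)) := by
  have h1 := congrArg (FG_P R N) (FG_lin h.mal (x.ev g) (y.ev g) (z.ev g) (w.ev g))
  unfold J at h1
  simp only [add_mul, map_add] at h1
  -- the terms on the left
  have a1 := FG_rot h hN x y (Tr.node w z) (by simp only [Tr.deg]; omega)
  have a2 := FG_rot h hN y (Tr.node w z) x (by simp only [Tr.deg]; omega)
  have b1 := FG_rot h hN w y (Tr.node x z) (by simp only [Tr.deg]; omega)
  have b2 := FG_rot h hN y (Tr.node x z) w (by simp only [Tr.deg]; omega)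
  -- the terms on the right
  have c1 := FG_rot h hN (Tr.node x y) z w (by simp only [Tr.deg]; omega)
  have c2 := FG_rot h hN (Tr.node y z) x w (by simp only [Tr.deg]; omega)
  have c3 := FG_rot h hN (Tr.node z x) y w (by simp only [Tr.deg]; omega)
  have c4 := FG_rot h hN (Tr.node w y) z x (by simp only [Tr.deg]; omega)
  have c5 := FG_rot h hN (Tr.node y z) w x (by simp only [Tr.deg]; omega)
  have c6 := FG_rot h hN (Tr.node z w) y x (by simp only [Tr.deg]; omega)
  simp only [Tr.ev] at a1 a2 b1 b2 c1 c2 c3 c4 c5 c6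
  rw [← a2, ← a1, ← b2, ← b1, c1, c2, c3, c4, c5, c6] at h1
  have k1 : (z.ev g * w.ev g) * (x.ev g * y.ev g) = (y.ev g * x.ev g) * (z.ev g * w.ev g) := by
    rw [h.cm (z.ev g * w.ev g), h.cm (x.ev g) (y.ev g)]
  have k2 : (x.ev g * w.ev g) * (y.ev g * z.ev g) = (w.ev g * x.ev g) * (y.ev g * z.ev g) := by
    rw [h.cm (x.ev g) (w.ev g)]
  have k3 : (y.ev g * w.ev g) * (z.ev g * x.ev g) = (z.ev g * x.ev g) * (w.ev g * y.ev g) := by
    rw [h.cm (y.ev g * w.ev g), h.cm (y.ev g) (w.ev g)]
  rw [k1, k2, k3] at h1
  generalize FG_P R N ((x.ev g * y.ev g) * (w.ev g * z.ev g)) = A1 at h1 ⊢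
  generalize FG_P R N ((w.ev g * y.ev g) * (x.ev g * z.ev g)) = A2 at h1 ⊢
  generalize FG_P R N ((y.ev g * x.ev g) * (z.ev g * w.ev g)) = A3 at h1
  generalize FG_P R N ((w.ev g * x.ev g) * (y.ev g * z.ev g)) = A4 at h1
  generalize FG_P R N ((z.ev g * x.ev g) * (w.ev g * y.ev g)) = A5 at h1
  have t1 := FG_two h N A1
  have t2 := FG_two h N A2
  have t3 := FG_two h N A3
  have t4 := FG_two h N A4
  have t5 := FG_two h N A5
  have e1 : A1 + A1 + A1 + (A2 + A2 + A2) = A1 + A2 := by
    rw [t1, t2]; abel
  have e2 : A3 + A4 + A5 + (A5 + A4 + A3) = 0 := by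
    have e3 : A3 + A4 + A5 + (A5 + A4 + A3) = (A3 + A3) + (A4 + A4) + (A5 + A5) := by abel
    rw [e3, t3, t4, t5, add_zero, add_zero]
  rw [e1, e2] at h1
  calc A1 = (A1 + A2) + A2 := by rw [add_assoc, t2, add_zero]
    _ = A2 := by rw [h1, zero_add]

theorem FG_pull (h : Std R) (hN : Good g R d N) (i : Fin m) : ∀ q p : Tr m, p.deg + q.deg = d →
    i ∈ q.leaves → ∃ u : Tr m, FG_P R N (p.ev g * q.ev g) = FG_P R N (u.ev g * g i) ∧
      (p.leaves ++ q.leaves).Perm (u.leaves ++ [i]) := by
  intro q
  induction q with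
  | leaf j =>
    intro p _ hi
    have hij : i = j := by simpa [Tr.leaves] using hi
    subst hij
    exact ⟨p, rfl, List.Perm.refl _⟩
  | node q1 q2 ih1 ih2 =>
    intro p hd hi
    have hd' : p.deg + (q1.deg + q2.deg) = d := hd
    rw [Tr.leaves, List.mem_append] at hi
    rcases hi with hi | hi
    · obtain ⟨u, hu1, hu2⟩ := ih1 (Tr.node p q2) (by simp only [Tr.deg]; omega) hi
      refine ⟨u, ?_, ?_⟩
      · rw [← hu1]
        have h1 := FG_rot h hN p q2 q1 (by omega)
        simp only [Tr.ev]
        rw [h1, h.cm (q2.ev g) (q1.ev g), h.cm (p.ev g)]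
      · refine List.Perm.trans ?_ hu2
        simp only [Tr.leaves]
        rw [List.append_assoc]
        exact List.Perm.append_left _ List.perm_append_comm
    · obtain ⟨u, hu1, hu2⟩ := ih2 (Tr.node p q1) (by simp only [Tr.deg]; omega) hi
      refine ⟨u, ?_, ?_⟩
      · rw [← hu1]
        have h1 := FG_rot h hN p q1 q2 (by omega)
        simp only [Tr.ev]
        rw [h1, h.cm (p.ev g)]
      · refine List.Perm.trans ?_ hu2
        simp only [Tr.leaves]
        rw [List.append_assoc]

theorem FG_rep2 (h : Std R) (hN : Good g R d N) (i : Fin m) : ∀ u2 u1 : Tr m,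
    u1.deg + u2.deg + 1 = d → i ∈ u2.leaves →
      FG_P R N ((u1.ev g * u2.ev g) * g i) = 0 := by
  intro u2
  induction u2 with
  | leaf j =>
    intro u1 hd hi
    have hij : i = j := by simpa [Tr.leaves] using hi
    subst hij
    rw [FG_P_mem]
    exact hN.sq u1 (Tr.leaf i) (by simp only [Tr.deg] at hd ⊢; omega)
  | node v1 v2 ih1 ih2 =>
    intro u1 hd hi
    have hd' : u1.deg + (v1.deg + v2.deg) + 1 = d := hd
    have hi1 : (Tr.leaf i : Tr m).deg = 1 := rfl
    rw [Tr.leaves, List.mem_append] at hi
    have hsw := FG_sw h hN u1 (Tr.node v1 v2) (Tr.leaf i) (by simp only [Tr.deg]; omega)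
    simp only [Tr.ev] at hsw ⊢
    rw [hsw]
    rcases hi with hi | hi
    · have h1 := FG_tau h hN u1 (Tr.leaf i) v2 v1 (by omega)
      have h2 := FG_rot h hN (Tr.node u1 v2) v1 (Tr.leaf i) (by simp only [Tr.deg]; omega)
      have h3 := ih1 (Tr.node u1 v2) (by simp only [Tr.deg]; omega) hi
      simp only [Tr.ev] at h1 h2 h3
      rw [h1, ← h2, h3]
    · have h1 := FG_tau h hN u1 (Tr.leaf i) v1 v2 (by omega)
      have h2 := FG_rot h hN (Tr.node u1 v1) v2 (Tr.leaf i) (by simp only [Tr.deg]; omega)
      have h3 := ih2 (Tr.node u1 v1) (by simp only [Tr.deg]; omega) hi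
      simp only [Tr.ev] at h1 h2 h3
      rw [h.cm (v1.ev g) (v2.ev g), h1, ← h2, h3]

theorem FG_core (h : Std R) (hN : Good g R d N) (i : Fin m) (p q : Tr m) (hd : p.deg + q.deg = d)
    (hi : i ∈ q.leaves) (hc : 2 ≤ (p.leaves ++ q.leaves).count i) :
    FG_P R N (p.ev g * q.ev g) = 0 := by
  obtain ⟨u, hu1, hu2⟩ := FG_pull h hN i q p hd hi
  rw [hu1]
  have hc2 := hu2.count_eq i
  rw [hc2, List.count_append, List.count_singleton_self] at hc
  have hiu : i ∈ u.leaves := by
    rw [← List.count_pos_iff]
    omega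
  have hlen := hu2.length_eq
  simp only [List.length_append, Tr.leaves_length, List.length_singleton] at hlen
  cases u with
  | leaf j =>
    have hij : i = j := by simpa [Tr.leaves] using hiu
    subst hij
    rw [Tr.ev, h.mal.sq, map_zero]
  | node u1 u2 =>
    have hlen' : p.deg + q.deg = u1.deg + u2.deg + 1 := hlen
    rw [Tr.leaves, List.mem_append] at hiu
    rcases hiu with h1 | h1
    · have := FG_rep2 h hN i u1 u2 (by omega) h1
      rw [Tr.ev, h.cm (u1.ev g), this]
    · have := FG_rep2 h hN i u2 u1 (by omega) h1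
      rw [Tr.ev, this]

end rep

/-
Write `≡` for congruence modulo `N`, everything in degree `d`; `[a] = R a`.
(1) `(st)u ≡ (su)t`, and by commutativity (`h.cm`) also `(st)u ≡ (tu)s`: totally symmetric in s,t,u.
(2) `(st)t ≡ 0`.
(3) `(xy)(wz) ≡ (wy)(xz)` for trees x,y,z,w with total degree d.  From the linearised Malcev identity
    `J(x,y,wz) + J(w,y,xz) = J(x,y,z) w + J(w,y,z) x` (replace x by x+w in `h.mal.mal`): modulo N,
    with `τ(ab|cd) := [(ab)(cd)]`; by (1) `[((ab)c)d] ≡ [(cd)(ab)] = τ(ab|cd)`, so
    `J(x,y,wz) ≡ τ(xy|wz)` (three congruent terms), `J(x,y,z)w ≡ τ(xy|zw)+τ(yz|xw)+τ(zx|yw)`, etc.;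
    everything on the right cancels in pairs, leaving `τ(xy|wz) + τ(wy|xz) ≡ 0`.
    With commutativity: τ is totally symmetric in its four arguments.
(4) If tree `a` (deg ≥ 2) contains the leaf i then `[a] ≡ [u x]`, x = g i, for some tree u such that
    leaves(a) is a permutation of leaves(u) ++ [i]: a = p q; if i ∈ q and q is not a leaf,
    q = q1 q2 with i ∈ q2 (commute if necessary): `(q1 q2) p ≡ (p q1) q2`, recurse on q2.
(5) If leaves(a) has i twice, then by (4) `[a] ≡ [u x]`, i ∈ leaves u, u = u1 u2, i ∈ u2.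
    If u2 = leaf: `(u1 x) x ≡ 0` by (2).  Otherwise u2 = v1 v2, i ∈ v2:
    `(u1 (v1 v2)) x ≡ (u1 x)(v1 v2) ≡ (v2 x)(u1 v1) ≡ ((u1 v1) v2) x`, recurse (v2 smaller).
-/
theorem repeat_core {m : ℕ} (g : Fin m → A) (h : Std R) (d : ℕ) (N : AddSubgroup U)
    (hN : Good g R d N) (t : Tr m) (ht : t.deg = d) (hd : ¬ t.leaves.Nodup) :
    R (t.ev g) ∈ N := by
  rw [← FG_P_mem]
  cases t with
  | leaf j => exact absurd (List.nodup_singleton j) hd
  | node p q =>
    have ht' : p.deg + q.deg = d := ht
    rw [List.nodup_iff_count_le_one] at hd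
    push Not at hd
    obtain ⟨i, hi⟩ := hd
    have hi' : 2 ≤ (p.leaves ++ q.leaves).count i := hi
    by_cases hq : i ∈ q.leaves
    · exact FG_core h hN i p q ht' hq hi'
    · have hp : i ∈ p.leaves := by
        rw [List.count_append, List.count_eq_zero_of_not_mem hq] at hi'
        rw [← List.count_pos_iff]
        omega
      rw [Tr.ev, h.cm (p.ev g)]
      refine FG_core h hN i q p (by omega) hp ?_
      rw [List.count_append, add_comm, ← List.count_append]
      exact hi'

/-- The `F`-span of the products of nonempty lists of letters `R b`, `b ∈ B`. -/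
def wordSpan (F : Type*) {A U : Type*} [Field F] [NonUnitalNonAssocRing A] [Ring U] [Algebra F U]
    (R : A →+ U) (B : Set A) : Submodule F U :=
  Submodule.span F {u | ∃ l : List A, l ≠ [] ∧ (∀ b ∈ l, b ∈ B) ∧ u = (l.map R).prod}

/-- there are finitely many trees of degree at most `k` -/
theorem FG_finite (m : ℕ) : ∀ k : ℕ, {t : Tr m | t.deg ≤ k}.Finite := by
  intro k
  induction k with
  | zero =>
    have h0 : {t : Tr m | t.deg ≤ 0} = ∅ := by
      ext t
      simp only [Set.mem_ofPred_eq, Set.mem_empty_iff_false, iff_false, not_le]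
      exact t.deg_pos
    rw [h0]
    exact Set.finite_empty
  | succ k ih =>
    refine Set.Finite.subset ((Set.finite_range (Tr.leaf : Fin m → Tr m)).union
      (Set.Finite.image2 Tr.node ih ih)) ?_
    intro t ht
    cases t with
    | leaf i => exact Or.inl ⟨i, rfl⟩
    | node p q =>
      right
      have h1 : p.deg + q.deg ≤ k + 1 := ht
      have h2 := p.deg_pos
      have h3 := q.deg_pos
      exact ⟨p, by simp only [Set.mem_ofPred_eq]; omega, q, by simp only [Set.mem_ofPred_eq]; omega, rfl⟩

omit [Module F A] [IsScalarTower F A A] [SMulCommClass F A A] in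
theorem FG_word (B : Set A) (b : A) (hb : b ∈ B) : R b ∈ wordSpan F R B := by
  apply Submodule.subset_span
  exact ⟨[b], by simp, by simpa using hb, by simp⟩

omit [Module F A] [IsScalarTower F A A] [SMulCommClass F A A] in
theorem FG_mul (B : Set A) {u v : U} (hu : u ∈ wordSpan F R B) (hv : v ∈ wordSpan F R B) :
    u * v ∈ wordSpan F R B := by
  unfold wordSpan at hu hv ⊢
  induction hu using Submodule.span_induction with
  | mem u hu =>
    obtain ⟨l, hl, hlB, rfl⟩ := hu
    induction hv using Submodule.span_induction with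
    | mem v hv =>
      obtain ⟨l', hl', hlB', rfl⟩ := hv
      apply Submodule.subset_span
      refine ⟨l ++ l', by simp [hl], ?_, by simp⟩
      intro b hb
      rcases List.mem_append.1 hb with h | h
      · exact hlB b h
      · exact hlB' b h
    | zero => rw [mul_zero]; exact Submodule.zero_mem _
    | add x y _ _ hx hy => rw [mul_add]; exact Submodule.add_mem _ hx hy
    | smul c x _ hx => rw [mul_smul_comm]; exact Submodule.smul_mem _ _ hx
  | zero => rw [zero_mul]; exact Submodule.zero_mem _
  | add x y _ _ hx hy => rw [add_mul]; exact Submodule.add_mem _ hx hy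
  | smul c x _ hx => rw [smul_mul_assoc]; exact Submodule.smul_mem _ _ hx

/-
Take B = the evaluations of all trees of degree ≤ m (finite).  Let N := wordSpan F R B: it is closed
under products and addition.  Show `R (t.ev g) ∈ N` for all trees by strong induction on the degree d.
If d ≤ m: clear.  If d > m: leaves has a repetition (pigeonhole) and `Good g R d N` holds:
(B) `h.rep` gives `R((yz)x) + R(y(xz)) = [Z, YX + R(yx)] + R(yz)X + Y R(xz)`, a sum of products of letters of
degree < d, all in N by induction; and `Q1` gives the `sq` part.  Then `repeat_core`.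
Finally extend to all `a : A` by `ctx.gen`, `ctx.smul` (span induction).
-/
theorem fg {m : ℕ} (g : Fin m → A) (ctx : Ctx F R g) :
    ∃ B : Finset A, ∀ a : A, R a ∈ wordSpan F R (B : Set A) := by
  classical
  have h : Std R := ctx.toStd
  have hfin := FG_finite m m
  refine ⟨hfin.toFinset.image (Tr.ev g), ?_⟩
  set B : Set A := ((hfin.toFinset.image (Tr.ev g) : Finset A) : Set A) with hB
  have hsmall : ∀ t : Tr m, t.deg ≤ m → R (t.ev g) ∈ wordSpan F R B := by
    intro t ht
    apply FG_word
    rw [hB, Finset.mem_coe, Finset.mem_image]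
    exact ⟨t, hfin.mem_toFinset.2 ht, rfl⟩
  have htree : ∀ n : ℕ, ∀ t : Tr m, t.deg = n → R (t.ev g) ∈ wordSpan F R B := by
    intro n
    induction n using Nat.strong_induction_on with
    | _ n ih =>
      intro t ht
      by_cases hn : n ≤ m
      · exact hsmall t (by omega)
      · have hlt : ∀ s : Tr m, s.deg < n → R (s.ev g) ∈ wordSpan F R B := fun s hs => ih _ hs s rfl
        have hgood : Good g R n (wordSpan F R B).toAddSubgroup := by
          constructor
          · intro s t u hd
            have ds := s.deg_pos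
            have dt := t.deg_pos
            have du := u.deg_pos
            rw [Submodule.mem_toAddSubgroup]
            have h1 := h.rep (u.ev g) (t.ev g) (s.ev g)
            have e : R ((s.ev g * t.ev g) * u.ev g) + R ((s.ev g * u.ev g) * t.ev g) =
                (R (s.ev g) * (R (t.ev g) * R (u.ev g) + R (t.ev g * u.ev g)) +
                  (R (t.ev g) * R (u.ev g) + R (t.ev g * u.ev g)) * R (s.ev g)) -
                R (t.ev g * s.ev g) * R (u.ev g) - R (t.ev g) * R (u.ev g * s.ev g) := by
              rw [h1, h.cm (s.ev g) (t.ev g), h.cm (s.ev g) (u.ev g),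
                h.cm (u.ev g * s.ev g) (t.ev g)]
              abel
            rw [e]
            have ks := hlt s (by omega)
            have kt := hlt t (by omega)
            have ku := hlt u (by omega)
            have ktu := hlt (Tr.node t u) (by simp only [Tr.deg]; omega)
            have kts := hlt (Tr.node t s) (by simp only [Tr.deg]; omega)
            have kus := hlt (Tr.node u s) (by simp only [Tr.deg]; omega)
            simp only [Tr.ev] at ktu kts kus
            have kk := Submodule.add_mem _ (FG_mul B kt ku) ktu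
            exact Submodule.sub_mem _ (Submodule.sub_mem _ (Submodule.add_mem _
              (FG_mul B ks kk) (FG_mul B kk ks)) (FG_mul B kts ku)) (FG_mul B kt kus)
          · intro s t hd
            have ds := s.deg_pos
            have dt := t.deg_pos
            rw [Submodule.mem_toAddSubgroup, Q1 h (t.ev g) (s.ev g)]
            have k1 := hlt s (by omega)
            have k2 := hlt t (by omega)
            have k3 := hlt (Tr.node t s) (by simp only [Tr.deg]; omega)
            simp only [Tr.ev] at k3
            exact Submodule.add_mem _ (Submodule.add_mem _ (FG_mul B (FG_mul B k2 k1) k2)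
              (FG_mul B k2 k3)) (FG_mul B (FG_mul B k1 k2) k2)
        apply repeat_core g h n (wordSpan F R B).toAddSubgroup hgood t ht
        intro hnd
        have h1 := hnd.length_le_card
        rw [Tr.leaves_length, Fintype.card_fin] at h1
        omega
  intro a
  have ha : a ∈ Submodule.span F (Set.range (Tr.ev g)) := by
    rw [ctx.gen]
    trivial
  induction ha using Submodule.span_induction with
  | mem a ha =>
    obtain ⟨t, rfl⟩ := ha
    exact htree _ t rfl
  | zero => rw [map_zero]; exact Submodule.zero_mem _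
  | add x y _ _ hx hy => rw [map_add]; exact Submodule.add_mem _ hx hy
  | smul c x _ hx => rw [ctx.smul]; exact Submodule.smul_mem _ _ hx

end

end Pool.Agent.MalEngel
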