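import Pool.Agent.MalEngel.ClsDl

/-!
ROW MAL-FORMS.  The operator `δ` on alternating forms and the forms `C_n`.

Notation in the proofs: `X = R x`, `N(y,x) = Y X + R (y x)`, everything in characteristic two
(so all signs are `+`); `h.rep x y z` is (B): `[Z, N(y,x)] = N(yz,x) + N(y,xz)`.
Useful closing pattern for identities in `U`:
  `linear_combination (norm := skip) h1 + R x * h2 + ...` then `noncomm_ring` then
  `simp [h.two, h.four]`.
For identities in the module `W`: `simp only [mul_smul, add_smul, smul_add]` and `abel`-type
arguments; `h.ww w : w + w = 0`.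
-/

namespace Pool.Agent.MalEngel

section
variable {F A U W : Type*} [Field F] [NonUnitalNonAssocRing A] [Module F A]
  [IsScalarTower F A A] [SMulCommClass F A A] [Ring U] [Algebra F U] [AddCommGroup W] [Module U W]
  {R : A →+ U}

/-! ### auxiliary facts on alternating forms -/

theorem Forms_zero {f : List A → W} (hf : Alt f) (l : List A) : f (0 :: l) = 0 := by
  have := hf.add 0 0 l
  rw [add_zero] at this
  exact (add_eq_left.mp this.symm)

/-- multilinearity: it suffices to check lists with entries in a spanning set -/
theorem Forms_span {f : List A → W} (hf : Alt f)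
    (hsm : ∀ (c : F) (x : A) (l : List A), f (x :: l) = 0 → f ((c • x) :: l) = 0)
    (S : Set A) (hS : Submodule.span F S = ⊤) (n : ℕ)
    (h0 : ∀ q : List A, (∀ a ∈ q, a ∈ S) → q.length = n → f q = 0) :
    ∀ p q : List A, (∀ a ∈ q, a ∈ S) → p.length + q.length = n → f (p ++ q) = 0 := by
  intro p
  induction p with
  | nil => intro q hq hl; exact h0 q hq (by simpa using hl)
  | cons a p ih =>
    intro q hq hl
    have ha : a ∈ Submodule.span F S := by rw [hS]; trivial
    rw [List.cons_append]
    simp only [List.length_cons] at hl
    induction ha using Submodule.span_induction with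
    | mem x hx =>
      have hperm : (x :: (p ++ q)).Perm (p ++ x :: q) := (List.perm_middle).symm
      rw [hf.perm _ _ hperm]
      apply ih
      · intro b hb
        rcases List.mem_cons.mp hb with rfl | hb
        · exact hx
        · exact hq b hb
      · simp only [List.length_cons]; omega
    | zero => exact Forms_zero hf _
    | add x y _ _ hx hy => rw [hf.add, hx, hy, add_zero]
    | smul c x _ hx => exact hsm c x _ hx

/-- pigeonhole for lists of generators -/
theorem Forms_leaves {m : ℕ} (g : Fin m → A) {f : List A → W} (hf : Alt f) (is : List (Fin m))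
    (hl : m < is.length) : f (is.map g) = 0 := by
  have hnd : ¬ is.Nodup := by
    intro h
    have := h.length_le_card
    rw [Fintype.card_fin] at this
    omega
  rw [← List.exists_duplicate_iff_not_nodup] at hnd
  obtain ⟨x, hx⟩ := hnd
  rw [List.duplicate_iff_sublist] at hx
  obtain ⟨l', hl'⟩ := hx.exists_perm_append
  rw [hf.perm _ _ (hl'.map g)]
  simp only [List.map_cons, List.cons_append, List.nil_append]
  exact hf.alt _ _

/-- the total degree -/
def Forms_deg {m : ℕ} (ts : List (Tr m)) : ℕ := (ts.map Tr.deg).sum

theorem Forms_deg_perm {m : ℕ} {ts ts' : List (Tr m)} (h : ts.Perm ts') :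
    Forms_deg ts = Forms_deg ts' := (h.map Tr.deg).sum_eq

theorem Forms_length_le {m : ℕ} (ts : List (Tr m)) : ts.length ≤ Forms_deg ts := by
  induction ts with
  | nil => simp [Forms_deg]
  | cons t ts ih =>
    have := t.deg_pos
    unfold Forms_deg at ih ⊢
    simp only [List.length_cons, List.map_cons, List.sum_cons]
    omega

/-- either all entries are generators or a product can be moved to the head -/
theorem Forms_cases {m : ℕ} (ts : List (Tr m)) :
    (∃ is : List (Fin m), ts = is.map Tr.leaf) ∨
      ∃ (s u : Tr m) (ts' : List (Tr m)), ts.Perm (Tr.node s u :: ts') := by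
  induction ts with
  | nil => left; exact ⟨[], rfl⟩
  | cons t ts ih =>
    rcases ih with ⟨is, rfl⟩ | ⟨s, u, ts', h⟩
    · cases t with
      | leaf i => left; exact ⟨i :: is, rfl⟩
      | node s u => right; exact ⟨s, u, _, List.Perm.refl _⟩
    · right
      exact ⟨s, u, t :: ts', (h.cons t).trans (List.Perm.swap _ _ _)⟩

theorem Forms_mem_map {m : ℕ} (g : Fin m → A) (q : List A)
    (hq : ∀ a ∈ q, a ∈ Set.range (Tr.ev g)) : ∃ ts : List (Tr m), q = ts.map (Tr.ev g) := by
  induction q with
  | nil => exact ⟨[], rfl⟩
  | cons a q ih =>
    obtain ⟨ts, rfl⟩ := ih fun b hb => hq b (List.mem_cons_of_mem _ hb)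
    obtain ⟨t, rfl⟩ := hq a List.mem_cons_self
    exact ⟨t :: ts, rfl⟩


end

section
variable {F A U : Type*} [Field F] [NonUnitalNonAssocRing A] [Module F A]
  [IsScalarTower F A A] [SMulCommClass F A A] [Ring U] [Algebra F U] [Module U A]
  {R : A →+ U}

/-- `C_n`, a form of arity `n+1` on `A` with values in `A`: `C_0 [x] = x`, `C_{n+1} = δ C_n`. -/
def Cn (R : A →+ U) : ℕ → List A → A
  | 0 => fun l => match l with
    | [x] => x
    | _ => 0
  | n + 1 => dl R (Cn R n)

/-- For `n = 0`: (M) is vacuous, (L2) says `(cx)x = x(xc) + x(cx) + (cx)x`, fine in char. 2. -/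
theorem Cn_cls (h : Std R) (hs : ∀ (c : F) (a : A), R (c • a) = c • R a)
    (hreg : ∀ x w : A, R x • w = x * w) (hsc : ∀ (c : F) (w : A), algebraMap F U c • w = c • w)
    (n : ℕ) : Cls F R (Cn R n) := by
  induction n with
  | succ n ih => exact Cls.dl h (Cn R n) ih hs
  | zero =>
    refine { perm := ?_, add := ?_, alt := ?_, smul := ?_, M := ?_, L2 := ?_ }
    · intro l l' hl
      match l, l', hl with
      | [], l', hl => rw [List.nil_perm.mp hl]
      | [x], l', hl => rw [List.singleton_perm.mp hl]
      | x :: y :: l, [], hl => exact absurd hl.length_eq (by simp)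
      | x :: y :: l, [z], hl => exact absurd hl.length_eq (by simp)
      | x :: y :: l, z :: w :: l', hl => rfl
    · intro x y l
      match l with
      | [] => rfl
      | z :: l => simp [Cn]
    · intro x l; rfl
    · intro c x l
      match l with
      | [] => exact (hsc c x).symm
      | z :: l => simp [Cn]
    · intro x z l
      simp [Cn]
    · intro c x l
      match l with
      | [] =>
        show (c * x) * x = (R x * R x) • c + (R x * R c + R (c * x)) • x
        rw [add_smul, mul_smul, mul_smul, hreg, hreg, hreg, hreg, hreg, h.cm x c, ← add_assoc,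
          h.two', zero_add]
      | z :: l => simp [Cn]

theorem Cn_len (n : ℕ) (l : List A) (hl : l.length ≠ n + 1) : Cn R n l = 0 := by
  induction n generalizing l with
  | zero =>
    match l, hl with
    | [], _ => rfl
    | [x], hl => exact absurd rfl hl
    | x :: y :: l, _ => rfl
  | succ n ih =>
    match l, hl with
    | [], _ => rfl
    | [x], _ => rfl
    | x :: y :: l, hl =>
      show Cn R n ((x * y) :: l) + R y • Cn R n (x :: l) + R x • Cn R n (y :: l) = 0
      simp only [List.length_cons] at hl
      rw [ih _ (by simp only [List.length_cons]; omega), ih _ (by simp only [List.length_cons]; omega),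
        ih _ (by simp only [List.length_cons]; omega), smul_zero, smul_zero, add_zero, add_zero]

theorem Cn_two (h : Std R) (hreg : ∀ x w : A, R x • w = x * w) (x y z : A) :
    Cn R 2 [x, y, z] = J x y z := by
  have h1 : ∀ a b : A, Cn R 1 [a, b] = a * b := by
    intro a b
    show a * b + R b • a + R a • b = a * b
    rw [hreg, hreg, h.cm b a, add_assoc, h.two', add_zero]
  show Cn R 1 [x * y, z] + R y • Cn R 1 [x, z] + R x • Cn R 1 [y, z] = J x y z
  rw [h1, h1, h1, hreg, hreg, J, h.cm x z, h.cm y (z * x), h.cm x (y * z)]
  abel

/-- `C_n = 0` as soon as the arity `n+1` exceeds the number `m` of generators.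
Proof: by multilinearity (use `Alt.perm`, `Alt.add`, `Cls.smul` and `hgen`) it suffices to treat
lists of monomials `l = ts.map (Tr.ev g)`, `ts : List (Tr m)`, `ts.length = n+1 > m`.  Strong
induction on the total degree `D = sum of degrees`, and for fixed `D` on `D - n`
(note `n+1 ≤ D`).  If all `ts` are leaves, pigeonhole: two equal, so zero (`perm`, `alt`).
Otherwise move a node `s*t` to the head: `C_n((s t)::l) = C_{n+1}(s::t::l) + T C_n(s::l) + S C_n(t::l)`
(char 2), the first has the same total degree and larger `n`, the others have smaller degree. -/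
theorem Cn_vanish {m : ℕ} (g : Fin m → A) (h : Std R)
    (hs : ∀ (c : F) (a : A), R (c • a) = c • R a)
    (hreg : ∀ x w : A, R x • w = x * w) (hsc : ∀ (c : F) (w : A), algebraMap F U c • w = c • w)
    (hgen : Submodule.span F (Set.range (Tr.ev g)) = ⊤)
    (n : ℕ) (hn : m ≤ n) (l : List A) : Cn R n l = 0 := by
  by_cases hl : l.length = n + 1
  swap
  · exact Cn_len n l hl
  have mono : ∀ D k n : ℕ, ∀ ts : List (Tr m), m ≤ n → ts.length = n + 1 → Forms_deg ts = D →
      D - n = k → Cn R n (ts.map (Tr.ev g)) = 0 := by
    intro D
    induction D using Nat.strong_induction_on with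
    | _ D ihD =>
      intro k
      induction k using Nat.strong_induction_on with
      | _ k ihk =>
        intro n ts hmn hlen hdeg hk
        have hC := Cn_cls h hs hreg hsc n
        rcases Forms_cases ts with ⟨is, rfl⟩ | ⟨s, u, ts', hperm⟩
        · have e : (is.map Tr.leaf).map (Tr.ev g) = is.map g := by
            rw [List.map_map]; rfl
          rw [e]
          rw [List.length_map] at hlen
          exact Forms_leaves g hC.toAlt is (by omega)
        · have hlen' := hperm.length_eq
          have hdeg' := Forms_deg_perm hperm
          have hdegn : Forms_deg (Tr.node s u :: ts') = s.deg + u.deg + Forms_deg ts' := by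
            simp [Forms_deg, Tr.deg]
          have hds := s.deg_pos
          have hdu := u.deg_pos
          have hle := Forms_length_le ts'
          simp only [List.length_cons] at hlen'
          rw [hC.perm _ _ (hperm.map (Tr.ev g))]
          simp only [List.map_cons, Tr.ev]
          have e1 : Cn R (n + 1) ((s :: u :: ts').map (Tr.ev g)) = 0 := by
            apply ihk (D - (n + 1)) (by omega) (n + 1) (s :: u :: ts') (by omega)
            · simp only [List.length_cons]; omega
            · have : Forms_deg (s :: u :: ts') = s.deg + u.deg + Forms_deg ts' := by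
                simp [Forms_deg]; ring
              omega
            · rfl
          have e2 : Cn R n ((s :: ts').map (Tr.ev g)) = 0 := by
            have : Forms_deg (s :: ts') = s.deg + Forms_deg ts' := by simp [Forms_deg]
            apply ihD (Forms_deg (s :: ts')) (by omega) _ n (s :: ts') hmn _ rfl rfl
            simp only [List.length_cons]; omega
          have e3 : Cn R n ((u :: ts').map (Tr.ev g)) = 0 := by
            have : Forms_deg (u :: ts') = u.deg + Forms_deg ts' := by simp [Forms_deg]
            apply ihD (Forms_deg (u :: ts')) (by omega) _ n (u :: ts') hmn _ rfl rfl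
            simp only [List.length_cons]; omega
          simp only [List.map_cons] at e1 e2 e3
          have e4 : Cn R (n + 1) (Tr.ev g s :: Tr.ev g u :: ts'.map (Tr.ev g)) =
              Cn R n ((Tr.ev g s * Tr.ev g u) :: ts'.map (Tr.ev g)) +
                R (Tr.ev g u) • Cn R n (Tr.ev g s :: ts'.map (Tr.ev g)) +
                R (Tr.ev g s) • Cn R n (Tr.ev g u :: ts'.map (Tr.ev g)) := rfl
          rw [e1, e2, e3, smul_zero, smul_zero, add_zero, add_zero] at e4
          exact e4.symm
  have hC := Cn_cls h hs hreg hsc n
  have := Forms_span (F := F) hC.toAlt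
    (fun c x l hx => by rw [hC.smul, hx, smul_zero]) (Set.range (Tr.ev g)) hgen (n + 1)
    (by
      intro q hq hql
      obtain ⟨ts, rfl⟩ := Forms_mem_map g q hq
      exact mono _ _ n ts hn (by simpa using hql) rfl rfl) l [] (by simp) (by simpa using hl)
  simpa using this

end

section
variable {F A U W : Type*} [Field F] [NonUnitalNonAssocRing A] [Module F A]
  [IsScalarTower F A A] [SMulCommClass F A A] [Ring U] [Algebra F U] [AddCommGroup W] [Module U W]
  {R : A →+ U}

/-- An alternating multiderivation of arity `r > m` vanishes (same argument, easier). -/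
theorem AltDer.vanish {m : ℕ} (g : Fin m → A) (hgen : Submodule.span F (Set.range (Tr.ev g)) = ⊤)
    {r : ℕ} (hr : m < r) (f : List A → W) (hf : AltDer F R r f) (l : List A) : f l = 0 := by
  by_cases hl : l.length = r
  swap
  · exact hf.len l hl
  have mono : ∀ D : ℕ, ∀ ts : List (Tr m), ts.length = r → Forms_deg ts = D →
      f (ts.map (Tr.ev g)) = 0 := by
    intro D
    induction D using Nat.strong_induction_on with
    | _ D ihD =>
      intro ts hlen hdeg
      rcases Forms_cases ts with ⟨is, rfl⟩ | ⟨s, u, ts', hperm⟩
      · have e : (is.map Tr.leaf).map (Tr.ev g) = is.map g := by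
          rw [List.map_map]; rfl
        rw [e]
        rw [List.length_map] at hlen
        exact Forms_leaves g hf.toAlt is (by omega)
      · have hlen' := hperm.length_eq
        have hdeg' := Forms_deg_perm hperm
        have hdegn : Forms_deg (Tr.node s u :: ts') = s.deg + u.deg + Forms_deg ts' := by
          simp [Forms_deg, Tr.deg]
        have hds := s.deg_pos
        have hdu := u.deg_pos
        simp only [List.length_cons] at hlen'
        rw [hf.perm _ _ (hperm.map (Tr.ev g))]
        simp only [List.map_cons, Tr.ev]
        have e2 : f ((s :: ts').map (Tr.ev g)) = 0 := by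
          have : Forms_deg (s :: ts') = s.deg + Forms_deg ts' := by simp [Forms_deg]
          apply ihD (Forms_deg (s :: ts')) (by omega) (s :: ts') _ rfl
          simp only [List.length_cons]; omega
        have e3 : f ((u :: ts').map (Tr.ev g)) = 0 := by
          have : Forms_deg (u :: ts') = u.deg + Forms_deg ts' := by simp [Forms_deg]
          apply ihD (Forms_deg (u :: ts')) (by omega) (u :: ts') _ rfl
          simp only [List.length_cons]; omega
        simp only [List.map_cons] at e2 e3
        rw [hf.der, e2, e3, smul_zero, smul_zero, add_zero]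
  have := Forms_span (F := F) hf.toAlt
    (fun c x l hx => by rw [hf.smul, hx, smul_zero]) (Set.range (Tr.ev g)) hgen r
    (by
      intro q hq hql
      obtain ⟨ts, rfl⟩ := Forms_mem_map g q hq
      exact mono _ ts (by simpa using hql) rfl) l [] (by simp) (by simpa using hl)
  simpa using this

end

end Pool.Agent.MalEngel
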