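import Pool.Agent.MalEngel.UForm

namespace Pool.Agent.MalEngel

section
variable {F A U W : Type*} [Field F] [NonUnitalNonAssocRing A] [Module F A]
  [IsScalarTower F A A] [SMulCommClass F A A] [Ring U] [Algebra F U] [AddCommGroup W] [Module U W]
  {R : A →+ U}

/-- `g_x`. -/
def gx (R : A →+ U) (x : A) (f : List A → W) : List A → W
  | c :: l => (R x * R x) • f (c :: l) + br R x c • f (x :: l)
  | [] => 0

theorem Sf (h : Std R) (f : List A → W) {r : ℕ} (hr : 1 ≤ r) (hf : AltDer F R r f)
    (hU : ∀ l, Uf R f l = 0) (c d e : A) (l : List A) : So R c d e • f l = 0 := by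
  rcases l with _ | ⟨y, l⟩
  · rw [hf.len [] (by simp; omega), smul_zero]
  have u := hU (c :: d :: e :: l)
  have u1 := hU ((c * y) :: d :: e :: l)
  have u2 := hU (c :: (d * y) :: e :: l)
  have u3 := hU (c :: d :: (e * y) :: l)
  have q1 := congrArg (fun t => t • f (c :: l)) (Q2p h d e y)
  have q2 := congrArg (fun t => t • f (d :: l)) (Q2p h e c y)
  have q3 := congrArg (fun t => t • f (e :: l)) (Q2p h c d y)
  simp only [Uf, hf.der] at u u1 u2 u3
  have h2 : ∀ w : W, (2 : ℤ) • w = 0 := fun w => by rw [two_smul]; exact h.ww w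
  have h2' : ∀ w : W, (-2 : ℤ) • w = 0 := fun w => by rw [neg_smul, h2, neg_zero]
  linear_combination (norm := skip) u1 + u2 + u3 + (R y) • u + q1 + q2 + q3
  simp only [So, br, add_smul, mul_smul, smul_add, smul_zero, sub_zero, add_zero]
  abel_nf
  simp only [h2, h2', smul_zero, add_zero, zero_add]

theorem gform_swap12 {f : List A → W} (hf : Alt f) (a b : A) (l : List A) :
    f (a :: b :: l) = f (b :: a :: l) := hf.perm _ _ (List.Perm.swap b a l)

theorem gform_swap23 {f : List A → W} (hf : Alt f) (a b c : A) (l : List A) :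
    f (a :: b :: c :: l) = f (a :: c :: b :: l) :=
  hf.perm _ _ (List.Perm.cons a (List.Perm.swap c b l))

theorem gform_alt13 {f : List A → W} (hf : Alt f) (a b : A) (l : List A) :
    f (a :: b :: a :: l) = 0 := by
  rw [gform_swap23 hf, hf.alt]

theorem gform_der2 {f : List A → W} {r : ℕ} (hf : AltDer F R r f) (a x y : A) (l : List A) :
    f (a :: (x * y) :: l) = R y • f (a :: x :: l) + R x • f (a :: y :: l) := by
  rw [gform_swap12 hf.toAlt, hf.der, gform_swap12 hf.toAlt x a, gform_swap12 hf.toAlt y a]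

theorem s0p (h : Std R) (f : List A → W) {r : ℕ} (hf : AltDer F R r f) (x z y b c : A)
    (l : List A) :
    (R x * br R x y) • f (z :: b :: c :: l)
      = (R x * br R z y + R z * br R x y) • f (x :: b :: c :: l) := by
  have h2 : ∀ w : W, (2 : ℤ) • w = 0 := fun w => by rw [two_smul]; exact h.ww w
  have h2' : ∀ w : W, (-2 : ℤ) • w = 0 := fun w => by rw [neg_smul, h2, neg_zero]
  have h4 : ∀ w : W, (4 : ℤ) • w = 0 := fun w => by
    have : (4 : ℤ) = 2 * 2 := by norm_num
    rw [this, mul_smul, h2]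
  have h4' : ∀ w : W, (-4 : ℤ) • w = 0 := fun w => by rw [neg_smul, h4, neg_zero]
  -- key identity
  have key : ∀ b c d : A,
      ((br R x d * R x) • f (z :: b :: c :: l) + (br R x d * R z) • f (x :: b :: c :: l)
        + (br R z d * R x) • f (x :: b :: c :: l))
      + ((br R x b * R x) • f (z :: d :: c :: l) + (br R x b * R z) • f (x :: d :: c :: l)
        + (br R z b * R x) • f (x :: d :: c :: l))
      + ((R x * br R z b) • f (x :: d :: c :: l) + (R x * br R x b) • f (z :: d :: c :: l)
        + (R z * br R x b) • f (x :: d :: c :: l)) = 0 := by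
    intro b c d
    have e1 := C1p h f hf x z (b * x) d (c :: l)
    have e2 := C1 h f hf x (b * z) d (c :: l)
    have e3 := congrArg (fun t => t • f (x :: d :: c :: l)) (Q2p h x z b)
    have e4 := congrArg (fun t => t • f (z :: d :: c :: l)) (Q2 h x b)
    rw [h.cm z b, h.cm x b] at e3
    rw [h.cm x b] at e4
    simp only [gform_der2 hf, hf.alt] at e1 e2
    rw [gform_swap12 hf.toAlt z x] at e1
    linear_combination (norm := skip) e1 + e2 + e3 + e4
    simp only [br, add_smul, mul_smul, smul_add, smul_zero, sub_zero, add_zero]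
    abel_nf
    simp only [h2, h2', smul_zero, add_zero, zero_add]
  have k1 := key b c y
  have k2 := key c y b
  have k3 := key y b c
  have a1 := congrArg (fun t => R x • t) (C1p h f hf x z y b (c :: l))
  have a2 := congrArg (fun t => R z • t) (C1 h f hf x y b (c :: l))
  have a3 := congrArg (fun t => R x • t) (C1p h f hf x z y c (b :: l))
  have a4 := congrArg (fun t => R z • t) (C1 h f hf x y c (b :: l))
  rw [gform_swap23 hf.toAlt x y c, gform_swap23 hf.toAlt z y c] at *
  rw [gform_swap23 hf.toAlt x c b, gform_swap23 hf.toAlt z c b] at *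
  rw [gform_swap23 hf.toAlt x y b, gform_swap23 hf.toAlt z y b] at *
  linear_combination (norm := skip) k1 + k2 + k3 + a1 + a2 + a3 + a4
  simp only [br, add_smul, mul_smul, smul_add, smul_zero, sub_zero, add_zero]
  abel_nf
  simp only [h2, h2', h4, h4', smul_zero, add_zero, zero_add]

theorem s0 (h : Std R) (f : List A → W) {r : ℕ} (hf : AltDer F R r f) (x y b c : A)
    (l : List A) : (R x * br R x y) • f (x :: b :: c :: l) = 0 := by
  rw [s0p h f hf x x y b c l, h.uu, zero_smul]

theorem star (h : Std R) (f : List A → W) {r : ℕ} (hr : 3 ≤ r) (hf : AltDer F R r f)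
    (hU : ∀ l, Uf R f l = 0) (x y : A) (l : List A) : co R x y • f l = R y • gx R x f l := by
  rcases l with _ | ⟨a, _ | ⟨b, _ | ⟨c, l⟩⟩⟩
  · rw [hf.len [] (by simp; omega), smul_zero]
    simp only [gx, smul_zero]
  · rw [hf.len [a] (by simp; omega), smul_zero]
    simp only [gx]
    rw [hf.len [a] (by simp; omega), hf.len [x] (by simp; omega)]
    simp only [smul_zero, add_zero]
  · rw [hf.len [a, b] (by simp; omega), smul_zero]
    simp only [gx]
    rw [hf.len [a, b] (by simp; omega), hf.len [x, b] (by simp; omega)]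
    simp only [smul_zero, add_zero]
  · have h2 : ∀ w : W, (2 : ℤ) • w = 0 := fun w => by rw [two_smul]; exact h.ww w
    have h2' : ∀ w : W, (-2 : ℤ) • w = 0 := fun w => by rw [neg_smul, h2, neg_zero]
    have e1 := s0p h f hf x a y b c l
    have e2 := Sf h f (by omega) hf hU x a y (x :: b :: c :: l)
    simp only [gx]
    linear_combination (norm := skip) e1 + e2
    simp only [co, So, br, add_smul, mul_smul, smul_add, smul_zero, sub_zero, add_zero]
    abel_nf
    simp only [h2, h2', smul_zero, add_zero, zero_add]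

/-- the value on a list with a repeated head is zero -/
theorem gform_alt (f : List A → W) {r : ℕ} (hf : AltDer F R r f) (x c : A) (l : List A) :
    br R x c • f (x :: c :: l) = 0 := by
  have h1 := hf.alt (c * x) l
  rw [hf.der, hf.perm (c :: (c * x) :: l) ((c * x) :: c :: l) (List.Perm.swap _ _ _),
    hf.perm (x :: (c * x) :: l) ((c * x) :: x :: l) (List.Perm.swap _ _ _), hf.der, hf.der,
    hf.alt, hf.alt, smul_zero, smul_zero, zero_add, add_zero,
    hf.perm (c :: x :: l) (x :: c :: l) (List.Perm.swap _ _ _)] at h1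
  simp only [br, add_smul, mul_smul]
  exact h1

/-- the key identity (Gm) -/
theorem gform_key (h : Std R) (f : List A → W) {r : ℕ} (hr : 3 ≤ r) (hf : AltDer F R r f)
    (hU : ∀ l, Uf R f l = 0) (x a y b c : A) (l : List A) :
    (R x * R x) • f ((a * y) :: b :: c :: l) + br R x (a * y) • f (x :: b :: c :: l)
      = R y • ((R x * R x) • f (a :: b :: c :: l) + br R x a • f (x :: b :: c :: l))
        + R a • ((R x * R x) • f (y :: b :: c :: l) + br R x y • f (x :: b :: c :: l)) := by
  have h2w : ∀ w : W, (2 : ℤ) • w = 0 := fun w => by rw [two_smul]; exact h.ww w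
  have hn2 : ∀ w : W, (-2 : ℤ) • w = 0 := fun w => by rw [neg_smul, h2w, neg_zero]
  have hn4 : ∀ w : W, (-4 : ℤ) • w = 0 := fun w => by
    have : (-4 : ℤ) = 2 * (-2) := by norm_num
    rw [this, mul_smul, h2w]
  have sw : ∀ p q r' : A, f (p :: q :: r' :: l) = f (q :: p :: r' :: l) := fun p q r' =>
    hf.perm _ _ (List.Perm.swap _ _ _)
  have sw2 : ∀ p q r' : A, f (p :: q :: r' :: l) = f (p :: r' :: q :: l) := fun p q r' =>
    hf.perm _ _ (List.Perm.cons _ (List.Perm.swap _ _ _))
  have d2 : ∀ p q r' s : A, f (p :: (q * r') :: s :: l) =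
      R r' • f (p :: q :: s :: l) + R q • f (p :: r' :: s :: l) := by
    intro p q r' s
    rw [sw, hf.der, sw q p s, sw r' p s]
  -- canonical order x < y < a < b < c
  have al : ∀ p s : A, f (p :: p :: s :: l) = 0 := fun p s => hf.alt p _
  have u1 := hU (c :: x :: (x * y) :: a :: b :: l)
  have u2 := hU (c :: x :: (x * a) :: y :: b :: l)
  have u3 := hU (a :: (x * y) :: c :: x :: b :: l)
  have u4 := hU (y :: (x * a) :: c :: x :: b :: l)
  have u5 := congrArg (fun t => R x • t) (hU (a :: c :: y :: x :: b :: l))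
  simp only [Uf, hf.der] at u1 u2 u3 u4 u5
  have q1 := congrArg (fun t => t • f (a :: b :: c :: l)) (Q2 h x y)
  have q2 := congrArg (fun t => t • f (y :: b :: c :: l)) (Q2 h x a)
  have q3 := congrArg (fun t => t • f (x :: b :: c :: l)) (Q2p h a y x)
  have s8 := Sf h f (by omega) hf hU a y x (x :: b :: c :: l)
  have c9 := congrArg (fun t => R c • t) (C1 h f hf x y a (b :: l))
  have c10 := C1 h f hf x c (a * y) (b :: l)
  have c11 := congrArg (fun t => R y • t) (C1 h f hf x c a (b :: l))
  have c12 := congrArg (fun t => R a • t) (C1 h f hf x c y (b :: l))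
  have c13 := C1 h f hf x y b ((a * c) :: l)
  have c14 := C1 h f hf x c b ((a * y) :: l)
  have c15 := C1 h f hf x a b ((c * y) :: l)
  have d3 : ∀ p q r' s : A, f (p :: s :: (q * r') :: l) =
      R r' • f (p :: s :: q :: l) + R q • f (p :: s :: r' :: l) := by
    intro p q r' s
    rw [sw2, d2, sw2 p s q, sw2 p s r']
  rw [hf.der]
  linear_combination (norm := skip) u1 + u2 + u3 + u4 + u5 + q1 + q2 + q3 + s8 + c9 + c10 + c11 +
    c12 + c13 + c14 + c15
  simp only [d2, d3, So, br, add_smul, mul_smul, smul_add, smul_zero]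
  simp only [sw2 x a y, sw y x b, sw2 x b y, sw2 x c y, sw a x b, sw2 x b a, sw2 x c a,
    sw2 x c b, sw c x b, sw a y b, sw2 y c b, sw c y b, sw2 a c b, sw c a b, al, smul_zero,
    h.cm y x, h.cm a x]
  abel_nf
  simp only [h2w, hn2, hn4, add_zero]

/-
`g_x` is an alternating multiderivation of arity r.  Alternating: swap of the head with the
next one is (C1); `g_x(c,c,l) = [X,C] f(x,c,l) = [X,X] f(c,c,l) = 0` by (C1) [f(x,c,l) with b = c: `[X,C]f(x,x..)`;
precisely C1 with b := x gives `[X,C] f(x,x,l) = [X,X] f(x,c,l)`; for c = c use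
`[X,C] f(x,c,l) = ` (C1 polarised) ... or: `f(c, cx, l)`-type computation; the value `[X,C] f(x,c,l)` is zero:
`f(cx,cx,l) = 0 = X f(c,cx) + C f(x,cx) = X C f(c,x) + C X f(x,c)` so `[X,C] f(x,c,l) = 0`.]
Derivation property, for the head `a y` and the other arguments b,c:
 need  (Gm) `[Y,[X,C]] f(x,a,b) + [A,[X,C]] f(x,y,b) + [XX,Y] f(a,b,c) + [XX,A] f(y,b,c) = 0`
 (after writing T(ay,b,c) = [X,C] f(x,ay,b), using that `g_x` is symmetric).
 `[XX,Y] = [X,R(xy)]` (Q2).  (u) on f(·,a,b) with (c, x, xy):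
   `[X,R(xy)] f(a,b,c) = [R(xy),C] f(a,b,x) + [C,X](Y f(a,b,x) + X f(a,b,y))`,
 similarly with a,y exchanged.  Adding, the terms `[C,X]X f(a,b,y)` cancel; (Gm) becomes
   `(Y[X,C] + [R(xy),C]) f(x,a,b) + (A[X,C] + [R(xa),C]) f(x,y,b) = 0`.
 (u) on f(·,x,b) with (a, xy, c): `[R(xy),C] f(x,b,a) = [C,A] X f(x,b,y) + [A,R(xy)] f(x,b,c)`, similarly with
 a,y exchanged, and `[A,R(xy)] + [Y,R(xa)] = [[A,Y],X]` (Q2p).  So it remains to see
   `(Y[X,C] + [C,Y]X) f(x,a,b) + (A[X,C] + [C,A]X) f(x,y,b) + [[A,Y],X] f(x,b,c) = 0`.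
 Add X(u) for (a,c,y) on f(·,x,b) and use (Sf): becomes
   `(C[Y,X] + [C,Y]X) f(x,a,b) + (C[X,A] + [C,A]X) f(x,y,b) + [A,Y]X f(x,b,c) = 0`;
 `[Y,X] f(x,a,b) = [A,X] f(x,y,b)` by (C1), so it remains
   Σ_cyc(a,c,y) `[C,Y] X f(x,b,a) = 0`.
 By (Sf) `[C,Y]X f = ([Y,X]C + [X,C]Y) f` (S = sum over cyclic [C,Y]X), so the sum is
 Σ (over the operator [X,Y]) `[X,Y](C f(x,b,a) + A f(x,b,c)) = [X,Y] f(x,b,ac) = T(b,ac,y) = [X,B] f(x,ac,y)`,
 and Σ_cyc f(x,ac,y) = Σ_cyc (C f(x,a,y) + A f(x,c,y)) = 0.
(Operators on the left; if an order of factors looks wrong trust Lean.)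
-/
theorem gx_altDer (h : Std R) (hs : ∀ (c : F) (a : A), R (c • a) = c • R a) (f : List A → W)
    {r : ℕ} (hr : 3 ≤ r) (hf : AltDer F R r f) (hU : ∀ l, Uf R f l = 0) (x : A) :
    AltDer F R r (gx R x f) := by
  refine ⟨⟨?_, ?_, ?_⟩, ?_, ?_, ?_⟩
  · -- perm
    refine perm_of_swap _ ?_
    intro p a b s
    match p with
    | [] =>
      simp only [List.nil_append, gx]
      rw [hf.perm (a :: b :: s) (b :: a :: s) (List.Perm.swap _ _ _), C1 h f hf x b a s]
    | c :: p =>
      simp only [List.cons_append, gx]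
      rw [hf.perm (c :: (p ++ a :: b :: s)) (c :: (p ++ b :: a :: s))
          (List.Perm.cons _ (List.Perm.append_left _ (List.Perm.swap _ _ _))),
        hf.perm (x :: (p ++ a :: b :: s)) (x :: (p ++ b :: a :: s))
          (List.Perm.cons _ (List.Perm.append_left _ (List.Perm.swap _ _ _)))]
  · -- add
    intro a b l
    simp only [gx, hf.add, br, map_add, smul_add, add_smul, mul_add, add_mul]
    abel
  · -- alt
    intro a l
    simp only [gx]
    rw [hf.alt, smul_zero, zero_add, gform_alt f hf x a l]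
  · -- len
    intro l hl
    match l with
    | [] => rfl
    | c :: l =>
      simp only [gx]
      rw [hf.len (c :: l) hl, hf.len (x :: l) (by simpa using hl), smul_zero, smul_zero, add_zero]
  · -- smul
    intro k a l
    simp only [gx, hf.smul, br, hs]
    rw [smul_add, ← mul_smul, ← mul_smul, ← mul_smul, Algebra.commutes]
    congr 2
    rw [Algebra.smul_def, ← mul_assoc, ← Algebra.commutes k (R x), mul_add, mul_assoc, mul_assoc]
  · -- der
    intro a y l
    match l with
    | [] =>
      simp only [gx]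
      rw [hf.len [a * y] (by simp; omega), hf.len [x] (by simp; omega),
        hf.len [a] (by simp; omega), hf.len [y] (by simp; omega)]
      simp
    | [b] =>
      simp only [gx]
      rw [hf.len [a * y, b] (by simp; omega), hf.len [x, b] (by simp; omega),
        hf.len [a, b] (by simp; omega), hf.len [y, b] (by simp; omega)]
      simp
    | b :: c :: l =>
      simp only [gx]
      exact gform_key h f hr hf hU x a y b c l

/-- `X g_x = X X X f` by (s0). -/
theorem x_gx (h : Std R) (f : List A → W) {r : ℕ} (hr : 3 ≤ r) (hf : AltDer F R r f)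
    (x : A) (l : List A) : R x • gx R x f l = (R x * R x * R x) • f l := by
  match l with
  | [] =>
    have h0 : f [] = 0 := hf.len [] (by simp; omega)
    simp only [gx, h0, smul_zero]
  | [c] =>
    have h0 : f [c] = 0 := hf.len [c] (by simp; omega)
    have h1 : f [x] = 0 := hf.len [x] (by simp; omega)
    simp only [gx, h0, h1, smul_zero, add_zero]
  | [c, b] =>
    have h0 : f [c, b] = 0 := hf.len _ (by simp; omega)
    have h1 : f [x, b] = 0 := hf.len _ (by simp; omega)
    simp only [gx, h0, h1, smul_zero, add_zero]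
  | c :: b :: d :: l =>
    have h1 := s0 h f hf x c b d l
    simp only [gx, smul_add]
    rw [← mul_smul (R x) (br R x c), h1, add_zero, ← mul_smul, mul_assoc]

/-- If `X f = 0` then `g_x = 0`: `g_x(c,l) = X X f(c,l) + X C f(x,l) + C X f(x,l)`,
and `0 = X f(xc, l) = X C f(x,l) + X X f(c,l)` so `X C f(x,l) = 0`. -/
theorem gx_zero (h : Std R) (f : List A → W) {r : ℕ} (hf : AltDer F R r f)
    (x : A) (hx : ∀ l, R x • f l = 0) (l : List A) : gx R x f l = 0 := by
  match l with
  | [] => rfl
  | c :: l =>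
    have h1 := hx ((x * c) :: l)
    rw [hf.der, smul_add, hx (c :: l), smul_zero, add_zero] at h1
    simp only [gx, br, add_smul, mul_smul]
    rw [hx (c :: l), hx (x :: l), h1]
    simp

end

end Pool.Agent.MalEngel
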