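import Pool.Agent.MalEngel.Mod

/-!
The main theorem on Malcev algebras.
-/

namespace Pool.Agent.MalEngel

section
variable {F A : Type*} [Field F] [CharP F 2] [NonUnitalNonAssocRing A] [Module F A]
  [IsScalarTower F A A] [SMulCommClass F A A]

theorem add_self_A (F : Type*) {A : Type*} [Field F] [CharP F 2] [AddCommGroup A] [Module F A]
    (a : A) : a + a = 0 := by
  rw [← two_smul F a, CharTwo.two_eq_zero, zero_smul]

theorem cm_A (F : Type*) {A : Type*} [Field F] [CharP F 2] [NonUnitalNonAssocRing A] [Module F A]
    (h : IsMalcev A) (x y : A) : x * y = y * x := by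
  have h1 := h.sq (x + y)
  rw [mul_add, add_mul, add_mul, h.sq x, h.sq y, zero_add, add_zero] at h1
  have h2 := add_self_A F (y * x)
  have h3 : y * x + x * y = y * x + y * x := by rw [h1, h2]
  exact add_left_cancel h3

theorem lin_mal (h : IsMalcev A) (x w y z : A) :
    J x y (w * z) + J w y (x * z) = J x y z * w + J w y z * x := by
  have h1 := h.mal (x + w) y z
  have h2 := h.mal x y z
  have h3 := h.mal w y z
  simp only [J, mul_add, add_mul] at h1 h2 h3 ⊢
  rw [← sub_eq_zero] at h1 h2 h3 ⊢
  have := congrArg₂ (· - ·) (congrArg₂ (· - ·) h1 h2) h3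
  simp only [sub_zero] at this
  rw [← this]
  abel

/-- (B) for the multiplication operators, applied to `w`. -/
theorem B_apply (F : Type*) {A : Type*} [Field F] [CharP F 2] [NonUnitalNonAssocRing A] [Module F A]
    (h : IsMalcev A) (x y z w : A) :
    z * (y * (x * w) + (y * x) * w) + (y * (x * (z * w)) + (y * x) * (z * w))
      = ((y * z) * (x * w) + ((y * z) * x) * w) + (y * ((x * z) * w) + (y * (x * z)) * w) := by
  have c := cm_A F h
  have hl := lin_mal h w y z x
  have two := add_self_A F (A := A)
  simp only [J, add_mul, mul_add] at hl ⊢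
  have e1 : z * (y * (x * w)) = ((w * x) * y) * z := by rw [c z _, c y _, c x w]
  have e2 : z * ((y * x) * w) = ((y * x) * w) * z := c _ _
  have e3 : y * (x * (z * w)) = ((w * z) * x) * y := by rw [c y _, c x _, c z w]
  have e4 : (y * x) * (z * w) = (w * z) * (y * x) := by rw [c _ (z * w), c z w]
  have e5 : (y * z) * (x * w) = (y * z) * (w * x) := by rw [c x w]
  have e6 : y * ((x * z) * w) = ((z * x) * w) * y := by rw [c y _, c x z]
  have e7 : (y * (x * z)) * w = ((z * x) * y) * w := by rw [c y _, c x z]
  have e8 : (z * (y * x)) * w = ((x * y) * z) * w := by rw [c z _, c y x]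
  have e9 : (z * (w * x)) * y = ((x * w) * z) * y := by rw [c z _, c w x]
  rw [e1, e2, e3, e4, e5, e6, e7]
  rw [e8, e9] at hl
  have ng : ∀ a : A, -a = a := fun a => neg_eq_of_add_eq_zero_left (two a)
  rw [← sub_eq_zero] at hl ⊢
  simp only [sub_eq_add_neg, ng] at hl ⊢
  have t1 := two (((x * w) * z) * y)
  have t2 := two (((x * y) * z) * w)
  linear_combination (norm := abel) hl - t1 - t2

end

/-- `IsProd N b`: `b` is a product of `N` elements, with some arrangement of parentheses. -/
inductive IsProd {B : Type*} [Mul B] : ℕ → B → Prop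
  | one (b : B) : IsProd 1 b
  | mul {i j : ℕ} {a b : B} : IsProd i a → IsProd j b → IsProd (i + j) (a * b)

/-- Nilpotent algebras: for some `N ≥ 1` all products of `N` elements vanish. -/
def IsNilp (B : Type*) [Mul B] [Zero B] : Prop :=
  ∃ N : ℕ, 1 ≤ N ∧ ∀ b : B, IsProd N b → b = 0

/-- The ideal generated by all Jacobians. -/
def JI (A : Type*) [NonUnitalNonAssocRing A] : TwoSidedIdeal A :=
  TwoSidedIdeal.span {a : A | ∃ x y z : A, a = J x y z}

section
variable {F A : Type*} [Field F] [CharP F 2] [NonUnitalNonAssocRing A] [Module F A]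
  [IsScalarTower F A A] [SMulCommClass F A A]

/-- The algebra generated by the multiplication operators. -/
abbrev UU (F A : Type*) [Field F] [NonUnitalNonAssocRing A] [Module F A]
    [IsScalarTower F A A] [SMulCommClass F A A] : Subalgebra F (Module.End F A) :=
  Algebra.adjoin F (Set.range (fun a : A => LinearMap.mulLeft F a))

/-- The regular representation. -/
def RR (F A : Type*) [Field F] [NonUnitalNonAssocRing A] [Module F A]
    [IsScalarTower F A A] [SMulCommClass F A A] : A →+ UU F A where
  toFun a := ⟨LinearMap.mulLeft F a, Algebra.subset_adjoin ⟨a, rfl⟩⟩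
  map_zero' := by
    ext x
    simp
  map_add' a b := by
    ext x
    simp [add_mul]

omit [CharP F 2] in
theorem RR_smul (x w : A) : RR F A x • w = x * w := rfl

theorem RR_ctx (hA : IsMalcev A) {m : ℕ} (g : Fin m → A)
    (hgen : Submodule.span F (Set.range (Tr.ev g)) = ⊤) : Ctx F (RR F A) g where
  mal := hA
  cm := cm_A F hA
  two := by
    rw [← one_add_one_eq_two]
    ext w
    exact add_self_A F w
  two' := add_self_A F
  rep := by
    intro x y z
    ext w
    exact B_apply F hA x y z w
  smul c a := by
    ext w
    simp [RR, smul_mul_assoc]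
  gen := hgen
  adj := by
    have := Algebra.adjoin_adjoin_coe_preimage (R := F) (s := Set.range (fun a : A => LinearMap.mulLeft F a))
    have e : Set.range (RR F A) = Subtype.val ⁻¹' Set.range (fun a : A => LinearMap.mulLeft F a) := by
      ext u
      constructor
      · rintro ⟨a, rfl⟩
        exact ⟨a, rfl⟩
      · rintro ⟨a, ha⟩
        exact ⟨a, Subtype.ext ha⟩
    rw [e]
    exact this

theorem RR_prod (l : List A) (w : A) :
    (l.map (RR F A)).prod • w = l.foldr (fun a b => a * b) w := by
  induction l with
  | nil => simp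
  | cons a l ih =>
    rw [List.map_cons, List.prod_cons, mul_smul, ih, List.foldr_cons]
    rfl

theorem foldr_foldl (F : Type*) {A : Type*} [Field F] [CharP F 2] [NonUnitalNonAssocRing A]
    [Module F A] (hA : IsMalcev A) (l : List A) (w : A) :
    l.foldr (fun a b => a * b) w = l.reverse.foldl (fun a b => a * b) w := by
  rw [List.foldl_reverse]
  congr 1
  funext a b
  exact cm_A F hA a b

/-- Nilpotency from nilpotency of the multiplication operators. -/
theorem isNilp_of_words (F : Type*) {A : Type*} [Field F] [CharP F 2] [NonUnitalNonAssocRing A]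
    [Module F A] [IsScalarTower F A A] [SMulCommClass F A A] (hA : IsMalcev A) (K : ℕ)
    (hK : ∀ l : List A, l.length = K → ∀ w : A, (l.map (RR F A)).prod • w = 0) : IsNilp A := by
  have c := cm_A F hA
  -- a product of `2^d` elements is `words of length d` applied to something
  have key : ∀ d : ℕ, ∀ N : ℕ, 2 ^ d ≤ N → ∀ b : A, IsProd N b →
      ∃ (l : List A) (w : A), l.length = d ∧ b = (l.map (RR F A)).prod • w := by
    intro d
    induction d with
    | zero =>
      intro N _ b _
      exact ⟨[], b, rfl, by simp⟩
    | succ d ih =>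
      intro N hN b hb
      cases hb with
      | one b =>
        exfalso
        have : 2 ≤ 2 ^ (d + 1) := by
          rw [pow_succ]
          have := Nat.one_le_two_pow (n := d)
          omega
        omega
      | @mul i j a b' ha hb' =>
        have : 2 ^ d ≤ i ∨ 2 ^ d ≤ j := by
          by_contra hcon
          push Not at hcon
          rw [pow_succ] at hN
          omega
        rcases this with hi | hj
        · obtain ⟨l, w, hl, rfl⟩ := ih i hi a ha
          refine ⟨b' :: l, w, by simp [hl], ?_⟩
          rw [List.map_cons, List.prod_cons, mul_smul, RR_smul, c b']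
        · obtain ⟨l, w, hl, rfl⟩ := ih j hj b' hb'
          refine ⟨a :: l, w, by simp [hl], ?_⟩
          rw [List.map_cons, List.prod_cons, mul_smul, RR_smul]
  refine ⟨2 ^ K, Nat.one_le_two_pow, ?_⟩
  intro b hb
  obtain ⟨l, w, hl, rfl⟩ := key K (2 ^ K) le_rfl b hb
  exact hK l hl w

/-- Conversely nilpotent algebras have nilpotent multiplication operators. -/
theorem words_of_isNilp (F : Type*) {A : Type*} [Field F] [NonUnitalNonAssocRing A]
    [Module F A] [IsScalarTower F A A] [SMulCommClass F A A] (h : IsNilp A) :
    ∃ K : ℕ, ∀ l : List A, l.length = K → ∀ w : A, (l.map (RR F A)).prod • w = 0 := by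
  obtain ⟨N, hN, h0⟩ := h
  have key : ∀ l : List A, ∀ w : A, IsProd (l.length + 1) ((l.map (RR F A)).prod • w) := by
    intro l
    induction l with
    | nil =>
      intro w
      simpa using IsProd.one w
    | cons a l ih =>
      intro w
      rw [List.map_cons, List.prod_cons, mul_smul, RR_smul, List.length_cons]
      have := IsProd.mul (IsProd.one a) (ih w)
      rwa [add_comm 1] at this
  refine ⟨N - 1, ?_⟩
  intro l hl w
  have := key l w
  rw [hl, Nat.sub_add_cancel hN] at this
  exact h0 _ this

theorem annK_add {U W : Type*} [Ring U] [AddCommGroup W] [Module U W] {R : A →+ U} {a b : ℕ}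
    {v : W} (hv : (annK R W a).mkQ v ∈ annK R (W ⧸ annK R W a) b) : v ∈ annK R W (a + b) := by
  intro u l hl
  have h1 : l = l.take a ++ l.drop a := (List.take_append_drop _ _).symm
  rw [h1, List.map_append, List.prod_append, mul_smul]
  have h2 := hv u (l.drop a) (by rw [List.length_drop]; omega)
  rw [← map_smul, ← map_smul] at h2
  have h3 : ((l.drop a).map R).prod • u • v ∈ annK R W a := by
    have := LinearMap.mem_ker.mpr h2
    rwa [Submodule.ker_mkQ] at this
  have h4 := h3 1 (l.take a) (by rw [List.length_take]; omega)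
  rwa [one_smul] at h4

theorem main_J (hA : IsMalcev A) {m : ℕ} (hm : 2 ≤ m) (g : Fin m → A)
    (hgen : Submodule.span F (Set.range (Tr.ev g)) = ⊤) (n : ℕ)
    (hn : ∀ x : A, (RR F A x) ^ n = 0) :
    ∃ N : ℕ, ∀ x y z : A, J x y z ∈ annK (RR F A) A N := by
  have ctx := RR_ctx (F := F) hA g hgen
  have h := ctx.toStd
  have hreg : ∀ x w : A, RR F A x • w = x * w := RR_smul
  have hsc : ∀ (c : F) (w : A), algebraMap F (UU F A) c • w = c • w := fun c w => rfl
  have key : ∀ j i : ℕ, 2 ≤ i → m ≤ i + j →
      ∃ k : ℕ, ∀ l : List A, Cn (RR F A) i l ∈ annK (RR F A) A k := by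
    intro j
    induction j with
    | zero =>
      intro i _ hi
      refine ⟨0, ?_⟩
      intro l
      rw [Cn_vanish g h ctx.smul hreg hsc hgen i (by omega) l]
      exact zero_mem _
    | succ j ih =>
      intro i hi hij
      obtain ⟨k1, hk1⟩ := ih (i + 1) (by omega) (by omega)
      have hcl := Cn_cls h ctx.smul hreg hsc i
      set K := annK (RR F A) A k1 with hK
      have hf : AltDer F (RR F A) (i + 1) (fun l => K.mkQ (Cn (RR F A) i l)) := by
        refine ⟨⟨?_, ?_, ?_⟩, ?_, ?_, ?_⟩
        · intro l l' hl
          simp only [hcl.perm l l' hl]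
        · intro x y l
          simp only [hcl.add, map_add]
        · intro x l
          simp only [hcl.alt, map_zero]
        · intro l hl
          simp only [Cn_len i l hl, map_zero]
        · intro c x l
          simp only [hcl.smul, map_smul]
        · intro x y l
          have h0 := mkQ_zero K (hk1 (x :: y :: l))
          have h1 : Cn (RR F A) (i + 1) (x :: y :: l) = Cn (RR F A) i ((x * y) :: l)
              + RR F A y • Cn (RR F A) i (x :: l) + RR F A x • Cn (RR F A) i (y :: l) := rfl
          rw [h1, map_add, map_add, map_smul, map_smul] at h0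
          have t1 := h.ww (RR F A y • K.mkQ (Cn (RR F A) i (x :: l)))
          have t2 := h.ww (RR F A x • K.mkQ (Cn (RR F A) i (y :: l)))
          linear_combination (norm := abel) h0 - t1 - t2
      obtain ⟨k2, hk2⟩ := PP_all g hm ctx n hn m (i + 1) (by omega) (by omega) _ _ hf
      exact ⟨k1 + k2, fun l => annK_add (hk2 l)⟩
  obtain ⟨k, hk⟩ := key m 2 le_rfl (by omega)
  refine ⟨k, ?_⟩
  intro x y z
  rw [← Cn_two h hreg x y z]
  exact hk _

/-- The ideal of elements killed by long products. -/
def killIdeal (F A : Type*) [Field F] [CharP F 2] [NonUnitalNonAssocRing A] [Module F A]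
    [IsScalarTower F A A] [SMulCommClass F A A] (hA : IsMalcev A) (N : ℕ) : TwoSidedIdeal A :=
  TwoSidedIdeal.mk' (annK (RR F A) A N : Set A) (zero_mem _) (fun h1 h2 => add_mem h1 h2)
    (fun h => neg_mem h)
    (fun {x y} h => by
      have := (annK (RR F A) A N).smul_mem (RR F A x) h
      exact this)
    (fun {x y} h => by
      have := (annK (RR F A) A N).smul_mem (RR F A y) h
      rw [RR_smul, cm_A F hA] at this
      exact this)

theorem JI_le (hA : IsMalcev A) (N : ℕ) (hN : ∀ x y z : A, J x y z ∈ annK (RR F A) A N) (a : A)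
    (ha : a ∈ JI A) : a ∈ annK (RR F A) A N := by
  have h1 : JI A ≤ killIdeal F A hA N := by
    refine TwoSidedIdeal.span_le.mpr ?_
    rintro _ ⟨x, y, z, rfl⟩
    exact (TwoSidedIdeal.mem_mk' _ _ _ _ _ _ _).mpr (hN x y z)
  exact (TwoSidedIdeal.mem_mk' _ _ _ _ _ _ _).mp (h1 ha)

/-- Generating sets and monomials. -/
theorem gen_of_adjoin (S : Finset A) (hS : NonUnitalAlgebra.adjoin F (S : Set A) = ⊤) :
    ∃ m : ℕ, 2 ≤ m ∧ ∃ g : Fin m → A, Submodule.span F (Set.range (Tr.ev g)) = ⊤ := by
  classical
  set L : List A := S.toList ++ [0, 0] with hL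
  refine ⟨L.length, by simp [hL], L.get, ?_⟩
  set V : Submodule F A := Submodule.span F (Set.range (Tr.ev L.get)) with hV
  have hmul : ∀ a b : A, a ∈ V → b ∈ V → a * b ∈ V := by
    intro a b ha hb
    induction ha using Submodule.span_induction with
    | mem a ha =>
      obtain ⟨s, rfl⟩ := ha
      induction hb using Submodule.span_induction with
      | mem b hb =>
        obtain ⟨t, rfl⟩ := hb
        exact Submodule.subset_span ⟨Tr.node s t, rfl⟩
      | zero => rw [mul_zero]; exact zero_mem _
      | add x y _ _ hx hy => rw [mul_add]; exact add_mem hx hy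
      | smul c x _ hx => rw [mul_smul_comm]; exact V.smul_mem c hx
    | zero => rw [zero_mul]; exact zero_mem _
    | add x y _ _ hx hy => rw [add_mul]; exact add_mem hx hy
    | smul c x _ hx => rw [smul_mul_assoc]; exact V.smul_mem c hx
  let V' : NonUnitalSubalgebra F A :=
    { carrier := V
      add_mem' := fun h1 h2 => add_mem h1 h2
      zero_mem' := zero_mem _
      mul_mem' := fun h1 h2 => hmul _ _ h1 h2
      smul_mem' := fun c _ h => V.smul_mem c h }
  have hle : NonUnitalAlgebra.adjoin F (S : Set A) ≤ V' := by
    refine NonUnitalAlgebra.adjoin_le ?_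
    intro a ha
    have ha' : a ∈ L := by
      rw [hL, List.mem_append, Finset.mem_toList]
      exact Or.inl ha
    obtain ⟨i, hi⟩ := List.get_of_mem ha'
    exact Submodule.subset_span ⟨Tr.leaf i, hi⟩
  rw [eq_top_iff]
  intro a _
  have : a ∈ NonUnitalAlgebra.adjoin F (S : Set A) := by rw [hS]; trivial
  exact hle this

/-- Products lift along the quotient map. -/
theorem isProd_lift {B : Type*} [NonUnitalNonAssocRing B] (I : TwoSidedIdeal B) (N : ℕ)
    (b : I.ringCon.Quotient) (hb : IsProd N b) :
    ∃ a : B, IsProd N a ∧ (a : I.ringCon.Quotient) = b := by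
  induction hb with
  | one b =>
    obtain ⟨a, rfl⟩ := Quotient.exists_rep b
    exact ⟨a, IsProd.one a, rfl⟩
  | mul _ _ ha hb =>
    obtain ⟨a, h1, rfl⟩ := ha
    obtain ⟨b, h2, rfl⟩ := hb
    exact ⟨a * b, IsProd.mul h1 h2, rfl⟩

theorem isProd_map {B : Type*} [NonUnitalNonAssocRing B] (I : TwoSidedIdeal B) (N : ℕ)
    (b : B) (hb : IsProd N b) : IsProd N (b : I.ringCon.Quotient) := by
  induction hb with
  | one b => exact IsProd.one _
  | mul _ _ ha hb => exact IsProd.mul ha hb

theorem mk_eq_zero_iff {B : Type*} [NonUnitalNonAssocRing B] (I : TwoSidedIdeal B) (b : B) :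
    (b : I.ringCon.Quotient) = 0 ↔ b ∈ I := by
  rw [TwoSidedIdeal.mem_iff]
  exact RingCon.eq I.ringCon

theorem isNilp_iff (hA : IsMalcev A) (N : ℕ) (hN : ∀ x y z : A, J x y z ∈ annK (RR F A) A N) :
    IsNilp A ↔ IsNilp (JI A).ringCon.Quotient := by
  constructor
  · rintro ⟨M, hM, h⟩
    refine ⟨M, hM, ?_⟩
    intro b hb
    obtain ⟨a, ha, rfl⟩ := isProd_lift _ M b hb
    rw [h a ha]
    rfl
  · rintro ⟨M, hM, h⟩
    have key : ∀ l : List A, ∀ w : A, IsProd (l.length + 1) ((l.map (RR F A)).prod • w) := by
      intro l
      induction l with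
      | nil =>
        intro w
        simpa using IsProd.one w
      | cons a l ih =>
        intro w
        rw [List.map_cons, List.prod_cons, mul_smul, RR_smul, List.length_cons]
        have := IsProd.mul (IsProd.one a) (ih w)
        rwa [add_comm 1] at this
    refine isNilp_of_words F hA (N + (M - 1)) ?_
    intro l hl w
    have h1 : l = l.take N ++ l.drop N := (List.take_append_drop _ _).symm
    rw [h1, List.map_append, List.prod_append, mul_smul]
    have h2 := key (l.drop N) w
    have hlen : (l.drop N).length + 1 = M := by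
      rw [List.length_drop]
      omega
    rw [hlen] at h2
    have h3 := h _ (isProd_map _ M _ h2)
    rw [mk_eq_zero_iff] at h3
    have h4 := JI_le hA N hN _ h3
    have h5 := h4 1 (l.take N) (by rw [List.length_take]; omega)
    rwa [one_smul] at h5

/-- The case where `c_x = 0`. -/
theorem isNilp_of_co (hA : IsMalcev A) {m : ℕ} (hm : 2 ≤ m) (g : Fin m → A)
    (hgen : Submodule.span F (Set.range (Tr.ev g)) = ⊤)
    (hc : ∀ x y : A, co (RR F A) x y = 0) : IsNilp A := by
  obtain ⟨K, hK⟩ := nil_of_co g hm (RR_ctx (F := F) hA g hgen) hc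
  refine isNilp_of_words F hA K ?_
  intro l hl w
  rw [hK l hl, zero_smul]

theorem iterate_RR (hA : IsMalcev A) (n : ℕ) (x y : A) :
    ((fun w => w * x)^[n]) y = (RR F A x) ^ n • y := by
  induction n with
  | zero => simp
  | succ n ih =>
    rw [Function.iterate_succ_apply', ih, pow_succ', mul_smul, RR_smul, cm_A F hA]

theorem RR_pow_zero (hA : IsMalcev A) (n : ℕ)
    (hn : ∀ x y : A, ((fun w => w * x)^[n]) y = 0) (x : A) : (RR F A x) ^ n = 0 := by
  ext y
  have := hn x y
  rw [iterate_RR (F := F) hA] at this
  exact this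

/-- Small Engel degree. -/
theorem co_small (hA : IsMalcev A) (n : ℕ) (hn : ∀ x : A, (RR F A x) ^ n = 0)
    (hsm : n ≤ 2 ∨ (n = 3 ∧ ∃ c : F, c ≠ 0 ∧ c ≠ 1)) (x y : A) : co (RR F A) x y = 0 := by
  have uu : ∀ u : UU F A, u + u = 0 := by
    intro u
    ext w
    exact add_self_A F _
  have two : (2 : UU F A) = 0 := by rw [← one_add_one_eq_two, uu]
  rcases hsm with h2 | ⟨rfl, c, hc0, hc1⟩
  · -- `X * X = 0` for all `x`
    have hsq : ∀ x : A, RR F A x * RR F A x = 0 := by
      intro x
      have := hn x
      have e : RR F A x * RR F A x = (RR F A x) ^ n * (RR F A x) ^ (2 - n) := by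
        rw [← pow_add, show n + (2 - n) = 2 by omega, pow_two]
      rw [e, this, zero_mul]
    have h1 := hsq (x + y)
    have h3 := hsq x
    have h4 := hsq y
    simp only [map_add, add_mul, mul_add] at h1
    unfold co
    have e : RR F A x * RR F A y + RR F A y * RR F A x = 0 := by
      linear_combination (norm := noncomm_ring) h1 - h3 - h4
    have a1 : RR F A x * RR F A x * RR F A y = 0 := by rw [h3, zero_mul]
    have a3 : RR F A y * RR F A x * RR F A x = 0 := by rw [mul_assoc, h3, mul_zero]
    have a2 : RR F A x * RR F A y * RR F A x + RR F A y * RR F A x * RR F A x = 0 := by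
      rw [← add_mul, e, zero_mul]
    rw [a3, add_zero] at a2
    rw [a1, a2, a3, add_zero, add_zero]
  · have hcube : ∀ x : A, RR F A x * RR F A x * RR F A x = 0 := by
      intro x
      have := hn x
      rw [pow_succ, pow_two] at this
      exact this
    have hs : ∀ (c : F) (a : A), RR F A (c • a) = c • RR F A a := by
      intro c a
      ext w
      simp [RR, smul_mul_assoc]
    have e1 : co (RR F A) x y + co (RR F A) y x = 0 := by
      have h1 := hcube (x + y)
      have h2 := hcube x
      have h3 := hcube y
      simp only [map_add, add_mul, mul_add] at h1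
      unfold co
      linear_combination (norm := noncomm_ring) h1 - h2 - h3
    have e2 : c • co (RR F A) y x + (c * c) • co (RR F A) x y = 0 := by
      have h1 := hcube (c • x + y)
      have h2 := hcube x
      have h3 := hcube y
      simp only [map_add, hs, add_mul, mul_add, smul_mul_assoc, mul_smul_comm, smul_add,
        smul_smul, mul_assoc] at h1
      unfold co
      simp only [smul_add]
      have h4 : (c * (c * c)) • (RR F A x * (RR F A x * RR F A x)) = 0 := by
        rw [← mul_assoc (RR F A x), h2, smul_zero]
      rw [mul_assoc] at h3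
      simp only [mul_assoc]
      linear_combination (norm := abel) h1 - h4 - h3
    have e3 : co (RR F A) y x = co (RR F A) x y := by
      have h5 := uu (co (RR F A) x y)
      have : co (RR F A) x y + co (RR F A) y x = co (RR F A) x y + co (RR F A) x y := by
        rw [e1, h5]
      exact add_left_cancel this
    rw [e3, ← add_smul] at e2
    have hne : c + c * c ≠ 0 := by
      have : c + c * c = c * (1 + c) := by ring
      rw [this]
      refine mul_ne_zero hc0 ?_
      intro h0
      apply hc1
      have h6 : (1 : F) + 1 = 0 := by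
        rw [one_add_one_eq_two]
        exact CharTwo.two_eq_zero
      have : (1 : F) + c = 1 + 1 := by rw [h0, h6]
      exact add_left_cancel this
    exact (smul_eq_zero.mp e2).resolve_left hne

end

end Pool.Agent.MalEngel
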