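import Pool.Agent.MalEngel.Alg
import Pool.Agent.MalEngel.Closure
import Pool.Agent.MalEngel.Forms

/-!
Assembly: every alternating multiderivation of arity ≥ 3 is killed by long products of letters.
-/

namespace Pool.Agent.MalEngel

universe u w

section
variable {F A : Type*} {U : Type u} {W : Type w} [Field F] [NonUnitalNonAssocRing A] [Module F A]
  [IsScalarTower F A A] [SMulCommClass F A A] [Ring U] [Algebra F U] [AddCommGroup W] [Module U W]
  {R : A →+ U}

/-- The submodule of vectors killed by all products of `k` letters (stable version). -/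
def annK (R : A →+ U) (W : Type w) [AddCommGroup W] [Module U W] (k : ℕ) : Submodule U W where
  carrier := {v | ∀ (u : U) (l : List A), l.length = k → (l.map R).prod • u • v = 0}
  add_mem' := by
    intro a b ha hb u l hl
    rw [smul_add, smul_add, ha u l hl, hb u l hl, add_zero]
  zero_mem' := by
    intro u l _
    simp
  smul_mem' := by
    intro c v hv u l hl
    rw [← mul_smul u c v]
    exact hv (u * c) l hl

theorem annK_kill {k : ℕ} {v : W} (hv : v ∈ annK R W k) (l : List A) (hl : k ≤ l.length) :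
    (l.map R).prod • v = 0 := by
  have h1 : l = l.take (l.length - k) ++ l.drop (l.length - k) := (List.take_append_drop _ _).symm
  rw [h1, List.map_append, List.prod_append, mul_smul]
  have := hv 1 (l.drop (l.length - k)) (by rw [List.length_drop]; omega)
  rw [one_smul] at this
  rw [this, smul_zero]

theorem annK_of_words {m : ℕ} (g : Fin m → A) (ctx : Ctx F R g) {k : ℕ} {v : W}
    (hv : ∀ l : List A, l.length = k → (l.map R).prod • v = 0) : v ∈ annK R W k := by
  -- all words of length ≥ k kill v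
  have hge : ∀ l : List A, k ≤ l.length → (l.map R).prod • v = 0 := by
    intro l hl
    have h1 : l = l.take (l.length - k) ++ l.drop (l.length - k) := (List.take_append_drop _ _).symm
    rw [h1, List.map_append, List.prod_append, mul_smul]
    rw [hv (l.drop (l.length - k)) (by rw [List.length_drop]; omega), smul_zero]
  intro u l hl
  have hu := nilp_words g ctx u
  induction hu using Submodule.span_induction with
  | mem x hx =>
    obtain ⟨s, rfl⟩ := hx
    have := hge (l ++ s) (by simp; omega)
    rwa [List.map_append, List.prod_append, mul_smul] at this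
  | zero => simp
  | add x y _ _ hx hy => rw [add_smul, smul_add, hx, hy, add_zero]
  | smul c x _ hx =>
    rw [Algebra.smul_def, mul_smul, ← mul_smul _ (algebraMap F U c), ← Algebra.commutes, mul_smul,
      hx, smul_zero]

/-- The two-sided ideal generated by the `c_x(y)`. -/
def gI (R : A →+ U) (x : A) : Ideal U := tsp (Set.range (co R x))

instance gI_two (x : A) : (gI R x).IsTwoSided := tsp_two _

/-- Some power of `I` kills `M`. -/
def QP (I : Ideal U) (M : Submodule U W) : Prop := ∃ N : ℕ, I ^ N • M = ⊥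

theorem QP_ext (I : Ideal U) [I.IsTwoSided] (K M : Submodule U W) (h1 : QP I (M.map K.mkQ))
    (h2 : QP I K) : QP I M := by
  obtain ⟨a, ha⟩ := h1
  obtain ⟨b, hb⟩ := h2
  refine ⟨b + a, ?_⟩
  have hle : I ^ a • M ≤ K := by
    rw [← Submodule.map_smul''] at ha
    have := LinearMap.le_ker_iff_map.mpr ha
    rwa [Submodule.ker_mkQ] at this
  rw [Ideal.IsTwoSided.pow_add, Submodule.mul_smul]
  rw [eq_bot_iff, ← hb]
  exact Submodule.smul_mono le_rfl hle

theorem QP_bot (I : Ideal U) : QP I (⊥ : Submodule U W) := ⟨0, by simp⟩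

theorem gI_annK {m : ℕ} (g : Fin m → A) (ctx : Ctx F R g) {k : ℕ} (x : A) : gI R x • annK R W (k + 1) ≤ annK R W k := by
  rw [Submodule.smul_le]
  intro r hr v hv
  unfold gI tsp at hr
  induction hr using Submodule.span_induction with
  | mem r hr =>
    obtain ⟨s, ⟨y, rfl⟩, t, rfl⟩ := hr
    have hv' : t • v ∈ annK R W (k + 1) := (annK R W (k + 1)).smul_mem t hv
    rw [mul_smul]
    refine annK_of_words g ctx ?_
    intro l hl
    have e1 := annK_kill hv' (l ++ [x, x, y]) (by simp [hl])
    have e2 := annK_kill hv' (l ++ [x, y, x]) (by simp [hl])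
    have e3 := annK_kill hv' (l ++ [y, x, x]) (by simp [hl])
    simp only [List.map_append, List.map_cons, List.map_nil, List.prod_append, List.prod_cons,
      List.prod_nil, mul_one, mul_smul] at e1 e2 e3
    simp only [co, add_smul, mul_smul, smul_add, e1, e2, e3, add_zero]
  | zero => simp
  | add a b _ _ ha hb => rw [add_smul]; exact (annK R W k).add_mem ha hb
  | smul c a _ ha => rw [smul_assoc]; exact (annK R W k).smul_mem c ha

theorem QP_annK {m : ℕ} (g : Fin m → A) (ctx : Ctx F R g) (k : ℕ) (x : A) :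
    QP (gI R x) (annK R W k) := by
  refine ⟨k, ?_⟩
  induction k with
  | zero =>
    rw [eq_bot_iff]
    intro v hv
    have hle : (gI R x ^ 0 • annK R W 0 : Submodule U W) ≤ annK R W 0 := by
      rw [Submodule.smul_le]
      intro r _ w hw
      exact (annK R W 0).smul_mem r hw
    have := annK_kill (hle hv) [] (by simp)
    simpa using this
  | succ k ih =>
    rw [Ideal.IsTwoSided.pow_add, Submodule.pow_one, Submodule.mul_smul, eq_bot_iff, ← ih]
    exact Submodule.smul_mono le_rfl (gI_annK g ctx x)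

/-- Composition of a form with a module map. -/
theorem AltDer.map {W' : Type*} [AddCommGroup W'] [Module U W'] {r : ℕ} {f : List A → W}
    (hf : AltDer F R r f) (φ : W →ₗ[U] W') : AltDer F R r (fun l => φ (f l)) where
  perm l l' h := by rw [hf.perm l l' h]
  add x y l := by rw [hf.add, map_add]
  alt x l := by rw [hf.alt, map_zero]
  len l h := by rw [hf.len l h, map_zero]
  smul c x l := by rw [hf.smul, map_smul]
  der x y l := by rw [hf.der, map_add, map_smul, map_smul]

theorem Uf_map {W' : Type*} [AddCommGroup W'] [Module U W'] (f : List A → W) (φ : W →ₗ[U] W')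
    (l : List A) : Uf R (fun l => φ (f l)) l = φ (Uf R f l) := by
  unfold Uf
  split <;> simp

theorem gx_map {W' : Type*} [AddCommGroup W'] [Module U W'] (x : A) (f : List A → W)
    (φ : W →ₗ[U] W') (l : List A) : gx R x (fun l => φ (f l)) l = φ (gx R x f l) := by
  unfold gx
  split <;> simp

theorem sig_map {W' : Type*} [AddCommGroup W'] [Module U W'] (f : List A → W)
    (φ : W →ₗ[U] W') (l : List A) : sig R (fun l => φ (f l)) l = φ (sig R f l) := by
  unfold sig
  split <;> simp

theorem tx_map {W' : Type*} [AddCommGroup W'] [Module U W'] (x : A) (f : List A → W)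
    (φ : W →ₗ[U] W') (l : List A) : tx R x (fun l => φ (f l)) l = φ (tx R x f l) := by
  unfold tx
  split <;> simp

/-- The submodule generated by the values of a form. -/
def sp (f : List A → W) : Submodule U W := Submodule.span U (Set.range f)

theorem sp_map {W' : Type*} [AddCommGroup W'] [Module U W'] (f : List A → W)
    (φ : W →ₗ[U] W') : (sp (fun l => φ (f l)) : Submodule U W') = (sp f).map φ := by
  unfold sp
  rw [Submodule.map_span, ← Set.range_comp]
  rfl

/-- Statement: every alternating multiderivation of arity `r` is killed by long words. -/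
def PP (F : Type*) {A : Type*} {U : Type u} [Field F] [NonUnitalNonAssocRing A] [Module F A]
    [Ring U] [Algebra F U] (R : A →+ U) (r : ℕ) : Prop :=
  ∀ (W : Type w) [AddCommGroup W] [Module U W] (f : List A → W), AltDer F R r f →
    ∃ k : ℕ, ∀ l : List A, f l ∈ annK R W k

theorem QP_form_zero (I : Ideal U) (f : List A → W) (hf : ∀ l, f l = 0) :
    QP I (sp f : Submodule U W) := by
  have : (sp f : Submodule U W) = ⊥ := by
    unfold sp
    rw [Submodule.span_eq_bot]
    rintro _ ⟨l, rfl⟩
    exact hf l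
  rw [this]
  exact QP_bot I

/-- Pass to the quotient by a submodule with `QP`. -/
theorem QP_step (I : Ideal U) [I.IsTwoSided] (K : Submodule U W) (f : List A → W) (h2 : QP I K)
    (h1 : QP I (sp (fun l => K.mkQ (f l)) : Submodule U (W ⧸ K))) :
    QP I (sp f : Submodule U W) := by
  rw [sp_map] at h1
  exact QP_ext I K (sp f) h1 h2

theorem mkQ_zero (K : Submodule U W) {v : W} (hv : v ∈ K) : K.mkQ v = 0 := by
  simpa using hv

/-- Case `U_f = 0`, `g_x = 0`. -/
theorem Kstep1 {m : ℕ} (g : Fin m → A) (ctx : Ctx F R g) {r : ℕ} (hr : 3 ≤ r)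
    (IH : ∀ r' : ℕ, r < r' → PP.{u, w} F R r') (x : A)
    (W : Type w) [AddCommGroup W] [Module U W] (f : List A → W) (hf : AltDer F R r f)
    (hU : ∀ l, Uf R f l = 0) (hg : ∀ l, gx R x f l = 0) :
    QP (gI R x) (sp f : Submodule U W) := by
  have h := ctx.toStd
  have hS : ∀ (a b c : A) (l : List A), So R a b c • f l = 0 :=
    fun a b c l => Sf h f (by omega) hf hU a b c l
  have hc : ∀ (y : A) (l : List A), co R x y • f l = 0 := by
    intro y l
    rw [star h f hr hf hU x y l, hg l, smul_zero]
  -- kill σ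
  obtain ⟨k1, hk1⟩ := IH (r + 4) (by omega) W (sig R f) (sig_altDer h ctx.smul f (by omega) hf hS)
  refine QP_step (gI R x) (annK R W k1) f (QP_annK g ctx k1 x) ?_
  set f1 : List A → W ⧸ annK R W k1 := fun l => (annK R W k1).mkQ (f l) with hf1d
  have hf1 : AltDer F R r f1 := hf.map _
  have hS1 : ∀ (a b c : A) (l : List A), So R a b c • f1 l = 0 := by
    intro a b c l
    rw [hf1d, ← map_smul, hS, map_zero]
  have hc1 : ∀ (y : A) (l : List A), co R x y • f1 l = 0 := by
    intro y l
    rw [hf1d, ← map_smul, hc, map_zero]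
  have hSS1 : ∀ (a b c v : A) (l : List A), So R a b c • R v • f1 l = 0 := by
    intro a b c v l
    have : sig R f1 (a :: b :: c :: v :: l) = 0 := by
      rw [hf1d, sig_map]
      exact mkQ_zero _ (hk1 _)
    exact this
  clear_value f1
  -- kill t
  obtain ⟨k2, hk2⟩ := IH (r + 2) (by omega) _ (tx R x f1)
    (tx_altDer h ctx.smul f1 (by omega) hf1 x hS1 hSS1 hc1)
  refine QP_step (gI R x) (annK R _ k2) f1 (QP_annK g ctx k2 x) ?_
  set f2 : List A → (W ⧸ annK R W k1) ⧸ annK R (W ⧸ annK R W k1) k2 :=
    fun l => (annK R _ k2).mkQ (f1 l) with hf2d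
  have hS2 : ∀ (a b c : A) (l : List A), So R a b c • f2 l = 0 := by
    intro a b c l
    rw [hf2d, ← map_smul, hS1, map_zero]
  have hc2 : ∀ (y : A) (l : List A), co R x y • f2 l = 0 := by
    intro y l
    rw [hf2d, ← map_smul, hc1, map_zero]
  have hSS2 : ∀ (a b c v : A) (l : List A), So R a b c • R v • f2 l = 0 := by
    intro a b c v l
    rw [hf2d, ← map_smul, ← map_smul, hSS1, map_zero]
  have hcc2 : ∀ (y v : A) (l : List A), co R x y • R v • f2 l = 0 := by
    intro y v l
    have : tx R x f2 (y :: v :: l) = 0 := by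
      rw [hf2d, tx_map]
      exact mkQ_zero _ (hk2 _)
    exact this
  clear_value f2
  refine ⟨1, ?_⟩
  rw [Submodule.pow_one, eq_bot_iff, Submodule.smul_le]
  intro i hi v hv
  unfold gI tsp at hi
  unfold sp at hv
  -- first show `co x y • u • v = 0` for v in the span
  have key : ∀ v ∈ Submodule.span U (Set.range f2), ∀ (u : U) (y : A), co R x y • u • v = 0 := by
    intro v hv
    induction hv using Submodule.span_induction with
    | mem v hv =>
      obtain ⟨l, rfl⟩ := hv
      intro u y
      exact closure_co h ctx.adj x (f2 l) (fun a b c => hS2 a b c l) (fun a b c v => hSS2 a b c v l)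
        (fun y => hc2 y l) (fun y v => hcc2 y v l) u y
    | zero => intro u y; simp
    | add a b _ _ ha hb => intro u y; rw [smul_add, smul_add, ha, hb, add_zero]
    | smul c a _ ha => intro u y; rw [← mul_smul u c]; exact ha (u * c) y
  rw [Submodule.mem_bot]
  induction hi using Submodule.span_induction with
  | mem i hi =>
    obtain ⟨s, ⟨y, rfl⟩, t, rfl⟩ := hi
    rw [mul_smul]
    exact key v hv t y
  | zero => simp
  | add a b _ _ ha hb => rw [add_smul, ha, hb, add_zero]
  | smul c a _ ha => rw [smul_assoc, ha, smul_zero]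

theorem Kx_main {m : ℕ} (g : Fin m → A) (ctx : Ctx F R g) {r : ℕ} (hr : 3 ≤ r)
    (IH : ∀ r' : ℕ, r < r' → PP.{u, w} F R r') (x : A) (ν : ℕ) :
    ∀ (W : Type w) [AddCommGroup W] [Module U W] (f : List A → W), AltDer F R r f →
      (∀ l, (R x) ^ ν • f l = 0) → QP (gI R x) (sp f : Submodule U W) := by
  have h := ctx.toStd
  induction ν using Nat.strong_induction_on with
  | _ ν ihν =>
  intro W _ _ f hf hx
  -- step 0: kill U_f
  obtain ⟨k0, hk0⟩ := IH (r + 2) (by omega) W (Uf R f) (Uf_altDer h ctx.smul f hr hf)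
  refine QP_step (gI R x) (annK R W k0) f (QP_annK g ctx k0 x) ?_
  set f0 : List A → W ⧸ annK R W k0 := fun l => (annK R W k0).mkQ (f l) with hf0d
  have hf0 : AltDer F R r f0 := hf.map _
  have hU0 : ∀ l, Uf R f0 l = 0 := by
    intro l
    rw [hf0d, Uf_map]
    exact mkQ_zero _ (hk0 l)
  have hx0 : ∀ l, (R x) ^ ν • f0 l = 0 := by
    intro l
    rw [hf0d, ← map_smul, hx l, map_zero]
  clear_value f0
  -- step 1: `g_x`
  have hgd : AltDer F R r (gx R x f0) := gx_altDer h ctx.smul f0 hr hf0 hU0 x
  have hQg : QP (gI R x) (sp (gx R x f0) : Submodule U (W ⧸ annK R W k0)) := by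
    by_cases hν : ν ≤ 1
    · refine QP_form_zero _ _ (gx_zero h f0 hf0 x ?_)
      intro l
      have := hx0 l
      interval_cases ν
      · rw [pow_zero, one_smul] at this
        rw [this, smul_zero]
      · rwa [pow_one] at this
    · by_cases hν2 : ν = 2
      · subst hν2
        refine ihν 1 (by omega) _ (gx R x f0) hgd ?_
        intro l
        rw [pow_one, x_gx h f0 hr hf0 x l]
        have := hx0 l
        rw [mul_smul (R x * R x) (R x), ← pow_two, ← mul_smul, ← pow_succ, pow_succ', mul_smul, this,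
          smul_zero]
      · refine ihν (ν - 2) (by omega) _ (gx R x f0) hgd ?_
        intro l
        obtain ⟨j, rfl⟩ : ∃ j, ν = j + 3 := ⟨ν - 3, by omega⟩
        have e : j + 3 - 2 = j + 1 := by omega
        rw [e, pow_succ, mul_smul, x_gx h f0 hr hf0 x l, ← mul_smul]
        have := hx0 l
        have e2 : (R x) ^ (j + 3) = (R x) ^ j * (R x * R x * R x) := by
          rw [pow_add, pow_succ, pow_two]
        rw [e2] at this
        exact this
  -- step 2: pass to the quotient by `<g>`
  refine QP_step (gI R x) (sp (gx R x f0)) f0 hQg ?_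
  refine Kstep1 g ctx hr IH x _ _ (hf0.map _) ?_ ?_
  · intro l
    rw [Uf_map, hU0, map_zero]
  · intro l
    rw [gx_map]
    exact mkQ_zero _ (Submodule.subset_span ⟨l, rfl⟩)

/-- Elements of the two-sided ideal generated by the image lift. -/
theorem tsp_lift {U' : Type*} [Ring U'] (π : U →+* U') (hπ : Function.Surjective π) (S : Set U)
    (z : U') (hz : z ∈ tsp (π '' S)) : ∃ y ∈ tsp S, π y = z := by
  unfold tsp at hz
  induction hz using Submodule.span_induction with
  | mem z hz =>
    obtain ⟨_, ⟨s, hs, rfl⟩, v, rfl⟩ := hz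
    obtain ⟨v', rfl⟩ := hπ v
    exact ⟨s * v', Ideal.subset_span ⟨s, hs, v', rfl⟩, map_mul _ _ _⟩
  | zero => exact ⟨0, zero_mem _, map_zero _⟩
  | add a b _ _ ha hb =>
    obtain ⟨a', ha', rfl⟩ := ha
    obtain ⟨b', hb', rfl⟩ := hb
    exact ⟨a' + b', add_mem ha' hb', map_add _ _ _⟩
  | smul c a _ ha =>
    obtain ⟨a', ha', rfl⟩ := ha
    obtain ⟨c', rfl⟩ := hπ c
    exact ⟨c' * a', Ideal.mul_mem_left _ _ ha', by rw [map_mul]; rfl⟩

theorem tsp_pow_lift {U' : Type*} [Ring U'] (π : U →+* U') (hπ : Function.Surjective π) (S : Set U)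
    (N : ℕ) : ∀ z : U', z ∈ (tsp (π '' S)) ^ N → ∃ y ∈ (tsp S) ^ N, π y = z := by
  induction N with
  | zero =>
    intro z _
    obtain ⟨y, rfl⟩ := hπ z
    refine ⟨y, ?_, rfl⟩
    rw [Submodule.pow_zero, Ideal.one_eq_top]
    exact Submodule.mem_top
  | succ N ih =>
    intro z hz
    rw [Ideal.IsTwoSided.pow_add, Submodule.pow_one] at hz
    rw [Ideal.IsTwoSided.pow_add, Submodule.pow_one]
    refine Submodule.mul_induction_on hz ?_ ?_
    · intro a ha b hb
      obtain ⟨a', ha', rfl⟩ := ih a ha
      obtain ⟨b', hb', rfl⟩ := tsp_lift π hπ S b hb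
      exact ⟨a' * b', Ideal.mul_mem_mul ha' hb', map_mul _ _ _⟩
    · rintro _ _ ⟨a', ha', rfl⟩ ⟨b', hb', rfl⟩
      exact ⟨a' + b', add_mem ha' hb', map_add _ _ _⟩

/-- The main induction step. -/
theorem PP_step {m : ℕ} (g : Fin m → A) (hm : 2 ≤ m) (ctx : Ctx F R g) (n : ℕ)
    (hn : ∀ x : A, (R x) ^ n = 0) {r : ℕ} (hr : 3 ≤ r)
    (IH : ∀ r' : ℕ, r < r' → PP.{u, w} F R r') : PP.{u, w} F R r := by
  intro W _ _ f hf
  have hQ : ∀ x : A, QP (gI R x) (sp f : Submodule U W) := by
    intro x
    exact Kx_main g ctx hr IH x n W f hf (fun l => by rw [hn x, zero_smul])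
  -- the annihilator of the submodule generated by `f`
  set V : Submodule U W := sp f with hV
  set I0 : Ideal U := Module.annihilator U V with hI0
  set R' : A →+ U ⧸ I0 := (Ideal.Quotient.mk I0).toAddMonoidHom.comp R with hR'
  have ctx' : Ctx F R' g := Ctx.quot g ctx I0
  have himg : ∀ x : A, (Ideal.Quotient.mk I0) '' (Set.range (co R x)) = Set.range (co R' x) := by
    intro x
    rw [← Set.range_comp]
    congr 1
  -- each `tsp (range (co R' x))` is nilpotent
  have hnil : ∀ x : A, ∃ N : ℕ, (tsp (Set.range (co R' x))) ^ N = ⊥ := by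
    intro x
    obtain ⟨N, hN⟩ := hQ x
    refine ⟨N, ?_⟩
    rw [eq_bot_iff]
    intro z hz
    rw [← himg x] at hz
    obtain ⟨y, hy, rfl⟩ := tsp_pow_lift (Ideal.Quotient.mk I0) Ideal.Quotient.mk_surjective _ N z hz
    rw [Submodule.mem_bot, Ideal.Quotient.eq_zero_iff_mem, hI0, Module.mem_annihilator]
    intro v
    have : y • (v : W) ∈ (gI R x) ^ N • V := Submodule.smul_mem_smul hy v.2
    rw [hN, Submodule.mem_bot] at this
    exact Subtype.ext this
  -- words are in the sum of these ideals
  set T : Set (U ⧸ I0) := {u | ∃ x y : A, u = co R' x y} with hT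
  set R'' : A →+ (U ⧸ I0) ⧸ tsp T := (Ideal.Quotient.mk (tsp T)).toAddMonoidHom.comp R' with hR''
  have ctx'' : Ctx F R'' g := Ctx.quot g ctx' (tsp T)
  have hc'' : ∀ x y : A, co R'' x y = 0 := by
    intro x y
    have : co R' x y ∈ tsp T := Ideal.subset_span ⟨co R' x y, ⟨x, y, rfl⟩, 1, by simp⟩
    have := Ideal.Quotient.eq_zero_iff_mem.mpr this
    rw [← this]
    simp [co, hR'']
  obtain ⟨K, hK⟩ := nil_of_co g hm ctx'' hc''
  obtain ⟨B, hB⟩ := fg g ctx'
  have hle : tsp T ≤ ⨆ x : A, tsp (Set.range (co R' x)) := by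
    unfold tsp
    refine Ideal.span_le.mpr ?_
    rintro u ⟨s, ⟨x, y, rfl⟩, v, rfl⟩
    have : co R' x y * v ∈ Ideal.span {u | ∃ s ∈ Set.range (co R' x), ∃ v, u = s * v} :=
      Ideal.subset_span ⟨co R' x y, ⟨y, rfl⟩, v, rfl⟩
    exact (le_iSup (fun x : A => Ideal.span {u | ∃ s ∈ Set.range (co R' x), ∃ v, u = s * v}) x) this
  obtain ⟨K', hK'⟩ := nil_of_iSup B hB (fun x : A => tsp (Set.range (co R' x))) hnil K (by
    intro l hl
    have := hK l hl
    rw [hR'', prod_mk, Ideal.Quotient.eq_zero_iff_mem] at this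
    exact hle this)
  refine ⟨K', ?_⟩
  intro z
  refine annK_of_words g ctx ?_
  intro l hl
  have := hK' l hl
  rw [hR', prod_mk, Ideal.Quotient.eq_zero_iff_mem, hI0, Module.mem_annihilator] at this
  have h2 := this ⟨f z, Submodule.subset_span ⟨z, rfl⟩⟩
  exact congrArg Subtype.val h2

/-- Every alternating multiderivation of arity ≥ 3 is killed by long words. -/
theorem PP_all {m : ℕ} (g : Fin m → A) (hm : 2 ≤ m) (ctx : Ctx F R g) (n : ℕ)
    (hn : ∀ x : A, (R x) ^ n = 0) : ∀ (j r : ℕ), 3 ≤ r → m + 1 ≤ r + j → PP.{u, w} F R r := by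
  intro j
  induction j with
  | zero =>
    intro r hr hj W _ _ f hf
    refine ⟨0, ?_⟩
    intro l
    rw [AltDer.vanish g ctx.gen (by omega) f hf l]
    exact zero_mem _
  | succ j ih =>
    intro r hr hj
    exact PP_step g hm ctx n hn hr (fun r' hr' => ih r' (by omega) (by omega))

end

end Pool.Agent.MalEngel
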