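import Pool.Agent.MalEngel.FG

/-!
ROW MAL-NILP.  Quotients of the context and the nilpotency lemma.
-/

namespace Pool.Agent.MalEngel

section
variable {F A U : Type*} [Field F] [NonUnitalNonAssocRing A] [Module F A]
  [Ring U] [Algebra F U] {R : A →+ U}

/-- The context passes to the quotient by a two-sided ideal. -/
theorem Ctx.quot {m : ℕ} (g : Fin m → A) (ctx : Ctx F R g) (I : Ideal U) [I.IsTwoSided] :
    Ctx F ((Ideal.Quotient.mk I).toAddMonoidHom.comp R) g := by
  refine
    { mal := ctx.mal
      cm := ctx.cm
      two := ?_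
      two' := ctx.two'
      rep := ?_
      smul := ?_
      gen := ctx.gen
      adj := ?_ }
  · have := congrArg (Ideal.Quotient.mk I) ctx.two
    rw [map_ofNat, map_zero] at this
    exact this
  · intro x y z
    have := congrArg (Ideal.Quotient.mk I) (ctx.rep x y z)
    simp only [map_add, map_mul] at this
    exact this
  · intro c a
    change Ideal.Quotient.mk I (R (c • a)) = c • Ideal.Quotient.mk I (R a)
    rw [ctx.smul]
    exact map_smul (Ideal.Quotient.mkₐ F I) c (R a)
  · have h1 := AlgHom.map_adjoin (Ideal.Quotient.mkₐ F I) (Set.range R)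
    rw [ctx.adj, Algebra.map_top] at h1
    have h2 : (Ideal.Quotient.mkₐ F I).range = ⊤ := by
      rw [AlgHom.range_eq_top]
      exact Ideal.Quotient.mkₐ_surjective F I
    rw [h2, ← Set.range_comp] at h1
    exact h1.symm

/-- The two-sided ideal generated by a set (as a left ideal). -/
def tsp (S : Set U) : Ideal U := Ideal.span {u | ∃ s ∈ S, ∃ v : U, u = s * v}

instance tsp_two (S : Set U) : (tsp S).IsTwoSided := by
  refine ⟨?_⟩
  intro a b ha
  unfold tsp at ha ⊢
  induction ha using Submodule.span_induction with
  | mem x hx =>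
    obtain ⟨s, hs, v, rfl⟩ := hx
    exact Ideal.subset_span ⟨s, hs, v * b, mul_assoc _ _ _⟩
  | zero => rw [zero_mul]; exact Ideal.zero_mem _
  | add x y _ _ hx hy => rw [add_mul]; exact Ideal.add_mem _ hx hy
  | smul u x _ hx =>
    rw [smul_eq_mul, mul_assoc]
    exact Ideal.mul_mem_left _ _ hx

/-- A power of an ideal vanishes if all products of elements vanish. -/
theorem nilp_of_prod (I : Ideal U) (N : ℕ)
    (h : ∀ l : List U, l.length = N → (∀ x ∈ l, x ∈ I) → l.prod = 0) : I ^ N = ⊥ := by
  have key : ∀ n : ℕ, ∀ z ∈ I ^ n, ∀ l : List U, l.length + n = N → (∀ x ∈ l, x ∈ I) →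
      z * l.prod = 0 := by
    intro n
    induction n with
    | zero =>
      intro z _ l hl hx
      rw [h l (by omega) hx, mul_zero]
    | succ n ih =>
      intro z hz l hl hx
      rw [Submodule.pow_succ] at hz
      induction hz using Submodule.mul_induction_on' with
      | mem_mul_mem r hr s hs =>
        have := ih r hr (s :: l) (by rw [List.length_cons]; omega) (by
          intro x hx'
          rcases List.mem_cons.1 hx' with rfl | hx'
          · exact hs
          · exact hx x hx')
        rw [List.prod_cons, ← mul_assoc] at this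
        exact this
      | add x _ y _ hx' hy' => rw [add_mul, hx', hy', add_zero]
  rw [eq_bot_iff]
  intro z hz
  have := key N z hz [] (by simp) (by simp)
  rw [List.prod_nil, mul_one] at this
  exact this

theorem nilp_prod_mem (I : Ideal U) : ∀ l : List U, (∀ x ∈ l, x ∈ I) → l.prod ∈ I ^ l.length := by
  intro l
  induction l with
  | nil =>
    intro _
    rw [List.length_nil, Submodule.pow_zero, Ideal.one_eq_top]
    trivial
  | cons x l ih =>
    intro hx
    rw [List.prod_cons, List.length_cons]
    rcases Nat.eq_zero_or_pos l.length with h0 | h0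
    · rw [List.length_eq_zero_iff] at h0
      subst h0
      rw [List.prod_nil, mul_one, List.length_nil, zero_add, Submodule.pow_one]
      exact hx x (by simp)
    · rw [Submodule.pow_succ' _ h0.ne']
      exact Ideal.mul_mem_mul (hx x (by simp)) (ih fun y hy => hx y (by simp [hy]))

/-- Finite (indeed any finite) suprema of nilpotent two-sided ideals are nilpotent:
`(I ⊔ J)^n ≤ I ⊔ J^n`. -/
theorem nilp_sup (I K : Ideal U) [I.IsTwoSided] [K.IsTwoSided] (a b : ℕ) (hI : I ^ a = ⊥)
    (hK : K ^ b = ⊥) : ∃ n, (I ⊔ K) ^ n = ⊥ := by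
  have key : ∀ n : ℕ, (I ⊔ K) ^ n ≤ I ⊔ K ^ n := by
    intro n
    induction n with
    | zero =>
      rw [Submodule.pow_zero, Submodule.pow_zero]
      exact le_sup_right
    | succ n ih =>
      rw [Submodule.pow_succ, Submodule.pow_succ]
      refine (Ideal.mul_mono_left ih).trans ?_
      rw [Ideal.sup_mul]
      refine sup_le ?_ ?_
      · exact Ideal.mul_le_left.trans le_sup_left
      · rw [Ideal.mul_sup]
        exact sup_le (Ideal.mul_le_right.trans le_sup_left) le_sup_right
  have hb : (I ⊔ K) ^ b ≤ I := by
    have := key b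
    rw [hK, sup_bot_eq] at this
    exact this
  refine ⟨b * a, nilp_of_prod _ _ ?_⟩
  have hI0 : ∀ l : List U, l.length = a → (∀ x ∈ l, x ∈ I) → l.prod = 0 := by
    intro l hl hx
    have := nilp_prod_mem I l hx
    rw [hl, hI] at this
    exact this
  -- split the list into blocks
  have blocks : ∀ (a : ℕ) (l : List U), l.length = b * a → (∀ x ∈ l, x ∈ I ⊔ K) →
      ∃ l' : List U, l'.length = a ∧ (∀ x ∈ l', x ∈ I) ∧ l'.prod = l.prod := by
    intro a
    induction a with
    | zero =>
      intro l hl hx
      rw [Nat.mul_zero, List.length_eq_zero_iff] at hl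
      subst hl
      exact ⟨[], rfl, by simp, rfl⟩
    | succ a ih =>
      intro l hl hx
      obtain ⟨l', h1, h2, h3⟩ := ih (l.drop b) (by
        rw [List.length_drop, hl, Nat.mul_succ, Nat.add_sub_cancel])
        (fun x hx' => hx x (List.mem_of_mem_drop hx'))
      refine ⟨(l.take b).prod :: l', by rw [List.length_cons, h1], ?_, ?_⟩
      · intro x hx'
        rcases List.mem_cons.1 hx' with rfl | hx'
        · have := nilp_prod_mem (I ⊔ K) (l.take b) (fun x hx' => hx x (List.mem_of_mem_take hx'))
          rw [List.length_take, hl, min_eq_left (by rw [Nat.mul_succ]; omega)] at this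
          exact hb this
        · exact h2 x hx'
      · rw [List.prod_cons, h3, List.prod_take_mul_prod_drop]
  intro l hl hx
  obtain ⟨l', h1, h2, h3⟩ := blocks a l hl hx
  rw [← h3]
  exact hI0 l' h1 h2

theorem nilp_two_sup (I K : Ideal U) [I.IsTwoSided] [K.IsTwoSided] : (I ⊔ K).IsTwoSided := by
  refine ⟨?_⟩
  intro a b ha
  obtain ⟨x, hx, y, hy, rfl⟩ := Submodule.mem_sup.1 ha
  rw [add_mul]
  exact Ideal.add_mem _ (Ideal.mem_sup_left (I.mul_mem_right b hx))
    (Ideal.mem_sup_right (K.mul_mem_right b hy))

theorem nilp_iSup {ι : Type*} (I : ι → Ideal U) [∀ i, (I i).IsTwoSided]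
    (hI : ∀ i, ∃ k : ℕ, (I i) ^ k = ⊥) (S : Finset ι) :
    (⨆ i ∈ S, I i).IsTwoSided ∧ ∃ k : ℕ, (⨆ i ∈ S, I i) ^ k = ⊥ := by
  classical
  induction S using Finset.induction_on with
  | empty =>
    simp only [Finset.notMem_empty, iSup_false, iSup_bot]
    refine ⟨⟨fun {a} b ha => ?_⟩, 1, Submodule.pow_one _⟩
    rw [Ideal.mem_bot] at ha ⊢
    rw [ha, zero_mul]
  | insert j S _ ih =>
    rw [Finset.iSup_insert]
    obtain ⟨h1, k, hk⟩ := ih
    obtain ⟨a, ha⟩ := hI j
    exact ⟨nilp_two_sup _ _, nilp_sup _ _ a k ha hk⟩

/-
If all products of `K` letters lie in `⨆ I i` with each `I i` nilpotent, then all products of `K'`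
letters vanish.  Proof: products of K letters from the finite set B: finitely many, so they lie in
`⨆ i ∈ S, I i` for a finite S (`Submodule.mem_iSup_iff_exists_finset` or similar), call it `I_S`,
a two-sided ideal with `I_S^N = ⊥`.  A product of K arbitrary letters is a combination of products
of ≥ K letters from B (use `hB`), each of which is (product of K letters from B) * (rest) ∈ I_S.
So a product of K*N letters is a product of N elements of I_S, in `I_S^N = ⊥`.
-/
theorem nil_of_iSup {ι : Type*} (B : Finset A) (hB : ∀ a : A, R a ∈ wordSpan F R (B : Set A))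
    (I : ι → Ideal U) [∀ i, (I i).IsTwoSided] (hI : ∀ i, ∃ k : ℕ, (I i) ^ k = ⊥)
    (K : ℕ) (hK : ∀ l : List A, l.length = K → (l.map R).prod ∈ ⨆ i, I i) :
    ∃ K' : ℕ, ∀ l : List A, l.length = K' → (l.map R).prod = 0 := by
  classical
  -- a finite set of indices
  have hS : ∃ S : Finset ι, ∀ v : Fin K → B,
      ((List.ofFn fun i => (v i : A)).map R).prod ∈ ⨆ i ∈ S, I i := by
    choose T hT using fun v : Fin K → B => Submodule.mem_iSup_iff_exists_finset.1
      (hK (List.ofFn fun i => (v i : A)) (List.length_ofFn))
    refine ⟨Finset.univ.biUnion T, fun v => ?_⟩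
    refine (iSup₂_mono' fun i hi => ⟨i, ?_, le_rfl⟩ : (⨆ i ∈ T v, I i) ≤ _) (hT v)
    exact Finset.mem_biUnion.2 ⟨v, Finset.mem_univ v, hi⟩
  obtain ⟨S, hS⟩ := hS
  obtain ⟨htwo, N, hN⟩ := nilp_iSup I hI S
  set L : Ideal U := ⨆ i ∈ S, I i with hL
  -- words in B of length at least K
  have hword : ∀ l : List A, (∀ b ∈ l, b ∈ (B : Set A)) → K ≤ l.length → (l.map R).prod ∈ L := by
    intro l hl hlen
    have h1 : (l.take K) = List.ofFn (fun i : Fin K => l[(i : ℕ)]'(by omega)) := by
      apply List.ext_getElem
      · simp [hlen]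
      · intro i h1 h2
        simp
    have h2 : ((l.take K).map R).prod ∈ L := by
      rw [h1]
      exact hS (fun i => ⟨l[(i : ℕ)]'(by omega), hl _ (List.getElem_mem _)⟩)
    have h3 : (l.map R).prod = ((l.take K).map R).prod * ((l.drop K).map R).prod := by
      rw [← List.prod_append, ← List.map_append, List.take_append_drop]
    rw [h3]
    exact L.mul_mem_right _ h2
  -- products of letters are combinations of long words
  have hspan : ∀ l : List A, (l.map R).prod ∈ Submodule.span F
      {u : U | ∃ l' : List A, l.length ≤ l'.length ∧ (∀ b ∈ l', b ∈ (B : Set A)) ∧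
        u = (l'.map R).prod} := by
    intro l
    induction l with
    | nil => exact Submodule.subset_span ⟨[], le_rfl, by simp, rfl⟩
    | cons a l ih =>
      rw [List.map_cons, List.prod_cons]
      have ha := hB a
      unfold wordSpan at ha
      have := Submodule.mul_mem_mul ha ih
      rw [Submodule.span_mul_span] at this
      refine Submodule.span_mono ?_ this
      rintro _ ⟨u, ⟨l1, h1, h2, rfl⟩, v, ⟨l2, h3, h4, rfl⟩, rfl⟩
      refine ⟨l1 ++ l2, ?_, ?_, ?_⟩
      · rw [List.length_append, List.length_cons]
        have : 0 < l1.length := List.length_pos_of_ne_nil h1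
        omega
      · intro b hb
        rcases List.mem_append.1 hb with h | h
        · exact h2 b h
        · exact h4 b h
      · rw [List.map_append, List.prod_append]
  have hLK : ∀ l : List A, l.length = K → (l.map R).prod ∈ L := by
    intro l hl
    have h1 := hspan l
    rw [hl] at h1
    generalize (l.map R).prod = z at h1
    induction h1 using Submodule.span_induction with
    | mem x hx =>
      obtain ⟨l', h2, h3, rfl⟩ := hx
      exact hword l' h3 h2
    | zero => exact L.zero_mem
    | add x y _ _ hx hy => exact L.add_mem hx hy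
    | smul c x _ hx =>
      rw [Algebra.smul_def]
      exact L.mul_mem_left _ hx
  refine ⟨K * N, ?_⟩
  have blocks : ∀ (N : ℕ) (l : List A), l.length = K * N →
      ∃ l' : List U, l'.length = N ∧ (∀ x ∈ l', x ∈ L) ∧ l'.prod = (l.map R).prod := by
    intro N
    induction N with
    | zero =>
      intro l hl
      rw [Nat.mul_zero, List.length_eq_zero_iff] at hl
      subst hl
      exact ⟨[], rfl, by simp, rfl⟩
    | succ a ih =>
      intro l hl
      obtain ⟨l', h1, h2, h3⟩ := ih (l.drop K) (by
        rw [List.length_drop, hl, Nat.mul_succ, Nat.add_sub_cancel])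
      refine ⟨((l.take K).map R).prod :: l', by rw [List.length_cons, h1], ?_, ?_⟩
      · intro x hx'
        rcases List.mem_cons.1 hx' with rfl | hx'
        · apply hLK
          rw [List.length_take, hl, min_eq_left (by rw [Nat.mul_succ]; omega)]
        · exact h2 x hx'
      · rw [List.prod_cons, h3, ← List.prod_append, ← List.map_append, List.take_append_drop]
  intro l hl
  obtain ⟨l', h1, h2, h3⟩ := blocks N l hl
  rw [← h3]
  have := nilp_prod_mem L l' h2
  rw [h1, hN] at this
  exact this

theorem nilp_words {m : ℕ} (g : Fin m → A) (ctx : Ctx F R g) (a : U) :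
    a ∈ Submodule.span F {u : U | ∃ w : List A, u = (w.map R).prod} := by
  have h1 : a ∈ Subalgebra.toSubmodule (Algebra.adjoin F (Set.range R)) := by
    rw [ctx.adj]
    trivial
  rw [Algebra.adjoin_eq_span] at h1
  refine Submodule.span_mono ?_ h1
  intro u hu
  induction hu using Submonoid.closure_induction with
  | mem x hx =>
    obtain ⟨b, rfl⟩ := hx
    exact ⟨[b], by simp⟩
  | one => exact ⟨[], by simp⟩
  | mul x y _ _ hx hy =>
    obtain ⟨w1, rfl⟩ := hx
    obtain ⟨w2, rfl⟩ := hy
    exact ⟨w1 ++ w2, by rw [List.map_append, List.prod_append]⟩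

theorem nilp_ext {m : ℕ} (g : Fin m → A) (ctx : Ctx F R g) (P : U) : ∀ (j : ℕ) (z : U),
    (∀ ws : List (List A), ws.length = j →
      z * (ws.map (fun w => (w.map R).prod * P)).prod = 0) →
    ∀ as : List U, as.length = j → z * (as.map (fun a => a * P)).prod = 0 := by
  intro j
  induction j with
  | zero =>
    intro z h as has
    rw [List.length_eq_zero_iff] at has
    subst has
    exact h [] rfl
  | succ j ih =>
    intro z h as has
    obtain ⟨a, as, rfl⟩ := List.exists_cons_of_length_eq_add_one has
    have has' : as.length = j := by rw [List.length_cons] at has; omega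
    clear has
    rw [List.map_cons, List.prod_cons, ← mul_assoc]
    refine ih (z * (a * P)) ?_ as has'
    intro ws hws
    have ha := nilp_words g ctx a
    induction ha using Submodule.span_induction with
    | mem x hx =>
      obtain ⟨w, rfl⟩ := hx
      have := h (w :: ws) (by rw [List.length_cons, hws])
      rw [List.map_cons, List.prod_cons, ← mul_assoc] at this
      exact this
    | zero => simp
    | add x y _ _ hx hy => rw [add_mul, mul_add, add_mul, hx, hy, add_zero]
    | smul c x _ hx =>
      rw [Algebra.smul_mul_assoc, Algebra.mul_smul_comm, Algebra.smul_mul_assoc, hx, smul_zero]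

/-
`P a₁ P a₂ ... P = 0` for words a_i implies the two-sided ideal generated by P is nilpotent.
Since `Algebra.adjoin F (range R) = ⊤`, `U` is the F-span of the words `(l.map R).prod`.
Proof: let Z_j = {z | for all lists ws of j words, z * ∏ (w * P) = 0}.  If z ∈ Z_{j+1} then
z * a * P ∈ Z_j for all a ∈ U (linear in a, true for words).  So with z = P ∈ Z_k:
P a₁ P ... a_k P = 0 for arbitrary a_i ∈ U.  Then `I^(k+1) = ⊥`.
-/
theorem nilp_tsp {m : ℕ} (g : Fin m → A) (ctx : Ctx F R g) (P : U) (k : ℕ)
    (hP : ∀ ws : List (List A), ws.length = k →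
      P * (ws.map (fun w => (w.map R).prod * P)).prod = 0) :
    ∃ n : ℕ, (tsp {P}) ^ n = ⊥ := by
  have h1 := nilp_ext g ctx P k P hP
  have h2 : ∀ (j : ℕ) (z : U), (∀ as : List U, as.length = j →
      z * (as.map (fun a => a * P)).prod = 0) → ∀ (a : U) (l : List U), l.length = j →
      (∀ x ∈ l, x ∈ tsp {P}) → z * a * l.prod = 0 := by
    intro j
    induction j with
    | zero =>
      intro z h a l hl hx
      have := h [] rfl
      rw [List.map_nil, List.prod_nil, mul_one] at this
      rw [this, zero_mul, zero_mul]
    | succ j ih =>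
      intro z h a l hl hx
      obtain ⟨x, l, rfl⟩ := List.exists_cons_of_length_eq_add_one hl
      have hx1 := hx x (by simp)
      have hl' : l.length = j := by rw [List.length_cons] at hl; omega
      have hx2 : ∀ y ∈ l, y ∈ tsp {P} := fun y hy => hx y (by simp [hy])
      rw [List.prod_cons, ← mul_assoc]
      clear hx hl
      unfold tsp at hx1
      induction hx1 using Submodule.span_induction generalizing a with
      | mem x hx =>
        obtain ⟨s, hs, v, rfl⟩ := hx
        rw [Set.mem_singleton_iff] at hs
        subst hs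
        have := ih (z * (a * s)) (by
          intro as has
          have := h (a :: as) (by rw [List.length_cons, has])
          rw [List.map_cons, List.prod_cons, ← mul_assoc] at this
          exact this) v l hl' hx2
        rw [← mul_assoc (z * a) s v, mul_assoc z a s]
        exact this
      | zero => simp
      | add x y _ _ hx hy => rw [mul_add, add_mul, hx, hy, add_zero]
      | smul u x _ hx =>
        rw [smul_eq_mul, ← mul_assoc, mul_assoc z a u]
        exact hx (a * u)
  refine ⟨k + 1, nilp_of_prod _ _ ?_⟩
  intro l hl hx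
  obtain ⟨x, l, rfl⟩ := List.exists_cons_of_length_eq_add_one hl
  have hx1 := hx x (by simp)
  have hl' : l.length = k := by rw [List.length_cons] at hl; omega
  have hx2 : ∀ y ∈ l, y ∈ tsp {P} := fun y hy => hx y (by simp [hy])
  rw [List.prod_cons]
  clear hx hl
  unfold tsp at hx1
  induction hx1 using Submodule.span_induction with
  | mem x hx =>
    obtain ⟨s, hs, v, rfl⟩ := hx
    rw [Set.mem_singleton_iff] at hs
    subst hs
    exact h2 k s h1 v l hl' hx2
  | zero => simp
  | add x y _ _ hx hy => rw [add_mul, hx, hy, add_zero]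
  | smul u x _ hx => rw [smul_eq_mul, mul_assoc, hx, mul_zero]

end

end Pool.Agent.MalEngel
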