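import Pool.Agent.MalEngel.Main

/-!
Engel degree at most four over fields with more than two elements.
-/

namespace Pool.Agent.MalEngel

universe u

section
variable {F A : Type*} {U : Type u} [Field F] [NonUnitalNonAssocRing A] [Module F A]
  [IsScalarTower F A A] [SMulCommClass F A A] [Ring U] [Algebra F U] {R : A →+ U}

theorem nil_of_gI {m : ℕ} (g : Fin m → A) (hm : 2 ≤ m) (ctx : Ctx F R g)
    (hnil : ∀ x : A, ∃ N : ℕ, (gI R x) ^ N = ⊥) :
    ∃ K' : ℕ, ∀ l : List A, l.length = K' → (l.map R).prod = 0 := by
  set T : Set U := {u | ∃ x y : A, u = co R x y} with hT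
  set R'' : A →+ U ⧸ tsp T := (Ideal.Quotient.mk (tsp T)).toAddMonoidHom.comp R with hR''
  have ctx'' : Ctx F R'' g := Ctx.quot g ctx (tsp T)
  have hc'' : ∀ x y : A, co R'' x y = 0 := by
    intro x y
    have : co R x y ∈ tsp T := Ideal.subset_span ⟨co R x y, ⟨x, y, rfl⟩, 1, by simp⟩
    have := Ideal.Quotient.eq_zero_iff_mem.mpr this
    rw [← this]
    simp [co, hR'']
  obtain ⟨K, hK⟩ := nil_of_co g hm ctx'' hc''
  obtain ⟨B, hB⟩ := fg g ctx
  have hle : tsp T ≤ ⨆ x : A, gI R x := by
    unfold gI tsp
    refine Ideal.span_le.mpr ?_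
    rintro u ⟨s, ⟨x, y, rfl⟩, v, rfl⟩
    have : co R x y * v ∈ Ideal.span {u | ∃ s ∈ Set.range (co R x), ∃ v, u = s * v} :=
      Ideal.subset_span ⟨co R x y, ⟨y, rfl⟩, v, rfl⟩
    exact (le_iSup (fun x : A => Ideal.span {u | ∃ s ∈ Set.range (co R x), ∃ v, u = s * v}) x) this
  exact nil_of_iSup B hB (fun x : A => gI R x) hnil K (by
    intro l hl
    have := hK l hl
    rw [hR'', prod_mk, Ideal.Quotient.eq_zero_iff_mem] at this
    exact hle this)

end

section
variable {F A : Type*} [Field F] [CharP F 2] [NonUnitalNonAssocRing A] [Module F A]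
  [IsScalarTower F A A] [SMulCommClass F A A]

theorem uuU (u : UU F A) : u + u = 0 := by
  ext w
  exact add_self_A F _

omit [CharP F 2] in
theorem RR_hs (c : F) (a : A) : RR F A (c • a) = c • RR F A a := by
  ext w
  simp [RR, smul_mul_assoc]

/-- Linearisation of `X ^ 4 = 0` over a field with more than two elements. -/
theorem T4 (hn : ∀ x : A, (RR F A x) ^ 4 = 0) (c : F) (hc0 : c ≠ 0) (hc1 : c ≠ 1) (x y : A) :
    RR F A x * RR F A x * RR F A x * RR F A y + RR F A x * RR F A x * RR F A y * RR F A x
      + RR F A x * RR F A y * RR F A x * RR F A x + RR F A y * RR F A x * RR F A x * RR F A x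
      = 0 := by
  set X := RR F A x with hX
  set Y := RR F A y with hY
  set T1 := X * X * X * Y + X * X * Y * X + X * Y * X * X + Y * X * X * X with hT1
  set T2 := X * X * Y * Y + X * Y * X * Y + X * Y * Y * X + Y * X * X * Y + Y * X * Y * X
    + Y * Y * X * X with hT2
  set T3 := X * Y * Y * Y + Y * X * Y * Y + Y * Y * X * Y + Y * Y * Y * X with hT3
  have hX4 : X * X * X * X = 0 := by
    have := hn x
    rw [← hX] at this
    rw [← this]
    noncomm_ring
  have hY4 : Y * Y * Y * Y = 0 := by
    have := hn y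
    rw [← hY] at this
    rw [← this]
    noncomm_ring
  have key : ∀ d : F, d ≠ 0 → T1 + d • T2 + (d * d) • T3 = 0 := by
    intro d hd
    have h1 : (X + d • Y) ^ 4 = 0 := by
      have := hn (x + d • y)
      rwa [map_add, RR_hs, ← hX, ← hY] at this
    have h2 : (X + d • Y) ^ 4 = X * X * X * X + d • (T1 + d • T2 + (d * d) • T3)
        + (d * d * d * d) • (Y * Y * Y * Y) := by
      rw [show (4 : ℕ) = 2 + 2 from rfl, pow_add, pow_two]
      rw [hT1, hT2, hT3]
      simp only [add_mul, mul_add, smul_mul_assoc, mul_smul_comm, smul_add, smul_smul, mul_assoc]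
      abel
    rw [h1, hX4, hY4, smul_zero, add_zero, zero_add] at h2
    exact (smul_eq_zero.mp h2.symm).resolve_left hd
  have k1 := key 1 one_ne_zero
  have k2 := key c hc0
  have k3 := key (1 + c) (by
    intro h0
    apply hc1
    have h6 : (1 : F) + 1 = 0 := by
      rw [one_add_one_eq_two]
      exact CharTwo.two_eq_zero
    have : (1 : F) + c = 1 + 1 := by rw [h0, h6]
    exact add_left_cancel this)
  rw [one_smul, mul_one, one_smul] at k1
  have e : (1 + c) * (1 + c) = 1 + c * c := by
    have : (1 + c) * (1 + c) = 1 + c * c + 2 * c := by ring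
    rw [this, CharTwo.two_eq_zero, zero_mul, add_zero]
  rw [e, add_smul, add_smul, one_smul, one_smul] at k3
  have k4 : T2 + T3 = 0 := by
    have t1 := uuU (F := F) (A := A) T1
    have t2 := uuU (F := F) (A := A) (c • T2)
    have t3 := uuU (F := F) (A := A) ((c * c) • T3)
    linear_combination (norm := abel) k2 + k3 - t1 - t2 - t3
  linear_combination (norm := abel) k1 - k4

omit [CharP F 2] in
/-- Linearisation of a cubic condition. -/
theorem cub_lin (V : Submodule (UU F A) A) (z : A)
    (hz : ∀ x w : A, (RR F A z * RR F A x * RR F A x * RR F A x) • w ∈ V)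
    (c : F) (hc0 : c ≠ 0) (hc1 : c ≠ 1) (x y w : A) : (RR F A z * co (RR F A) x y) • w ∈ V := by
  have hVF : ∀ (d : F) (v : A), v ∈ V → d • v ∈ V := fun d v hv =>
    V.smul_mem (algebraMap F (UU F A) d) hv
  set Z := RR F A z with hZ
  set X := RR F A x with hX
  set Y := RR F A y with hY
  set t1 := (Z * co (RR F A) x y) • w with ht1
  set t2 := (Z * co (RR F A) y x) • w with ht2
  have key : ∀ d : F, d ≠ 0 → t1 + d • t2 ∈ V := by
    intro d hd
    have h1 := hz (x + d • y) w
    rw [map_add, RR_hs, ← hX, ← hY] at h1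
    have h2 : (Z * (X + d • Y) * (X + d • Y) * (X + d • Y)) • w = (Z * X * X * X) • w
        + d • (t1 + d • t2) + (d * (d * d)) • ((Z * Y * Y * Y) • w) := by
      rw [ht1, ht2]
      unfold co
      rw [← hX, ← hY]
      simp only [add_mul, mul_add, smul_mul_assoc, mul_smul_comm, smul_add, smul_smul, mul_assoc,
        add_smul, smul_assoc]
      abel
    rw [h2] at h1
    have h3 := hz x w
    have h4 := hVF (d * (d * d)) _ (hz y w)
    rw [← hX] at h3
    rw [← hY] at h4
    have h5 : d • (t1 + d • t2) ∈ V := by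
      have h6 := sub_mem (sub_mem h1 h4) h3
      have h7 : (Z * X * X * X) • w + d • (t1 + d • t2) + (d * (d * d)) • ((Z * Y * Y * Y) • w)
          - (d * (d * d)) • ((Z * Y * Y * Y) • w) - (Z * X * X * X) • w = d • (t1 + d • t2) := by
        abel
      rw [h7] at h6
      exact h6
    have h8 := hVF d⁻¹ _ h5
    rwa [inv_smul_smul₀ hd] at h8
  have k1 := key 1 one_ne_zero
  have k2 := key c hc0
  rw [one_smul] at k1
  have h9 : (1 - c) • t2 ∈ V := by
    have := sub_mem k1 k2
    have e : t1 + t2 - (t1 + c • t2) = (1 - c) • t2 := by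
      rw [sub_smul, one_smul]
      abel
    rwa [e] at this
  have hne : (1 - c) ≠ 0 := sub_ne_zero.mpr (Ne.symm hc1)
  have h10 : t2 ∈ V := by
    have := hVF (1 - c)⁻¹ _ h9
    rwa [inv_smul_smul₀ hne] at this
  have := sub_mem k1 h10
  rwa [add_sub_cancel_right] at this

theorem lie_mod (F : Type*) {A : Type*} [Field F] [CharP F 2] [NonUnitalNonAssocRing A] [Module F A]
    [IsScalarTower F A A] [SMulCommClass F A A] (hA : IsMalcev A) (V : Submodule (UU F A) A)
    (hV : ∀ x y z : A, J x y z ∈ V) (a b u : A) :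
    (a * b) * u - (a * (b * u) + b * (a * u)) ∈ V := by
  have cm := cm_A F hA
  have two := add_self_A F (A := A)
  have ng : ∀ a : A, -a = a := fun a => neg_eq_of_add_eq_zero_left (two a)
  have h1 := hV a b u
  have e : J a b u = (a * b) * u - (a * (b * u) + b * (a * u)) := by
    unfold J
    rw [cm (b * u) a, cm u a, cm (a * u) b, sub_eq_add_neg, ng, add_assoc]
  rwa [e] at h1

omit [CharP F 2] in
theorem hcong (V : Submodule (UU F A) A) (a : A) {u v : A} (h : u - v ∈ V) :
    a * u - a * v ∈ V := by
  have := V.smul_mem (RR F A a) h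
  rw [RR_smul, mul_sub] at this
  exact this

/-- The adjoint action of `b (c w)` modulo Jacobians. -/
theorem ad2 (F : Type*) {A : Type*} [Field F] [CharP F 2] [NonUnitalNonAssocRing A] [Module F A]
    [IsScalarTower F A A] [SMulCommClass F A A] (hA : IsMalcev A) (V : Submodule (UU F A) A)
    (hV : ∀ x y z : A, J x y z ∈ V) (b c w u : A) :
    (b * (c * w)) * u - (b * (c * (w * u)) + b * (w * (c * u)) + c * (w * (b * u))
      + w * (c * (b * u))) ∈ V := by
  have a1 := lie_mod F hA V hV b (c * w) u
  have a2 := hcong V b (lie_mod F hA V hV c w u)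
  have a3 := lie_mod F hA V hV c w (b * u)
  have a4 := add_mem (add_mem a1 a2) a3
  rw [mul_add] at a4
  have e : (b * (c * w)) * u - (b * (c * (w * u)) + b * (w * (c * u)) + c * (w * (b * u))
      + w * (c * (b * u))) = b * (c * w) * u - (b * (c * w * u) + c * w * (b * u)) +
          (b * (c * w * u) - (b * (c * (w * u)) + b * (w * (c * u)))) +
          (c * w * (b * u) - (c * (w * (b * u)) + w * (c * (b * u)))) := by
    abel
  rw [e]
  exact a4

/-- The adjoint action of `a (b (c w))` modulo Jacobians. -/
theorem ad3 (F : Type*) {A : Type*} [Field F] [CharP F 2] [NonUnitalNonAssocRing A] [Module F A]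
    [IsScalarTower F A A] [SMulCommClass F A A] (hA : IsMalcev A) (V : Submodule (UU F A) A)
    (hV : ∀ x y z : A, J x y z ∈ V) (a b c w z : A) :
    (a * (b * (c * w))) * z - (a * (b * (c * (w * z))) + a * (b * (w * (c * z)))
      + a * (c * (w * (b * z))) + a * (w * (c * (b * z))) + b * (c * (w * (a * z)))
      + b * (w * (c * (a * z))) + c * (w * (b * (a * z))) + w * (c * (b * (a * z)))) ∈ V := by
  have a1 := lie_mod F hA V hV a (b * (c * w)) z
  have a2 := hcong V a (ad2 F hA V hV b c w z)
  have a3 := ad2 F hA V hV b c w (a * z)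
  have a4 := add_mem (add_mem a1 a2) a3
  simp only [mul_add] at a4
  have e : (a * (b * (c * w))) * z - (a * (b * (c * (w * z))) + a * (b * (w * (c * z)))
      + a * (c * (w * (b * z))) + a * (w * (c * (b * z))) + b * (c * (w * (a * z)))
      + b * (w * (c * (a * z))) + c * (w * (b * (a * z))) + w * (c * (b * (a * z))))
      = a * (b * (c * w)) * z - (a * (b * (c * w) * z) + b * (c * w) * (a * z)) +
        (a * (b * (c * w) * z) - (a * (b * (c * (w * z))) + a * (b * (w * (c * z)))
          + a * (c * (w * (b * z))) + a * (w * (c * (b * z))))) +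
        (b * (c * w) * (a * z) - (b * (c * (w * (a * z))) + b * (w * (c * (a * z)))
          + c * (w * (b * (a * z))) + w * (c * (b * (a * z))))) := by
    abel
  rw [e]
  exact a4

/-- If `X ^ 4 = 0` and `|F| > 2`, then `z (x (x (x w)))` lies in every submodule containing the
Jacobians. -/
theorem quart_mem (hA : IsMalcev A) (V : Submodule (UU F A) A) (hV : ∀ x y z : A, J x y z ∈ V)
    (hn : ∀ x : A, (RR F A x) ^ 4 = 0) (c : F) (hc0 : c ≠ 0) (hc1 : c ≠ 1) (z x w : A) :
    (RR F A z * RR F A x * RR F A x * RR F A x) • w ∈ V := by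
  have cm := cm_A F hA
  have two := add_self_A F (A := A)
  have b4 := ad3 F hA V hV x x x w z
  have h4 := congrArg (fun u : UU F A => u • z) (T4 hn c hc0 hc1 x w)
  simp only [add_smul, mul_smul, RR_smul, zero_smul] at h4
  rw [mul_smul, mul_smul, mul_smul, RR_smul, RR_smul, RR_smul, RR_smul, cm z]
  have e : x * (x * (x * w)) * z
      = x * (x * (x * w)) * z - (x * (x * (x * (w * z))) + x * (x * (w * (x * z)))
      + x * (x * (w * (x * z))) + x * (w * (x * (x * z))) + x * (x * (w * (x * z)))
      + x * (w * (x * (x * z))) + x * (w * (x * (x * z))) + w * (x * (x * (x * z)))) := by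
    have t1 := two (x * (x * (w * (x * z))))
    have t2 := two (x * (w * (x * (x * z))))
    linear_combination (norm := abel) h4 + t1 + t2
  rw [e]
  exact b4

/-- If `X ^ 3 = 0` then `z (c(x,v) w)` lies in every submodule containing the Jacobians. -/
theorem cub_mem (hA : IsMalcev A) (V : Submodule (UU F A) A) (hV : ∀ x y z : A, J x y z ∈ V)
    (hn : ∀ x : A, (RR F A x) ^ 3 = 0) (z x y w : A) :
    (RR F A z * co (RR F A) x y) • w ∈ V := by
  have cm := cm_A F hA
  have two := add_self_A F (A := A)
  have uu := uuU (F := F) (A := A)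
  have hcube : ∀ x : A, RR F A x * RR F A x * RR F A x = 0 := by
    intro x
    have := hn x
    rw [pow_succ, pow_two] at this
    exact this
  -- `c` is symmetric
  have hsym : ∀ x y : A, co (RR F A) x y = co (RR F A) y x := by
    intro x y
    have e1 : co (RR F A) x y + co (RR F A) y x = 0 := by
      have h1 := hcube (x + y)
      have h2 := hcube x
      have h3 := hcube y
      simp only [map_add, add_mul, mul_add] at h1
      unfold co
      linear_combination (norm := noncomm_ring) h1 - h2 - h3
    have h5 := uu (co (RR F A) x y)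
    have : co (RR F A) x y + co (RR F A) y x = co (RR F A) x y + co (RR F A) x y := by
      rw [e1, h5]
    exact (add_left_cancel this).symm
  have hadd2 : ∀ x y z : A, co (RR F A) x (y + z) = co (RR F A) x y + co (RR F A) x z := by
    intro x y z
    simp only [co, map_add, mul_add, add_mul]
    abel
  have hadd1 : ∀ x y z : A, co (RR F A) (x + y) z = co (RR F A) x z + co (RR F A) y z := by
    intro x y z
    rw [hsym, hadd2, hsym x, hsym y]
  -- `S = 0`
  have hS : ∀ x y z : A, RR F A x * RR F A y * RR F A z + RR F A x * RR F A z * RR F A y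
      + RR F A y * RR F A x * RR F A z + RR F A y * RR F A z * RR F A x
      + RR F A z * RR F A x * RR F A y + RR F A z * RR F A y * RR F A x = 0 := by
    intro x y z
    have h1 := hadd1 x y z
    simp only [co, map_add, mul_add, add_mul] at h1
    linear_combination (norm := noncomm_ring) h1
  -- `x c(x,y) w ∈ V`
  have hx : ∀ x y w : A, (RR F A x * co (RR F A) x y) • w ∈ V := by
    intro x y w
    have b4 := ad3 F hA V hV x x x y w
    have h4 : x * (x * (x * y)) = 0 := by
      have := congrArg (fun u : UU F A => u • y) (hcube x)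
      simp only [mul_smul, RR_smul, zero_smul] at this
      exact this
    have h5 : y * (x * (x * (x * w))) = 0 := by
      have := congrArg (fun u : UU F A => u • w) (hcube x)
      simp only [mul_smul, RR_smul, zero_smul] at this
      rw [this, mul_zero]
    rw [h4, h5, zero_mul] at b4
    simp only [co, mul_smul, add_smul, RR_smul, mul_add, smul_add] at b4 ⊢
    have b5 := neg_mem b4
    have e : x * (x * (x * (y * w))) + x * (x * (y * (x * w))) + x * (y * (x * (x * w)))
        = -(0 - (x * (x * (x * (y * w))) + x * (x * (y * (x * w))) + x * (x * (y * (x * w)))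
          + x * (y * (x * (x * w))) + x * (x * (y * (x * w))) + x * (y * (x * (x * w)))
          + x * (y * (x * (x * w))) + 0)) := by
      have t1 := two (x * (x * (y * (x * w))))
      have t2 := two (x * (y * (x * (x * w))))
      linear_combination (norm := abel) - t1 - t2
    rw [e]
    exact b5
  -- linearisation
  have hxz : ∀ x z y w : A, (RR F A z * co (RR F A) x y) • w + (RR F A x * co (RR F A) z y) • w ∈ V := by
    intro x z y w
    have h1 := hx (x + z) y w
    have h2 := hx x y w
    have h3 := hx z y w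
    rw [map_add, hadd1, add_mul, mul_add, mul_add, add_smul, add_smul, add_smul] at h1
    have h4 := sub_mem (sub_mem h1 h2) h3
    have e : (RR F A z * co (RR F A) x y) • w + (RR F A x * co (RR F A) z y) • w
        = (RR F A x * co (RR F A) x y) • w + (RR F A x * co (RR F A) z y) • w
          + ((RR F A z * co (RR F A) x y) • w + (RR F A z * co (RR F A) z y) • w)
          - (RR F A x * co (RR F A) x y) • w - (RR F A z * co (RR F A) z y) • w := by
      abel
    rw [e]
    exact h4
  -- the adjoint action of `c(x,y) w`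
  have b1 := ad3 F hA V hV x x y w z
  have b2 := ad3 F hA V hV x y x w z
  have b3 := ad3 F hA V hV y x x w z
  have b4 := add_mem (add_mem b1 b2) b3
  -- `y c(x,w) z + w c(x,y) z ∈ V`
  have b5 := hxz w y x z
  rw [hsym w x, hsym y x] at b5
  have hS' := congrArg (fun u : UU F A => x * (u • z)) (hS x y w)
  simp only [add_smul, mul_smul, RR_smul, zero_smul, mul_add, mul_zero] at hS'
  have b6 := add_mem b4 b5
  rw [mul_smul, RR_smul, cm z]
  simp only [co, mul_smul, add_smul, RR_smul, mul_add, smul_add, add_mul] at b6 ⊢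
  convert b6 using 1
  have t1 := two (y * (w * (x * (x * z))))
  have t2 := two (x * (w * (y * (x * z))))
  have t3 := two (x * (w * (x * (y * z))))
  have t4 := two (x * (x * (w * (y * z))))
  have t5 := two (x * (y * (w * (x * z))))
  have t6 := two (y * (x * (w * (x * z))))
  linear_combination (norm := abel) hS' + t1 + t2 + t3 + t4 + t5 + t6

/-- If `z (c(x,y) w)` is killed by long products then the algebra is nilpotent. -/
theorem isNilp_of_zco (hA : IsMalcev A) {m : ℕ} (hm : 2 ≤ m) (g : Fin m → A)
    (hgen : Submodule.span F (Set.range (Tr.ev g)) = ⊤) (N : ℕ)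
    (hzc : ∀ z x y w : A, (RR F A z * co (RR F A) x y) • w ∈ annK (RR F A) A N) : IsNilp A := by
  have ctx := RR_ctx (F := F) hA g hgen
  -- `c(x,y) w ∈ annK (N + 1)`
  have h1 : ∀ x y w : A, co (RR F A) x y • w ∈ annK (RR F A) A (N + 1) := by
    intro x y w
    refine annK_of_words g ctx ?_
    intro l hl
    have e : l = l.take N ++ l.drop N := (List.take_append_drop _ _).symm
    have hlen : (l.drop N).length = 1 := by
      rw [List.length_drop]
      omega
    obtain ⟨z, hz⟩ := List.length_eq_one_iff.mp hlen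
    rw [e, hz, List.map_append, List.prod_append, mul_smul]
    simp only [List.map_cons, List.map_nil, List.prod_cons, List.prod_nil, mul_one]
    rw [← mul_smul (RR F A z)]
    have h2 := annK_kill (hzc z x y w) (l.take N) (by rw [List.length_take]; omega)
    exact h2
  have h2 : ∀ x : A, gI (RR F A) x • (⊤ : Submodule (UU F A) A) ≤ annK (RR F A) A (N + 1) := by
    intro x
    rw [Submodule.smul_le]
    intro r hr v _
    unfold gI tsp at hr
    induction hr using Submodule.span_induction with
    | mem r hr =>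
      obtain ⟨s, ⟨y, rfl⟩, t, rfl⟩ := hr
      rw [mul_smul]
      exact h1 x y _
    | zero => simp
    | add a b _ _ ha hb => rw [add_smul]; exact add_mem ha hb
    | smul c a _ ha => rw [smul_assoc]; exact Submodule.smul_mem _ c ha
  have hnil : ∀ x : A, ∃ M : ℕ, (gI (RR F A) x) ^ M = ⊥ := by
    intro x
    obtain ⟨M, hM⟩ := QP_annK (W := A) g ctx (N + 1) x
    refine ⟨M + 1, ?_⟩
    rw [eq_bot_iff]
    intro i hi
    rw [Submodule.mem_bot]
    have h3 : ∀ w : A, i • w = 0 := by
      intro w
      have h4 : i • w ∈ (gI (RR F A) x) ^ (M + 1) • (⊤ : Submodule (UU F A) A) :=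
        Submodule.smul_mem_smul hi Submodule.mem_top
      rw [Ideal.IsTwoSided.pow_add, Submodule.pow_one, Submodule.mul_smul] at h4
      have h5 := Submodule.smul_mono (le_refl ((gI (RR F A) x) ^ M)) (h2 x) h4
      rw [hM] at h5
      exact (Submodule.mem_bot _).mp h5
    ext w
    exact h3 w
  obtain ⟨K', hK'⟩ := nil_of_gI g hm ctx hnil
  refine isNilp_of_words F hA K' ?_
  intro l hl w
  rw [hK' l hl, zero_smul]

/-- Nilpotency for small Engel degree. -/
theorem isNilp_small (hA : IsMalcev A) {m : ℕ} (hm : 2 ≤ m) (g : Fin m → A)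
    (hgen : Submodule.span F (Set.range (Tr.ev g)) = ⊤) (n : ℕ)
    (hn : ∀ x : A, (RR F A x) ^ n = 0)
    (hsm : n ≤ 3 ∨ (n ≤ 4 ∧ ∃ c : F, c ≠ 0 ∧ c ≠ 1)) : IsNilp A := by
  have hup : ∀ k : ℕ, n ≤ k → ∀ x : A, (RR F A x) ^ k = 0 := by
    intro k hk x
    have : (RR F A x) ^ k = (RR F A x) ^ n * (RR F A x) ^ (k - n) := by
      rw [← pow_add, show n + (k - n) = k by omega]
    rw [this, hn x, zero_mul]
  obtain ⟨N, hN⟩ := main_J (F := F) hA hm g hgen n hn
  refine isNilp_of_zco (F := F) hA hm g hgen N ?_
  intro z x y w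
  rcases hsm with h3 | ⟨h4, c, hc0, hc1⟩
  · exact cub_mem hA _ hN (hup 3 h3) z x y w
  · exact cub_lin _ z (fun x w => quart_mem hA _ hN (hup 4 h4) c hc0 hc1 z x w) c hc0 hc1 x y w

end

end Pool.Agent.MalEngel
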