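import Pool.Agent.MalEngel.Defs

namespace Pool.Agent.MalEngel

section
variable {F A U W : Type*} [Field F] [NonUnitalNonAssocRing A] [Module F A]
  [IsScalarTower F A A] [SMulCommClass F A A] [Ring U] [Algebra F U] [AddCommGroup W] [Module U W]
  {R : A →+ U}

/-- `U_f`. -/
def Uf (R : A →+ U) (f : List A → W) : List A → W
  | c :: d :: e :: l => br R d e • f (c :: l) + br R e c • f (d :: l) + br R c d • f (e :: l)
  | _ => 0

theorem ufm_neg (h : Std R) (w : W) : -w = w := by
  have := h.ww w
  exact (eq_neg_of_add_eq_zero_left this).symm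

theorem ufm_two (h : Std R) (w : W) : (2 : ℤ) • w = 0 := by
  rw [two_zsmul]; exact h.ww w

theorem ufm_two' (h : Std R) (w : W) : (2 : ℕ) • w = 0 := by
  rw [two_nsmul]; exact h.ww w

theorem ufm_four (h : Std R) (w : W) : (4 : ℤ) • w = 0 := by
  have : (4 : ℤ) = 2 * 2 := by norm_num
  rw [this, mul_smul, ufm_two h]

theorem ufm_four' (h : Std R) (w : W) : (4 : ℕ) • w = 0 := by
  have : (4 : ℕ) = 2 * 2 := by norm_num
  rw [this, mul_smul, ufm_two' h]

theorem ufm_mtwo (h : Std R) (w : W) : (-2 : ℤ) • w = 0 := by
  rw [neg_zsmul, ufm_two h, neg_zero]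

theorem ufm_mfour (h : Std R) (w : W) : (-4 : ℤ) • w = 0 := by
  rw [neg_zsmul, ufm_four h, neg_zero]

/-- char 2: equality from zero sum -/
theorem ufm_eq (h : Std R) {a b : W} (hab : a + b = 0) : a = b := by
  rw [← ufm_neg h b]
  exact eq_neg_of_add_eq_zero_left hab

theorem ufm_zero (h : Std R) {a b : W} (hab : a = b) : a + b = 0 := by
  rw [hab]; exact h.ww b

theorem C1 (h : Std R) (f : List A → W) {r : ℕ} (hf : AltDer F R r f) (x b c : A) (l : List A) :
    br R x c • f (x :: b :: l) = br R x b • f (x :: c :: l) := by
  have sw : ∀ a b : A, f (a :: b :: l) = f (b :: a :: l) := fun a b => hf.perm _ _ (List.Perm.swap _ _ _)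
  have e1 : f ((b * x) :: (c * x) :: l) = R x • (R x • f (b :: c :: l) + R c • f (x :: b :: l)) + R b • (R x • f (x :: c :: l)) := by
    rw [hf.der, sw b (c * x), sw x (c * x), hf.der, hf.der, hf.alt, smul_zero, add_zero, sw c b, sw c x]
  have e2 : f ((c * x) :: (b * x) :: l) = R x • (R x • f (b :: c :: l) + R b • f (x :: c :: l)) + R c • (R x • f (x :: b :: l)) := by
    rw [hf.der, sw c (b * x), sw x (b * x), hf.der, hf.der, hf.alt, smul_zero, add_zero, sw b x]
  rw [sw (b * x) (c * x), e2] at e1
  apply ufm_eq h
  have e3 := ufm_zero h e1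
  rw [← e3]
  simp only [br, add_smul, mul_smul, smul_add]
  have h0 := h.ww (R x • R x • f (b :: c :: l))
  linear_combination (norm := skip) - h0
  abel_nf

theorem ufm_br_add_left (x y c : A) : br R (x + y) c = br R x c + br R y c := by
  simp only [br, map_add, add_mul, mul_add]; abel

theorem ufm_br_add_right (x y c : A) : br R c (x + y) = br R c x + br R c y := by
  simp only [br, map_add, add_mul, mul_add]; abel

theorem ufm_br_comm (x y : A) : br R x y = br R y x := by
  simp only [br]; abel

/-- Polarisation of (C1) in `x` (replace `x` by `x + y`, use additivity and (C1)). -/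
theorem C1p (h : Std R) (f : List A → W) {r : ℕ} (hf : AltDer F R r f) (x y b c : A) (l : List A) :
    br R y c • f (x :: b :: l) + br R x c • f (y :: b :: l)
      = br R y b • f (x :: c :: l) + br R x b • f (y :: c :: l) := by
  have h1 := C1 h f hf (x + y) b c l
  have h2 := C1 h f hf x b c l
  have h3 := C1 h f hf y b c l
  rw [ufm_br_add_left, ufm_br_add_left, hf.add, hf.add] at h1
  simp only [add_smul, smul_add] at h1
  rw [h2, h3] at h1
  linear_combination (norm := skip) h1
  abel

theorem Y1 (h : Std R) (f : List A → W) {r : ℕ} (hf : AltDer F R r f) (y a c d e : A)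
    (l : List A) :
    (R y * br R d e + br R d e * R y) • f (y :: a :: c :: l)
      + (R y * br R e c + br R e c * R y) • f (y :: a :: d :: l)
      + (R y * br R c d + br R c d * R y) • f (y :: a :: e :: l) = 0 := by
  have sw1 : ∀ (p a b : A) (l : List A), f (p :: a :: b :: l) = f (p :: b :: a :: l) :=
    fun p a b l => hf.perm _ _ ((List.Perm.swap _ _ _).cons _)
  have der1 : ∀ (p u v w : A), f (p :: (u * v) :: w :: l) = R v • f (p :: u :: w :: l) + R u • f (p :: v :: w :: l) := by
    intro p u v w
    have e1 : ∀ q, f (p :: q :: w :: l) = f (q :: p :: w :: l) := fun q => hf.perm _ _ (List.Perm.swap _ _ _)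
    rw [e1, hf.der, e1, e1]
  -- alternation of T
  have T : ∀ p q s : A, br R y s • f (y :: p :: q :: l) = br R y q • f (y :: p :: s :: l) := by
    intro p q s
    rw [sw1 y p q, sw1 y p s]
    exact C1 h f hf y q s (p :: l)
  have T1 := congrArg (fun w => R e • w) (T a c d)
  have T2 := congrArg (fun w => R d • w) (T a c e)
  have T3 := congrArg (fun w => R c • w) (T a d e)
  have S : ∀ p q s : A, br R y s • f (y :: a :: (p * q) :: l) = br R y a • f (y :: s :: (p * q) :: l) := by
    intro p q s
    exact C1 h f hf y a s (p * q :: l)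
  have S1 := S c e d
  have S2 := S c d e
  have S3 := S d e c
  have d1 : ∀ p u v : A, f (y :: p :: (u * v) :: l) = R v • f (y :: p :: u :: l) + R u • f (y :: p :: v :: l) := by
    intro p u v
    rw [sw1, der1, sw1 y u p, sw1 y v p]
  rw [d1, d1] at S1 S2 S3
  rw [sw1 y d c] at S1
  rw [sw1 y e c] at S2
  rw [sw1 y e d] at S2
  clear T S
  linear_combination (norm := skip) T1 + T2 + T3 + S1 + S2 + S3
  simp only [br, add_smul, mul_smul, smul_add]
  abel_nf
  simp only [ufm_two h, ufm_mtwo h, ufm_four h, ufm_mfour h, add_zero, zero_add]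

/-- Polarisation of (Y1) in `y`. -/
theorem ufm_Y1p (h : Std R) (f : List A → W) {r : ℕ} (hf : AltDer F R r f) (x y a c d e : A)
    (l : List A) :
    ((R y * br R d e + br R d e * R y) • f (x :: a :: c :: l)
      + (R y * br R e c + br R e c * R y) • f (x :: a :: d :: l)
      + (R y * br R c d + br R c d * R y) • f (x :: a :: e :: l))
    + ((R x * br R d e + br R d e * R x) • f (y :: a :: c :: l)
      + (R x * br R e c + br R e c * R x) • f (y :: a :: d :: l)
      + (R x * br R c d + br R c d * R x) • f (y :: a :: e :: l)) = 0 := by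
  have h1 := Y1 h f hf (x + y) a c d e l
  have h2 := Y1 h f hf x a c d e l
  have h3 := Y1 h f hf y a c d e l
  rw [hf.add, hf.add, hf.add, map_add] at h1
  simp only [smul_add, add_smul, mul_add, add_mul] at h1 h2 h3 ⊢
  linear_combination (norm := skip) h1 - h2 - h3
  abel

/-
`U_f` is alternating: symmetric in c,d,e and zero if c = d; swapping `e` with the head of `l` is
(C1p); swaps inside `l` by `hf.perm`; then `perm_of_swap`.
-/
theorem ufm_perm (h : Std R) (f : List A → W) {r : ℕ} (hf : AltDer F R r f) :
    ∀ l l' : List A, l.Perm l' → Uf R f l = Uf R f l' := by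
  apply perm_of_swap
  intro p x y s
  match p with
  | [] =>
    match s with
    | [] => rfl
    | e :: l =>
      change br R y e • f (x :: l) + br R e x • f (y :: l) + br R x y • f (e :: l) =
        br R x e • f (y :: l) + br R e y • f (x :: l) + br R y x • f (e :: l)
      rw [ufm_br_comm (R := R) y e, ufm_br_comm (R := R) e x, ufm_br_comm (R := R) x y]
      abel
  | [c] =>
    change br R x y • f (c :: s) + br R y c • f (x :: s) + br R c x • f (y :: s) =
      br R y x • f (c :: s) + br R x c • f (y :: s) + br R c y • f (x :: s)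
    rw [ufm_br_comm (R := R) x y, ufm_br_comm (R := R) y c, ufm_br_comm (R := R) c x]
    abel
  | [c, d] =>
    change br R d x • f (c :: y :: s) + br R x c • f (d :: y :: s) + br R c d • f (x :: y :: s) =
      br R d y • f (c :: x :: s) + br R y c • f (d :: x :: s) + br R c d • f (y :: x :: s)
    have h1 := C1p h f hf c d y x s
    rw [ufm_br_comm (R := R) x c, ufm_br_comm (R := R) y c, h1,
      hf.perm (x :: y :: s) (y :: x :: s) (List.Perm.swap _ _ _)]
  | c :: d :: e :: p' =>
    change br R d e • f (c :: (p' ++ x :: y :: s)) + br R e c • f (d :: (p' ++ x :: y :: s)) +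
        br R c d • f (e :: (p' ++ x :: y :: s)) =
      br R d e • f (c :: (p' ++ y :: x :: s)) + br R e c • f (d :: (p' ++ y :: x :: s)) +
        br R c d • f (e :: (p' ++ y :: x :: s))
    have hp : (p' ++ x :: y :: s).Perm (p' ++ y :: x :: s) :=
      List.Perm.append_left _ (List.Perm.swap _ _ _)
    rw [hf.perm _ _ (hp.cons c), hf.perm _ _ (hp.cons d), hf.perm _ _ (hp.cons e)]

theorem ufm_len (f : List A → W) {r : ℕ} (hf : AltDer F R r f) (l : List A)
    (hl : l.length ≠ r + 2) : Uf R f l = 0 := by
  match l with
  | [] => rfl
  | [_] => rfl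
  | [_, _] => rfl
  | c :: d :: e :: l =>
    change br R d e • f (c :: l) + br R e c • f (d :: l) + br R c d • f (e :: l) = 0
    have hl' : l.length + 1 ≠ r := by
      intro h0
      apply hl
      simp only [List.length_cons]
      omega
    rw [hf.len (c :: l) hl', hf.len (d :: l) hl', hf.len (e :: l) hl', smul_zero, smul_zero,
      smul_zero, add_zero, add_zero]

/-
`U_f` is a derivation in each argument: by permutation invariance put the product in the 4th
argument (so it is an argument of f): `U_f(c,d,e,xy,l)` with `f(c,xy,l) = Y f(c,x,l) + X f(c,y,l)`;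
the required identity is the polarisation of (Y1) in `y` (with `a :: l` being the remaining arguments;
there is such an `a` because r ≥ 3).  For lists of length ≠ r+2 everything is zero by `hf.len`.
-/
theorem Uf_altDer (h : Std R) (hs : ∀ (c : F) (a : A), R (c • a) = c • R a) (f : List A → W)
    {r : ℕ} (hr : 3 ≤ r) (hf : AltDer F R r f) : AltDer F R (r + 2) (Uf R f) := by
  have hperm := ufm_perm h f hf
  refine ⟨⟨hperm, ?_, ?_⟩, ufm_len f hf, ?_, ?_⟩
  · intro x y l
    match l with
    | [] => exact (add_zero _).symm
    | [_] => exact (add_zero _).symm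
    | d :: e :: l =>
      change br R d e • f ((x + y) :: l) + br R e (x + y) • f (d :: l) + br R (x + y) d • f (e :: l) =
        (br R d e • f (x :: l) + br R e x • f (d :: l) + br R x d • f (e :: l)) +
        (br R d e • f (y :: l) + br R e y • f (d :: l) + br R y d • f (e :: l))
      rw [hf.add, ufm_br_add_left, ufm_br_add_right, smul_add, add_smul, add_smul]
      abel
  · intro x l
    match l with
    | [] => rfl
    | e :: l =>
      change br R x e • f (x :: l) + br R e x • f (x :: l) + br R x x • f (e :: l) = 0
      have h0 : br R x x = 0 := h.uu _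
      rw [h0, zero_smul, add_zero, ufm_br_comm (R := R) e x]
      exact h.ww _
  · intro c x l
    match l with
    | [] => exact (smul_zero _).symm
    | [_] => exact (smul_zero _).symm
    | d :: e :: l =>
      change br R d e • f ((c • x) :: l) + br R e (c • x) • f (d :: l) + br R (c • x) d • f (e :: l) =
        algebraMap F U c • (br R d e • f (x :: l) + br R e x • f (d :: l) + br R x d • f (e :: l))
      have h1 : br R e (c • x) = algebraMap F U c * br R e x := by
        simp only [br, hs, Algebra.smul_def, mul_add, ← mul_assoc, Algebra.commutes]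
        simp only [mul_assoc, Algebra.commutes]
      have h2 : br R (c • x) d = algebraMap F U c * br R x d := by
        rw [ufm_br_comm, ufm_br_comm (R := R) x d]
        simp only [br, hs, Algebra.smul_def, mul_add, ← mul_assoc, Algebra.commutes]
        simp only [mul_assoc, Algebra.commutes]
      rw [h1, h2, hf.smul, smul_add, smul_add, mul_smul, mul_smul, ← mul_smul, ← Algebra.commutes,
        mul_smul]
  · intro x y l
    by_cases hl : l.length = r + 1
    · match l with
      | [] => exfalso; simp at hl
      | [_] => exfalso; simp at hl; omega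
      | [_, _] => exfalso; simp at hl; omega
      | [_, _, _] => exfalso; simp at hl; omega
      | d :: e :: a :: b :: l =>
        have e1 : ∀ z : A, Uf R f (z :: d :: e :: a :: b :: l) = Uf R f (d :: e :: a :: z :: b :: l) := by
          intro z
          exact hperm _ _ (List.perm_middle (l₁ := [d, e, a])).symm
        rw [e1, e1, e1]
        change br R e a • f (d :: (x * y) :: b :: l) + br R a d • f (e :: (x * y) :: b :: l) +
            br R d e • f (a :: (x * y) :: b :: l) =
          R y • (br R e a • f (d :: x :: b :: l) + br R a d • f (e :: x :: b :: l) +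
            br R d e • f (a :: x :: b :: l)) +
          R x • (br R e a • f (d :: y :: b :: l) + br R a d • f (e :: y :: b :: l) +
            br R d e • f (a :: y :: b :: l))
        have e2 : ∀ z w : A, f (w :: z :: b :: l) = f (z :: b :: w :: l) := by
          intro z w
          exact hf.perm _ _ (List.perm_middle (l₁ := [z, b])).symm
        rw [e2, e2, e2, e2, e2, e2, e2, e2, e2, hf.der, hf.der, hf.der]
        have h1 := ufm_Y1p h f hf x y b d e a l
        linear_combination (norm := skip) h1
        simp only [br, add_smul, mul_smul, smul_add]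
        abel_nf
        simp only [ufm_two h, ufm_mtwo h, ufm_four h, ufm_mfour h, add_zero, zero_add]
    · have h1 : ∀ z : A, Uf R f (z :: l) = 0 := by
        intro z
        apply ufm_len f hf
        simp only [List.length_cons]
        omega
      rw [h1, h1, h1, smul_zero, smul_zero, add_zero]

end

end Pool.Agent.MalEngel
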