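import Pool.Agent.MalEngel.Small

/-!
Engel Malcev algebras in characteristic two: reduction to finitely generated Engel Lie algebras.
-/

namespace Pool.Agent.MalEngel

universe u v

section lie

variable {F : Type u} {B : Type v} [Field F] [CharP F 2] [NonUnitalNonAssocRing B] [Module F B]
  [IsScalarTower F B B] [SMulCommClass F B B]

/-- The Lie ring structure on an algebra all of whose Jacobians vanish. -/
@[reducible] def lieRingOf (hsq : ∀ x : B, x * x = 0) (hcm : ∀ x y : B, x * y = y * x)
    (hadd : ∀ x : B, x + x = 0) (hj : ∀ x y z : B, J x y z = 0) : LieRing B :=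
  { (inferInstance : AddCommGroup B) with
    bracket := fun x y => x * y
    add_lie := add_mul
    lie_add := mul_add
    lie_self := hsq
    leibniz_lie := by
      intro x y z
      show x * (y * z) = (x * y) * z + y * (x * z)
      have h := hj x y z
      unfold J at h
      rw [hcm x (y * z), hcm y (x * z), hcm x z]
      have h2 := hadd ((y * z) * x)
      have h3 : (y * z) * x + ((x * y) * z + (z * x) * y) = (y * z) * x + (y * z) * x := by
        rw [h2, ← h]; abel
      exact (add_left_cancel h3).symm }

/-- The Lie algebra structure. -/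
@[reducible] def lieAlgOf (hsq : ∀ x : B, x * x = 0) (hcm : ∀ x y : B, x * y = y * x)
    (hadd : ∀ x : B, x + x = 0) (hj : ∀ x y z : B, J x y z = 0) :
    letI := lieRingOf hsq hcm hadd hj
    LieAlgebra F B :=
  letI := lieRingOf hsq hcm hadd hj
  { (inferInstance : Module F B) with
    lie_smul := fun c x y => mul_smul_comm c x y }

/-- The Lie algebra theorem that is used. -/
def LieThm (F : Type u) [Field F] (B : Type v) : Prop :=
  ∀ (_ : LieRing B) (_ : LieAlgebra F B) (X : Set B), X.Finite → LieSubalgebra.lieSpan F B X = ⊤ →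
    ∀ n : ℕ, (∀ x : B, (LieAlgebra.ad F B x) ^ n = 0) →
      ∃ N : ℕ, ∀ l : List B, l.length = N → ∀ y : B,
        (l.map fun x => LieAlgebra.ad F B x).prod y = 0

theorem isNilp_of_lie (hZ : LieThm F B) (hB : IsMalcev B) (hj : ∀ x y z : B, J x y z = 0)
    (S : Finset B) (hS : NonUnitalAlgebra.adjoin F (S : Set B) = ⊤) (n : ℕ)
    (hn : ∀ x y : B, ((fun w => w * x)^[n]) y = 0) : IsNilp B := by
  have hcm := cm_A F hB
  have hadd : ∀ x : B, x + x = 0 := add_self_A F
  letI iR : LieRing B := lieRingOf hB.sq hcm hadd hj
  letI iA : LieAlgebra F B := lieAlgOf hB.sq hcm hadd hj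
  have had : ∀ x y : B, LieAlgebra.ad F B x y = x * y := fun x y => rfl
  have hspan : LieSubalgebra.lieSpan F B (S : Set B) = ⊤ := by
    let V' : NonUnitalSubalgebra F B :=
      { carrier := LieSubalgebra.lieSpan F B (S : Set B)
        add_mem' := fun h1 h2 => add_mem h1 h2
        zero_mem' := zero_mem _
        mul_mem' := fun h1 h2 => (LieSubalgebra.lieSpan F B (S : Set B)).lie_mem h1 h2
        smul_mem' := fun c _ h => (LieSubalgebra.lieSpan F B (S : Set B)).smul_mem c h }
    have hle : NonUnitalAlgebra.adjoin F (S : Set B) ≤ V' :=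
      NonUnitalAlgebra.adjoin_le fun a ha => LieSubalgebra.subset_lieSpan ha
    rw [eq_top_iff]
    intro a _
    have : a ∈ NonUnitalAlgebra.adjoin F (S : Set B) := by rw [hS]; trivial
    exact hle this
  have hit : ∀ (k : ℕ) (x y : B), ((LieAlgebra.ad F B x) ^ k) y = ((fun w => w * x)^[k]) y := by
    intro k x y
    induction k with
    | zero => rfl
    | succ k ih =>
      rw [pow_succ', Module.End.mul_apply, ih, had, hcm, Function.iterate_succ_apply']
  obtain ⟨N, hN⟩ := hZ iR iA (S : Set B) S.finite_toSet hspan n (by
    intro x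
    ext y
    rw [hit, hn]
    rfl)
  refine isNilp_of_words F hB N ?_
  intro l hl w
  have h1 := hN l hl w
  rw [RR_prod]
  have h2 : ∀ l : List B, (l.map fun x => LieAlgebra.ad F B x).prod w =
      l.foldr (fun a b => a * b) w := by
    intro l
    induction l with
    | nil => rfl
    | cons a l ih =>
      rw [List.map_cons, List.prod_cons, Module.End.mul_apply, ih, List.foldr_cons, had]
  rw [← h2, h1]

end lie

section quot

variable {F : Type u} {A : Type v} [Field F] [NonUnitalNonAssocRing A] [Module F A]
  [IsScalarTower F A A] [SMulCommClass F A A]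

theorem JI_smul (c : F) (a : A) (ha : a ∈ JI A) : c • a ∈ JI A := by
  let I : TwoSidedIdeal A := TwoSidedIdeal.mk' {a : A | c • a ∈ JI A}
    (by
      show c • (0 : A) ∈ JI A
      rw [smul_zero]
      exact (JI A).zero_mem)
    (by
      intro x y hx hy
      show c • (x + y) ∈ JI A
      rw [smul_add]
      exact (JI A).add_mem hx hy)
    (by
      intro x hx
      show c • (-x) ∈ JI A
      rw [smul_neg]
      exact (JI A).neg_mem hx)
    (by
      intro x y hy
      show c • (x * y) ∈ JI A
      rw [← mul_smul_comm]
      exact (JI A).mul_mem_left _ _ hy)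
    (by
      intro x y hx
      show c • (x * y) ∈ JI A
      rw [← smul_mul_assoc]
      exact (JI A).mul_mem_right _ _ hx)
  have h1 : JI A ≤ I := by
    refine TwoSidedIdeal.span_le.mpr ?_
    rintro _ ⟨x, y, z, rfl⟩
    refine (TwoSidedIdeal.mem_mk' _ _ _ _ _ _ _).mpr ?_
    show c • J x y z ∈ JI A
    have h2 : c • J x y z = J (c • x) y z := by
      unfold J
      simp only [smul_add, smul_mul_assoc, mul_smul_comm]
    rw [h2]
    exact TwoSidedIdeal.subset_span ⟨_, _, _, rfl⟩
  exact (TwoSidedIdeal.mem_mk' {a : A | c • a ∈ JI A} _ _ _ _ _ a).mp (h1 ha)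

/-- The scalar action on the largest Lie quotient. -/
@[reducible] def qSMul (F : Type u) {A : Type v} [Field F] [NonUnitalNonAssocRing A] [Module F A]
    [IsScalarTower F A A] [SMulCommClass F A A] : SMul F (JI A).ringCon.Quotient :=
  ⟨fun c => Quotient.map' (fun a => c • a) (by
    intro a b h
    have h1 : (JI A).ringCon a b := h
    rw [TwoSidedIdeal.rel_iff] at h1
    show (JI A).ringCon (c • a) (c • b)
    rw [TwoSidedIdeal.rel_iff, ← smul_sub]
    exact JI_smul c _ h1)⟩

theorem q_smul (c : F) (a : A) :
    letI := qSMul F (A := A)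
    ((c • a : A) : (JI A).ringCon.Quotient) = c • (a : (JI A).ringCon.Quotient) := rfl

/-- The module structure on the largest Lie quotient. -/
@[reducible] def qModule (F : Type u) {A : Type v} [Field F] [NonUnitalNonAssocRing A] [Module F A]
    [IsScalarTower F A A] [SMulCommClass F A A] : Module F (JI A).ringCon.Quotient :=
  letI := qSMul F (A := A)
  Function.Surjective.module F
    ({ toFun := fun a => (a : (JI A).ringCon.Quotient)
       map_zero' := rfl
       map_add' := fun _ _ => rfl } : A →+ (JI A).ringCon.Quotient)
    Quotient.mk''_surjective (fun _ _ => rfl)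

end quot

section final

variable {F : Type u} {A : Type v} [Field F] [CharP F 2] [NonUnitalNonAssocRing A] [Module F A]
    [IsScalarTower F A A] [SMulCommClass F A A]

theorem nilp_of_fg (hZ : LieThm F (JI A).ringCon.Quotient) (hA : IsMalcev A)
    (n : ℕ) (hn : ∀ x y : A, ((fun w => w * x)^[n]) y = 0)
    (S : Finset A) (hS : NonUnitalAlgebra.adjoin F (S : Set A) = ⊤) : IsNilp A := by
  classical
  obtain ⟨m, hm, g, hgen⟩ := gen_of_adjoin (F := F) S hS
  have hn' : ∀ x : A, (RR F A x) ^ n = 0 := RR_pow_zero hA n hn
  obtain ⟨N, hN⟩ := main_J (F := F) hA hm g hgen n hn'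
  rw [isNilp_iff (F := F) hA N hN]
  letI iM : Module F (JI A).ringCon.Quotient := qModule F
  haveI : IsScalarTower F (JI A).ringCon.Quotient (JI A).ringCon.Quotient := ⟨by
    intro c x y
    induction x using Quotient.inductionOn' with | _ x => ?_
    induction y using Quotient.inductionOn' with | _ y => ?_
    exact congrArg (fun a : A => (a : (JI A).ringCon.Quotient)) (smul_mul_assoc c x y)⟩
  haveI : SMulCommClass F (JI A).ringCon.Quotient (JI A).ringCon.Quotient := ⟨by
    intro c x y
    induction x using Quotient.inductionOn' with | _ x => ?_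
    induction y using Quotient.inductionOn' with | _ y => ?_
    exact congrArg (fun a : A => (a : (JI A).ringCon.Quotient)) (mul_smul_comm c x y).symm⟩
  have hj : ∀ x y z : (JI A).ringCon.Quotient, J x y z = 0 := by
    intro x y z
    induction x using Quotient.inductionOn' with | _ x => ?_
    induction y using Quotient.inductionOn' with | _ y => ?_
    induction z using Quotient.inductionOn' with | _ z => ?_
    exact (mk_eq_zero_iff (JI A) (J x y z)).2 (TwoSidedIdeal.subset_span ⟨x, y, z, rfl⟩)
  have hQ : IsMalcev (JI A).ringCon.Quotient := by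
    constructor
    · intro x
      induction x using Quotient.inductionOn' with | _ x => ?_
      exact congrArg (fun a : A => (a : (JI A).ringCon.Quotient)) (hA.sq x)
    · intro x y z
      rw [hj, hj, zero_mul]
  refine isNilp_of_lie hZ hQ hj (S.image fun a : A => (a : (JI A).ringCon.Quotient)) ?_ n ?_
  · rw [eq_top_iff]
    intro q hq
    clear hq
    induction q using Quotient.inductionOn' with | _ a => ?_
    have ha : a ∈ NonUnitalAlgebra.adjoin F (S : Set A) := by rw [hS]; trivial
    show (a : (JI A).ringCon.Quotient) ∈ NonUnitalAlgebra.adjoin F _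
    induction ha using NonUnitalAlgebra.adjoin_induction with
    | mem x hx =>
      refine NonUnitalAlgebra.subset_adjoin F ?_
      rw [Finset.coe_image]
      exact ⟨x, hx, rfl⟩
    | add x y _ _ hx hy => exact add_mem hx hy
    | zero => exact zero_mem _
    | mul x y _ _ hx hy => exact mul_mem hx hy
    | smul c x _ hx => exact SMulMemClass.smul_mem c hx
  · intro x y
    induction x using Quotient.inductionOn' with | _ x => ?_
    induction y using Quotient.inductionOn' with | _ y => ?_
    have h1 : ∀ k : ℕ, ((fun w : (JI A).ringCon.Quotient => w * (x : (JI A).ringCon.Quotient))^[k])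
        (y : (JI A).ringCon.Quotient) = (((fun w : A => w * x)^[k]) y : A) := by
      intro k
      induction k with
      | zero => rfl
      | succ k ih => rw [Function.iterate_succ_apply', Function.iterate_succ_apply', ih]; rfl
    exact (h1 n).trans (congrArg (fun a : A => (a : (JI A).ringCon.Quotient)) (hn x y))

/-- Local nilpotency. -/
theorem locNilp (hZ : ∀ B : Type v, LieThm F B) (hA : IsMalcev A)
    (n : ℕ) (hn : ∀ x y : A, ((fun w => w * x)^[n]) y = 0) (S : Finset A) :
    IsNilp (NonUnitalAlgebra.adjoin F (S : Set A)) := by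
  classical
  set C := NonUnitalAlgebra.adjoin F (S : Set A) with hC
  have hsub : ∀ a ∈ S, a ∈ C := fun a ha => NonUnitalAlgebra.subset_adjoin F ha
  have hCM : IsMalcev C := by
    constructor
    · intro x
      exact Subtype.ext (hA.sq x)
    · intro x y z
      exact Subtype.ext (hA.mal x y z)
  refine nilp_of_fg (F := F) (hZ _) hCM n ?_
    (S.attach.image fun a => (⟨a.1, hsub a.1 a.2⟩ : C)) ?_
  · intro x y
    have h1 : ∀ k : ℕ, ((((fun w : C => w * x)^[k]) y : C) : A) =
        ((fun w : A => w * (x : A))^[k]) (y : A) := by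
      intro k
      induction k with
      | zero => rfl
      | succ k ih =>
        rw [Function.iterate_succ_apply', Function.iterate_succ_apply', ← ih]
        rfl
    exact Subtype.ext ((h1 n).trans (hn x y))
  · rw [eq_top_iff]
    rintro ⟨a, ha⟩ hq
    clear hq
    induction ha using NonUnitalAlgebra.adjoin_induction with
    | mem x hx =>
      refine NonUnitalAlgebra.subset_adjoin F ?_
      rw [Finset.coe_image]
      exact ⟨⟨x, hx⟩, by simp, rfl⟩
    | add x y hx' hy' hx hy =>
      exact add_mem hx hy
    | zero => exact zero_mem _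
    | mul x y hx' hy' hx hy => exact mul_mem hx hy
    | smul c x hx' hx => exact SMulMemClass.smul_mem c hx

end final

end Pool.Agent.MalEngel
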